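import Pool.Agent.Helper15.Thomson.OnePole

/-!
One pole and two rings: conclusion.
-/

namespace Pool.Agent.Helper15.Thomson

open Finset

theorem coord_surj (z : ℝ) {w : ℝ} (hw : 0 ≤ w) :
    ∃ X Y : ℝ, 0 < Y ∧ Y ≤ X ∧ Real.log (X * Y) = z ∧
      Real.log ((X ^ 2 + Y ^ 2) / (2 * (X * Y))) = w := by
  obtain ⟨m, hm⟩ : ∃ m, m = Real.exp w := ⟨_, rfl⟩
  have hm1 : 1 ≤ m := hm ▸ Real.one_le_exp hw
  obtain ⟨c, hc⟩ : ∃ c, c = Real.exp (z / 2) := ⟨_, rfl⟩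
  have hc0 : 0 < c := hc ▸ Real.exp_pos _
  obtain ⟨s, hs⟩ : ∃ s, s = Real.sqrt ((m + 1) / 2) := ⟨_, rfl⟩
  obtain ⟨t, ht⟩ : ∃ t, t = Real.sqrt ((m - 1) / 2) := ⟨_, rfl⟩
  have hs2 : s ^ 2 = (m + 1) / 2 := by rw [hs, Real.sq_sqrt (by linarith)]
  have ht2 : t ^ 2 = (m - 1) / 2 := by rw [ht, Real.sq_sqrt (by linarith)]
  have ht0 : 0 ≤ t := ht ▸ Real.sqrt_nonneg _
  have hts : t < s := by
    rw [hs, ht]
    exact Real.sqrt_lt_sqrt (by linarith) (by linarith)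
  have h1 : (c * (s + t)) * (c * (s - t)) = Real.exp z := by
    have e1 : (c * (s + t)) * (c * (s - t)) = c ^ 2 * (s ^ 2 - t ^ 2) := by ring
    rw [e1, hs2, ht2, hc, ← Real.exp_nat_mul]
    have e2 : (m + 1) / 2 - (m - 1) / 2 = 1 := by ring
    rw [e2, mul_one]
    congr 1
    push_cast
    ring
  have hcz : c ^ 2 = Real.exp z := by
    rw [hc, ← Real.exp_nat_mul]
    congr 1
    push_cast
    ring
  refine ⟨c * (s + t), c * (s - t), mul_pos hc0 (by linarith),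
    mul_le_mul_of_nonneg_left (by linarith) hc0.le, ?_, ?_⟩
  · rw [h1, Real.log_exp]
  · rw [h1]
    have e1 : ((c * (s + t)) ^ 2 + (c * (s - t)) ^ 2) / (2 * Real.exp z) = m := by
      have e2 : (c * (s + t)) ^ 2 + (c * (s - t)) ^ 2 = c ^ 2 * (2 * (s ^ 2 + t ^ 2)) := by ring
      rw [e2, hs2, ht2, hcz]
      have := (Real.exp_pos z).ne'
      field_simp
      ring
    rw [e1, hm, Real.log_exp]

theorem coord_nonneg {X Y : ℝ} (hX : 0 < X) (hY : 0 < Y) :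
    0 ≤ Real.log ((X ^ 2 + Y ^ 2) / (2 * (X * Y))) := by
  apply Real.log_nonneg
  rw [le_div_iff₀ (by positivity)]
  nlinarith [sq_nonneg (X - Y)]

theorem coord_inj {X Y X' Y' : ℝ} (hY : 0 < Y) (hYX : Y ≤ X) (hY' : 0 < Y') (hYX' : Y' ≤ X')
    (h1 : Real.log (X * Y) = Real.log (X' * Y'))
    (h2 : Real.log ((X ^ 2 + Y ^ 2) / (2 * (X * Y))) =
      Real.log ((X' ^ 2 + Y' ^ 2) / (2 * (X' * Y')))) : X = X' ∧ Y = Y' := by
  have hX : 0 < X := hY.trans_le hYX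
  have hX' : 0 < X' := hY'.trans_le hYX'
  have e1 : X * Y = X' * Y' :=
    Real.log_injOn_pos (Set.mem_Ioi.2 (mul_pos hX hY)) (Set.mem_Ioi.2 (mul_pos hX' hY')) h1
  have e2 : (X ^ 2 + Y ^ 2) / (2 * (X * Y)) = (X' ^ 2 + Y' ^ 2) / (2 * (X' * Y')) :=
    Real.log_injOn_pos (Set.mem_Ioi.2 (by positivity)) (Set.mem_Ioi.2 (by positivity)) h2
  rw [e1] at e2
  have hq : 0 < 2 * (X' * Y') := by positivity
  have e3 : X ^ 2 + Y ^ 2 = X' ^ 2 + Y' ^ 2 := by
    rw [div_left_inj' hq.ne'] at e2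
    exact e2
  have e4 : X + Y = X' + Y' := by
    have h3 : (X + Y) ^ 2 = (X' + Y') ^ 2 := by linear_combination e3 + 2 * e1
    exact (pow_left_inj₀ (by positivity) (by positivity) two_ne_zero).1 h3
  have e5 : X - Y = X' - Y' := by
    have h3 : (X - Y) ^ 2 = (X' - Y') ^ 2 := by linear_combination e3 - 2 * e1
    exact (pow_left_inj₀ (by linarith) (by linarith) two_ne_zero).1 h3
  exact ⟨by linarith, by linarith⟩

open Classical in
/-- two rings and one pole -/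
theorem good_one_two {k : ℕ} (hk : 3 ≤ k) : Good (1 + 2 * k) k 1 2 := by
  have hk0 : k ≠ 0 := by omega
  have hB := Bk_pos (show 2 ≤ k by omega)
  have hk' : (0 : ℝ) < k := by positivity
  have hom0 : om k ≠ 0 := by
    intro h
    have := norm_om k
    rw [h, norm_zero] at this
    exact zero_ne_one this
  let S : Type := {s : ℝ × ℝ // 0 < s.2 ∧ s.2 ≤ s.1}
  let N : S → Finset E3 := fun s => poles 1 ∪ (ring k (rX s.1.1 : ℝ) (aX s.1.1) ∪
    ring k ((rX s.1.2 : ℝ) * om k) (aX s.1.2))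
  let f : S → ℝ := fun s => eV k s.1.1 s.1.2
  have hX0 : ∀ s : S, 0 < s.1.1 := fun s => s.2.1.trans_le s.2.2
  have hrx : ∀ s : S, ((rX s.1.1 : ℝ) : ℂ) ≠ 0 := fun s => by
    exact_mod_cast (rX_pos (hX0 s)).ne'
  have hry : ∀ s : S, ((rX s.1.2 : ℝ) : ℂ) ≠ 0 := fun s => by
    exact_mod_cast (rX_pos s.2.1).ne'
  have hrxn : ∀ s : S, ‖((rX s.1.1 : ℝ) : ℂ)‖ = rX s.1.1 := fun s => by
    rw [Complex.norm_real, Real.norm_eq_abs, abs_of_pos (rX_pos (hX0 s))]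
  have hryn : ∀ s : S, ‖((rX s.1.2 : ℝ) : ℂ) * om k‖ = rX s.1.2 := fun s => by
    rw [norm_mul, norm_om, mul_one, Complex.norm_real, Real.norm_eq_abs, abs_of_pos (rX_pos s.2.1)]
  have hx1 : ∀ s : S, ‖((rX s.1.1 : ℝ) : ℂ)‖ ^ 2 + aX s.1.1 ^ 2 = 1 := fun s => by
    rw [hrxn, rX_aX]
  have hy1 : ∀ s : S, ‖((rX s.1.2 : ℝ) : ℂ) * om k‖ ^ 2 + aX s.1.2 ^ 2 = 1 := fun s => by
    rw [hryn, rX_aX]
  have hyC : ∀ s : S, ((rX s.1.2 : ℝ) : ℂ) * om k ≠ 0 := fun s => mul_ne_zero (hry s) hom0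
  have hdis : ∀ s : S, Disjoint (ring k (rX s.1.1 : ℝ) (aX s.1.1))
      (ring k ((rX s.1.2 : ℝ) * om k) (aX s.1.2)) := by
    intro s
    rw [Finset.disjoint_left]
    intro x hx hx'
    rw [mem_ring hk0 (hrx s)] at hx
    rw [mem_ring hk0 (hyC s), hx.1, mul_pow, om_pow hk0] at hx'
    have h1 := hx'.1
    have h2 : (rX s.1.1) ^ k = -(rX s.1.2) ^ k := by
      have h3 : (((rX s.1.1) ^ k : ℝ) : ℂ) = ((-(rX s.1.2) ^ k : ℝ) : ℂ) := by
        push_cast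
        rw [h1]
        ring
      exact_mod_cast h3
    have h3 : 0 < (rX s.1.1) ^ k := pow_pos (rX_pos (hX0 s)) _
    have h4 : 0 < (rX s.1.2) ^ k := pow_pos (rX_pos s.2.1) _
    linarith
  have hen : ∀ s : S, energy (N s) = f s := by
    intro s
    show energy (poles 1 ∪ (ring k (rX s.1.1 : ℝ) (aX s.1.1) ∪
      ring k ((rX s.1.2 : ℝ) * om k) (aX s.1.2))) = eV k s.1.1 s.1.2
    rw [energy_two hk0 1 (hrx s) (hyC s) (hdis s), inter_poles_one hk0 (hrx s) (hx1 s),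
      inter_poles_one hk0 (hyC s) (hy1 s), hrxn, hryn]
    have e1 : ∀ j ∈ range k, 1 / dist (pt (rX s.1.1 : ℝ) (aX s.1.1))
        (pt (zt k ^ j * ((rX s.1.2 : ℝ) * om k)) (aX s.1.2)) =
        1 / Real.sqrt ((2 - 2 * aX s.1.1 * aX s.1.2) -
          (2 * (rX s.1.1 * rX s.1.2)) * (om k * zt k ^ j).re) := by
      intro j _
      have hn : ‖zt k ^ j * ((rX s.1.2 : ℝ) * om k)‖ = rX s.1.2 := by
        rw [norm_mul, norm_pow, norm_zt, one_pow, one_mul, hryn]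
      rw [dist_sphere (hx1 s) (by rw [hn, rX_aX])]
      have e2 : zt k ^ j * (((rX s.1.2 : ℝ) : ℂ) * om k) *
          (starRingEnd ℂ) ((rX s.1.1 : ℝ) : ℂ) =
          ((rX s.1.1 * rX s.1.2 : ℝ) : ℂ) * (om k * zt k ^ j) := by
        rw [Complex.conj_ofReal]
        push_cast
        ring
      rw [e2, Complex.re_ofReal_mul]
      congr 2
      ring
    rw [Finset.sum_congr rfl e1]
    rfl
  have lift0 : ∀ (w w' : ℂ) (h h' : ℝ), w ≠ 0 → w' ≠ 0 → ‖w‖ ^ 2 + h ^ 2 = 1 →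
      ‖w'‖ ^ 2 + h' ^ 2 = 1 → Disjoint (ring k w h) (ring k w' h') → h' ≤ h →
      ∃ s : S, f s ≤ energy (poles 1 ∪ (ring k w h ∪ ring k w' h')) ∧
        (energy (poles 1 ∪ (ring k w h ∪ ring k w' h')) = f s →
          Eqv (poles 1 ∪ (ring k w h ∪ ring k w' h')) (N s)) := by
    intro w w' h h' hw hw' h1 h2 hd hh
    have hwp : 0 < ‖w‖ := norm_pos_iff.2 hw
    have hwp' : 0 < ‖w'‖ := norm_pos_iff.2 hw'
    -- the stereographic radius
    have hst : ∀ (r h : ℝ), 0 < r → r ^ 2 + h ^ 2 = 1 → 0 < (1 + h) / r ∧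
        rX ((1 + h) / r) = r ∧ aX ((1 + h) / r) = h := by
      intro r h hr hrh
      have hlt := abs_lt.1 ((sq_lt_one_iff_abs_lt_one h).1 (by nlinarith))
      have h3 : 0 < 1 + h := by linarith [hlt.1]
      have h4 : 0 < 1 - h := by linarith [hlt.2]
      have e1 : ((1 + h) / r) ^ 2 + 1 = 2 * (1 + h) / r ^ 2 := by
        field_simp
        linear_combination hrh
      have e2 : ((1 + h) / r) ^ 2 - 1 = 2 * (1 + h) * h / r ^ 2 := by
        field_simp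
        linear_combination -hrh
      refine ⟨by positivity, ?_, ?_⟩
      · unfold rX
        rw [e1]
        field_simp
      · unfold aX
        rw [e1, e2]
        field_simp
    obtain ⟨p1, p2, p3⟩ := hst ‖w‖ h hwp h1
    obtain ⟨q1, q2, q3⟩ := hst ‖w'‖ h' hwp' h2
    have hle : (1 + h') / ‖w'‖ ≤ (1 + h) / ‖w‖ := by
      have hlt := abs_lt.1 ((sq_lt_one_iff_abs_lt_one h).1 (by nlinarith))
      have hlt' := abs_lt.1 ((sq_lt_one_iff_abs_lt_one h').1 (by nlinarith))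
      have e1 : ((1 + h') / ‖w'‖) ^ 2 = (1 + h') / (1 - h') := by
        rw [div_pow, div_eq_div_iff (by positivity) (by linarith [hlt'.2])]
        linear_combination (-(1 + h')) * h2
      have e2 : ((1 + h) / ‖w‖) ^ 2 = (1 + h) / (1 - h) := by
        rw [div_pow, div_eq_div_iff (by positivity) (by linarith [hlt.2])]
        linear_combination (-(1 + h)) * h1
      apply (sq_le_sq₀ q1.le p1.le).1
      rw [e1, e2, div_le_div_iff₀ (by linarith [hlt'.2]) (by linarith [hlt.2])]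
      nlinarith
    refine ⟨⟨((1 + h) / ‖w‖, (1 + h') / ‖w'‖), q1, hle⟩, ?_⟩
    obtain ⟨c1, c2⟩ := cross_twist hk0 hw hw' h1 h2 hd
    show eV k ((1 + h) / ‖w‖) ((1 + h') / ‖w'‖) ≤ _ ∧
      (_ = eV k ((1 + h) / ‖w‖) ((1 + h') / ‖w'‖) →
        Eqv _ (poles 1 ∪ (ring k (rX ((1 + h) / ‖w‖) : ℝ) (aX ((1 + h) / ‖w‖)) ∪
          ring k ((rX ((1 + h') / ‖w'‖) : ℝ) * om k) (aX ((1 + h') / ‖w'‖)))))
    rw [energy_two hk0 1 hw hw' hd, inter_poles_one hk0 hw h1, inter_poles_one hk0 hw' h2]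
    unfold eV
    rw [p2, p3, q2, q3]
    constructor
    · have := mul_le_mul_of_nonneg_left c1 hk'.le
      linarith
    · intro he
      have g2 : w' ^ k * ‖w‖ ^ k = - w ^ k * ‖w'‖ ^ k := by
        by_contra hcon
        have := mul_lt_mul_of_pos_left (c2 hcon) hk'
        linarith
      have hrC : ((‖w‖ : ℝ) : ℂ) ≠ 0 := by exact_mod_cast hwp.ne'
      have hrC' : ((‖w'‖ : ℝ) : ℂ) ≠ 0 := by exact_mod_cast hwp'.ne'
      have hun : ‖((‖w‖ : ℝ) : ℂ) / w‖ = 1 := by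
        rw [norm_div, Complex.norm_real, norm_norm, div_self hwp.ne']
      have hm := eqv_map (poles 1 ∪ (ring k w h ∪ ring k w' h'))
        (iso (((‖w‖ : ℝ) : ℂ) / w) hun 1 (by norm_num))
      rw [Finset.map_union, Finset.map_union, map_poles_one, map_ring, map_ring,
        div_mul_cancel₀ _ hw, one_mul, one_mul] at hm
      have hring : ring k (((‖w‖ : ℝ) : ℂ) / w * w') h' =
          ring k (((‖w'‖ : ℝ) : ℂ) * om k) h' := by
        apply ring_congr hk0 (mul_ne_zero (div_ne_zero hrC hw) hw') (mul_ne_zero hrC' hom0)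
        rw [mul_pow, div_pow, mul_pow, om_pow hk0]
        have := pow_ne_zero k hw
        field_simp
        linear_combination g2
      rw [hring] at hm
      exact hm
  have lift : ∀ Z, Std k 1 2 Z → ∃ s : S, f s ≤ energy Z ∧ (energy Z = f s → Eqv Z (N s)) := by
    rintro Z (⟨h, -⟩ | ⟨h, -⟩ | ⟨-, w, h, w', h', hw, hw', h1, h2, hd, rfl⟩)
    · omega
    · omega
    · rcases le_total h' h with hh | hh
      · exact lift0 w w' h h' hw hw' h1 h2 hd hh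
      · have := lift0 w' w h' h hw' hw h2 h1 hd.symm hh
        rwa [Finset.union_comm (ring k w' h')] at this
  have hfE : ∀ s : S, f s = eE (ep 1) (Bk k) k (fun j => (om k * zt k ^ j).re)
      (Real.log (s.1.1 * s.1.2)) (Real.log ((s.1.1 ^ 2 + s.1.2 ^ 2) / (2 * (s.1.1 * s.1.2)))) :=
    fun s => eV_eq hk (hX0 s) s.2.1
  have he : 0 ≤ ep 1 := by
    unfold ep inter
    positivity
  have hmin : ∃ s0 : S, ∀ s : S, f s0 ≤ f s := by
    obtain ⟨z0, w0, hw0, hm⟩ := eE_min (k := k) (κ := fun j => (om k * zt k ^ j).re) he hB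
      (fun j => re_lt_one hk0 j)
    obtain ⟨X, Y, hY, hYX, e1, e2⟩ := coord_surj z0 hw0
    refine ⟨⟨(X, Y), hY, hYX⟩, fun s => ?_⟩
    rw [hfE, hfE s]
    show eE (ep 1) (Bk k) k (fun j => (om k * zt k ^ j).re)
      (Real.log (X * Y)) (Real.log ((X ^ 2 + Y ^ 2) / (2 * (X * Y)))) ≤ _
    rw [e1, e2]
    exact hm _ _ (coord_nonneg (hX0 s) s.2.1)
  refine ⟨S, N, f, ?_, ?_, lift, hmin⟩
  · intro s
    obtain ⟨c1, c2⟩ := std_two_config hk0 (show 1 ≤ 2 by norm_num) (hrx s) (hyC s) (hx1 s)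
      (hy1 s) (hdis s)
    exact ⟨c1, c2, hen s⟩
  · intro s s' hne
    have hd : Real.log (s.1.1 * s.1.2) ≠ Real.log (s'.1.1 * s'.1.2) ∨
        Real.log ((s.1.1 ^ 2 + s.1.2 ^ 2) / (2 * (s.1.1 * s.1.2))) ≠
          Real.log ((s'.1.1 ^ 2 + s'.1.2 ^ 2) / (2 * (s'.1.1 * s'.1.2))) := by
      by_contra hcon
      push Not at hcon
      have := coord_inj s.2.1 s.2.2 s'.2.1 s'.2.2 hcon.1 hcon.2
      exact hne (Subtype.ext (Prod.ext this.1 this.2))
    have hlt := eE_strict (e := ep 1) hk (half_le_Bk hk)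
      (κ := fun j => (om k * zt k ^ j).re) (fun j => re_lt_one hk0 j)
      (fun j => neg_one_le_re k j) (coord_nonneg (hX0 s) s.2.1) (coord_nonneg (hX0 s') s'.2.1) hd
    obtain ⟨X, Y, hY, hYX, e1, e2⟩ := coord_surj
      ((Real.log (s.1.1 * s.1.2) + Real.log (s'.1.1 * s'.1.2)) / 2)
      (w := (Real.log ((s.1.1 ^ 2 + s.1.2 ^ 2) / (2 * (s.1.1 * s.1.2))) +
        Real.log ((s'.1.1 ^ 2 + s'.1.2 ^ 2) / (2 * (s'.1.1 * s'.1.2)))) / 2) (by
        have h1 := coord_nonneg (hX0 s) s.2.1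
        have h2 := coord_nonneg (hX0 s') s'.2.1
        linarith)
    refine ⟨⟨(X, Y), hY, hYX⟩, ?_⟩
    rw [hfE, hfE s, hfE s']
    show eE (ep 1) (Bk k) k (fun j => (om k * zt k ^ j).re)
      (Real.log (X * Y)) (Real.log ((X ^ 2 + Y ^ 2) / (2 * (X * Y)))) < _
    rw [e1, e2]
    exact hlt

/-- all the types -/
theorem good_all' {k : ℕ} (hk : 3 ≤ k) {p m : ℕ} (hp : p ≤ 2) (hm : m ≤ 2) :
    Good (p + m * k) k p m := by
  by_cases h : p = 1 ∧ m = 2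
  · obtain ⟨rfl, rfl⟩ := h
    exact good_one_two hk
  · exact good_all (by omega) hp hm h

/-- Existence and uniqueness. -/
theorem main' {n k : ℕ} (hk : 3 ≤ k) (hn : n < 3 * k)
    (hex : ∃ X, IsConfig n X ∧ HasAxis k X) :
    ∃ X, IsMinAxis n k X ∧ ∀ Y, IsMinAxis n k Y → Eqv X Y := by
  obtain ⟨X0, hX0, hax0⟩ := hex
  obtain ⟨p, m, -, hp, hm, hnp, -, -⟩ := exists_std_of_axis hk hn hX0 hax0
  have hg : Good n k p m := by
    rw [hnp]
    exact good_all' hk hp hm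
  have hall : ∀ X, IsConfig n X → HasAxis k X → ∃ X', Eqv X X' ∧ Std k p m X' := by
    intro X hX hax
    obtain ⟨p', m', X', hp', hm', hn', h1, h2⟩ := exists_std_of_axis hk hn hX hax
    obtain ⟨rfl, rfl⟩ := type_unique hk hp hm hp' hm' (hnp ▸ hn')
    exact ⟨X', h1, h2⟩
  obtain ⟨X, hX⟩ := hg.exists hall
  refine ⟨X, hX, fun Y hY => ?_⟩
  obtain ⟨X', h1, h2⟩ := hall X hX.1 hX.2.1
  obtain ⟨Y', h3, h4⟩ := hall Y hY.1 hY.2.1
  exact (h1.trans (hg.unique (hX.of_eqv h1) (hY.of_eqv h3) h2 h4)).trans h3.symm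

end Pool.Agent.Helper15.Thomson
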