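import Mathlib

/-!
Midpoint inequalities used for the energies of configurations with two rings.
-/

namespace Pool.Agent.Helper15.Thomson

/-- `x ↦ 1/√x` is strictly midpoint convex. -/
theorem inv_sqrt_mid {a b : ℝ} (ha : 0 < a) (hb : 0 < b) :
    1 / Real.sqrt ((a + b) / 2) ≤ (1 / Real.sqrt a + 1 / Real.sqrt b) / 2 ∧
    (a ≠ b → 1 / Real.sqrt ((a + b) / 2) < (1 / Real.sqrt a + 1 / Real.sqrt b) / 2) := by
  obtain ⟨s, hs⟩ : ∃ s, s = Real.sqrt a := ⟨_, rfl⟩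
  obtain ⟨t, ht⟩ : ∃ t, t = Real.sqrt b := ⟨_, rfl⟩
  have hs0 : 0 < s := hs ▸ Real.sqrt_pos.2 ha
  have ht0 : 0 < t := ht ▸ Real.sqrt_pos.2 hb
  have hs2 : s ^ 2 = a := hs ▸ Real.sq_sqrt ha.le
  have ht2 : t ^ 2 = b := ht ▸ Real.sq_sqrt hb.le
  obtain ⟨m, hm⟩ : ∃ m, m = Real.sqrt ((a + b) / 2) := ⟨_, rfl⟩
  have hm0 : 0 < m := hm ▸ Real.sqrt_pos.2 (by positivity)
  have hm2 : m ^ 2 = (s ^ 2 + t ^ 2) / 2 := by
    rw [hm, Real.sq_sqrt (by positivity), hs2, ht2]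
  rw [← hs, ← ht, ← hm]
  have hst : 0 < s * t := mul_pos hs0 ht0
  have e : (1 / s + 1 / t) / 2 = (s + t) / (2 * (s * t)) := by
    field_simp
    ring
  rw [e]
  -- `2 s t ≤ m (s + t)`
  have h1 : 2 * (s * t) ≤ m * (s + t) := by
    apply le_of_sq_le_sq _ (by positivity)
    rw [mul_pow m, hm2]
    nlinarith [sq_nonneg (s - t), mul_pos hst hst, sq_nonneg (s + t), sq_nonneg (s ^ 2 - t ^ 2),
      mul_nonneg hst.le (sq_nonneg (s - t))]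
  constructor
  · rw [div_le_div_iff₀ hm0 (by positivity)]
    linarith
  · intro hne
    have hne' : s ≠ t := by
      rintro rfl
      exact hne (hs2.symm.trans ht2)
    have hpos : 0 < (s - t) ^ 2 := by
      have : s - t ≠ 0 := sub_ne_zero.2 hne'
      positivity
    have h2 : 2 * (s * t) < m * (s + t) := by
      apply lt_of_pow_lt_pow_left₀ 2 (by positivity)
      rw [mul_pow m, hm2]
      nlinarith [mul_pos hst hpos, mul_pos hst hst, sq_nonneg (s ^ 2 - t ^ 2)]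
    rw [div_lt_div_iff₀ hm0 (by positivity)]
    linarith

/-- Minkowski's inequality in the plane. -/
theorem mink (a b c d : ℝ) :
    Real.sqrt ((a + c) ^ 2 + (b + d) ^ 2) ≤ Real.sqrt (a ^ 2 + b ^ 2) +
      Real.sqrt (c ^ 2 + d ^ 2) := by
  have h1 : 0 ≤ Real.sqrt (a ^ 2 + b ^ 2) := Real.sqrt_nonneg _
  have h2 : 0 ≤ Real.sqrt (c ^ 2 + d ^ 2) := Real.sqrt_nonneg _
  have h3 : Real.sqrt (a ^ 2 + b ^ 2) ^ 2 = a ^ 2 + b ^ 2 := Real.sq_sqrt (by positivity)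
  have h4 : Real.sqrt (c ^ 2 + d ^ 2) ^ 2 = c ^ 2 + d ^ 2 := Real.sq_sqrt (by positivity)
  have h5 : a * c + b * d ≤ Real.sqrt (a ^ 2 + b ^ 2) * Real.sqrt (c ^ 2 + d ^ 2) := by
    rw [← Real.sqrt_mul (by positivity)]
    apply Real.le_sqrt_of_sq_le
    nlinarith [sq_nonneg (a * d - b * c)]
  apply Real.sqrt_le_iff.2
  refine ⟨by positivity, ?_⟩
  nlinarith

theorem sqrt_mono_norm {a b c d : ℝ} (ha : 0 ≤ a) (hb : 0 ≤ b) (hac : a ≤ c) (hbd : b ≤ d) :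
    Real.sqrt (a ^ 2 + b ^ 2) ≤ Real.sqrt (c ^ 2 + d ^ 2) := by
  apply Real.sqrt_le_sqrt
  have := pow_le_pow_left₀ ha hac 2
  have := pow_le_pow_left₀ hb hbd 2
  linarith

theorem inv_two {r1 r2 ρ : ℝ} (h1 : 0 < r1) (h2 : 0 < r2) (h : r1 * r2 ≤ ρ) :
    2 / Real.sqrt ρ ≤ 1 / r1 + 1 / r2 := by
  have hρ : 0 < ρ := (mul_pos h1 h2).trans_le h
  have hs : 0 < Real.sqrt ρ := Real.sqrt_pos.2 hρ
  have e : 1 / r1 + 1 / r2 = (r1 + r2) / (r1 * r2) := by field_simp; ring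
  have h12 : 0 < r1 * r2 := mul_pos h1 h2
  rw [e, div_le_div_iff₀ hs h12]
  apply le_of_sq_le_sq _ (by positivity)
  rw [mul_pow (r1 + r2), Real.sq_sqrt hρ.le]
  nlinarith [sq_nonneg (r1 - r2), mul_nonneg (sq_nonneg (r1 + r2)) (sub_nonneg.2 h),
    mul_nonneg h12.le (sq_nonneg (r1 - r2))]

theorem V_two {r1 r2 ρ : ℝ} (h1 : 0 < r1) (h2 : 0 < r2) (h : r1 * r2 ≤ ρ) :
    2 * Real.sqrt (1 / ρ + 1 / Real.sqrt ρ) ≤
      Real.sqrt (1 / r1 ^ 2 + 1 / r1) + Real.sqrt (1 / r2 ^ 2 + 1 / r2) := by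
  have hρ : 0 < ρ := (mul_pos h1 h2).trans_le h
  have hs : 0 < Real.sqrt ρ := Real.sqrt_pos.2 hρ
  have hss : 0 < Real.sqrt (Real.sqrt ρ) := Real.sqrt_pos.2 hs
  have hs1 : 0 < Real.sqrt r1 := Real.sqrt_pos.2 h1
  have hs2 : 0 < Real.sqrt r2 := Real.sqrt_pos.2 h2
  have e1 : 2 / Real.sqrt ρ ≤ 1 / r1 + 1 / r2 := inv_two h1 h2 h
  have e2 : 2 / Real.sqrt (Real.sqrt ρ) ≤ 1 / Real.sqrt r1 + 1 / Real.sqrt r2 := by
    apply inv_two hs1 hs2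
    rw [← Real.sqrt_mul h1.le]
    exact Real.sqrt_le_sqrt h
  have f1 : ∀ r : ℝ, 0 < r → 1 / r ^ 2 + 1 / r = (1 / r) ^ 2 + (1 / Real.sqrt r) ^ 2 := by
    intro r hr
    rw [div_pow, div_pow, Real.sq_sqrt hr.le]
    norm_num
  rw [f1 r1 h1, f1 r2 h2]
  refine le_trans ?_ (mink _ _ _ _)
  have f2 : 2 * Real.sqrt (1 / ρ + 1 / Real.sqrt ρ) =
      Real.sqrt ((2 / Real.sqrt ρ) ^ 2 + (2 / Real.sqrt (Real.sqrt ρ)) ^ 2) := by
    rw [div_pow, div_pow, Real.sq_sqrt hρ.le, Real.sq_sqrt hs.le]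
    rw [show (2 : ℝ) ^ 2 / ρ + 2 ^ 2 / Real.sqrt ρ = 2 ^ 2 * (1 / ρ + 1 / Real.sqrt ρ) by ring,
      Real.sqrt_mul (by positivity), Real.sqrt_sq (by norm_num)]
  rw [f2]
  exact sqrt_mono_norm (by positivity) (by positivity) e1 e2

theorem sqrt_mid {x y : ℝ} (hx : 0 ≤ x) (hy : 0 ≤ y) :
    (Real.sqrt x + Real.sqrt y) / 2 ≤ Real.sqrt ((x + y) / 2) := by
  apply Real.le_sqrt_of_sq_le
  nlinarith [Real.sq_sqrt hx, Real.sq_sqrt hy, sq_nonneg (Real.sqrt x - Real.sqrt y)]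

theorem V_mid {x y : ℝ} (hx : 0 < x) (hy : 0 < y) :
    Real.sqrt (1 / ((x + y) / 2) + 1 / Real.sqrt ((x + y) / 2)) ≤
      (Real.sqrt (1 / x + 1 / Real.sqrt x) + Real.sqrt (1 / y + 1 / Real.sqrt y)) / 2 := by
  have hsx : 0 < Real.sqrt x := Real.sqrt_pos.2 hx
  have hsy : 0 < Real.sqrt y := Real.sqrt_pos.2 hy
  have hm : 0 < (x + y) / 2 := by positivity
  have hsm : 0 < Real.sqrt ((x + y) / 2) := Real.sqrt_pos.2 hm
  have f1 : ∀ r : ℝ, 0 < r → 1 / r + 1 / Real.sqrt r =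
      (1 / Real.sqrt r) ^ 2 + (1 / Real.sqrt (Real.sqrt r)) ^ 2 := by
    intro r hr
    rw [div_pow, div_pow, Real.sq_sqrt hr.le, Real.sq_sqrt (Real.sqrt_nonneg _)]
    norm_num
  have e1 := (inv_sqrt_mid hx hy).1
  have e2 : 1 / Real.sqrt (Real.sqrt ((x + y) / 2)) ≤
      (1 / Real.sqrt (Real.sqrt x) + 1 / Real.sqrt (Real.sqrt y)) / 2 := by
    refine le_trans ?_ (inv_sqrt_mid hsx hsy).1
    apply one_div_le_one_div_of_le (Real.sqrt_pos.2 (by positivity))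
    exact Real.sqrt_le_sqrt (sqrt_mid hx.le hy.le)
  rw [f1 _ hm, f1 _ hx, f1 _ hy]
  have e3 : (Real.sqrt ((1 / Real.sqrt x) ^ 2 + (1 / Real.sqrt (Real.sqrt x)) ^ 2) +
      Real.sqrt ((1 / Real.sqrt y) ^ 2 + (1 / Real.sqrt (Real.sqrt y)) ^ 2)) / 2 =
      Real.sqrt ((1 / Real.sqrt x / 2) ^ 2 + (1 / Real.sqrt (Real.sqrt x) / 2) ^ 2) +
      Real.sqrt ((1 / Real.sqrt y / 2) ^ 2 + (1 / Real.sqrt (Real.sqrt y) / 2) ^ 2) := by
    have : ∀ p q : ℝ, Real.sqrt ((p / 2) ^ 2 + (q / 2) ^ 2) = Real.sqrt (p ^ 2 + q ^ 2) / 2 := by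
      intro p q
      rw [show (p / 2) ^ 2 + (q / 2) ^ 2 = (1 / 2) ^ 2 * (p ^ 2 + q ^ 2) by ring,
        Real.sqrt_mul (by positivity), Real.sqrt_sq (by norm_num)]
      ring
    rw [this, this]
    ring
  rw [e3]
  refine le_trans ?_ (mink _ _ _ _)
  apply sqrt_mono_norm (by positivity) (by positivity)
  · refine e1.trans (le_of_eq ?_)
    ring
  · refine e2.trans (le_of_eq ?_)
    ring

/-- the energy function of two twisted rings (and two poles) -/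
noncomputable def eF (B κ μ : ℝ) (k : ℕ) (C : ℕ → ℝ) (ρ : ℝ) : ℝ :=
  B / Real.sqrt ρ + κ * ∑ j ∈ Finset.range k, 1 / Real.sqrt (1 - C j * ρ) +
    μ * Real.sqrt (1 / ρ + 1 / Real.sqrt ρ)

theorem one_sub_pos {c x : ℝ} (hc : c < 1) (hx : 0 < x) (hx1 : x ≤ 1) : 0 < 1 - c * x := by
  have : 0 < (1 - c) * x := mul_pos (by linarith) hx
  nlinarith

theorem eF_mid {B κ μ : ℝ} {k : ℕ} {C : ℕ → ℝ} (hB : 0 < B) (hκ : 0 ≤ κ) (hμ : 0 ≤ μ)
    (hC : ∀ j, C j < 1) {x y : ℝ} (hx : 0 < x) (hx1 : x ≤ 1) (hy : 0 < y) (hy1 : y ≤ 1)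
    (hxy : x ≠ y) : eF B κ μ k C ((x + y) / 2) < (eF B κ μ k C x + eF B κ μ k C y) / 2 := by
  have e1 := (inv_sqrt_mid hx hy).2 hxy
  have e2 : ∑ j ∈ Finset.range k, 1 / Real.sqrt (1 - C j * ((x + y) / 2)) ≤
      (∑ j ∈ Finset.range k, 1 / Real.sqrt (1 - C j * x) +
        ∑ j ∈ Finset.range k, 1 / Real.sqrt (1 - C j * y)) / 2 := by
    rw [← Finset.sum_add_distrib, Finset.sum_div]
    refine Finset.sum_le_sum fun j _ => ?_
    have h := (inv_sqrt_mid (one_sub_pos (hC j) hx hx1) (one_sub_pos (hC j) hy hy1)).1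
    rw [show 1 - C j * ((x + y) / 2) = ((1 - C j * x) + (1 - C j * y)) / 2 by ring]
    exact h
  have e3 := V_mid hx hy
  unfold eF
  have h1 : B / Real.sqrt ((x + y) / 2) < (B / Real.sqrt x + B / Real.sqrt y) / 2 := by
    have := mul_lt_mul_of_pos_left e1 hB
    calc B / Real.sqrt ((x + y) / 2) = B * (1 / Real.sqrt ((x + y) / 2)) := by ring
      _ < B * ((1 / Real.sqrt x + 1 / Real.sqrt y) / 2) := this
      _ = _ := by ring
  have h2 := mul_le_mul_of_nonneg_left e2 hκ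
  have h3 := mul_le_mul_of_nonneg_left e3 hμ
  linarith

end Pool.Agent.Helper15.Thomson
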