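import Mathlib

set_option autoImplicit false

/-! # Two staggered regular polygons on parallel circles: the optimal twist -/

namespace Pool.Agent.Helper15.Thomson

open MeasureTheory

/-- Sum of `1 / (1 - w ζ^j)` over the `k`-th roots of unity. -/
theorem sum_root {k : ℕ} (hk : 0 < k) {ζ : ℂ} (hζ : IsPrimitiveRoot ζ k) {w : ℂ}
    (hw : w ^ k ≠ 1) :
    ∑ j ∈ Finset.range k, 1 / (1 - w * ζ ^ j) = k / (1 - w ^ k) := by
  have h1 : (1 : ℂ) - w ^ k ≠ 0 := sub_ne_zero.2 (Ne.symm hw)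
  have hz : ∀ j : ℕ, (w * ζ ^ j) ^ k = w ^ k := by
    intro j
    rw [mul_pow, ← pow_mul, mul_comm j k, pow_mul, hζ.pow_eq_one, one_pow, mul_one]
  have hterm : ∀ j ∈ Finset.range k, 1 / (1 - w * ζ ^ j) =
      (∑ n ∈ Finset.range k, w ^ n * (ζ ^ n) ^ j) / (1 - w ^ k) := by
    intro j _
    have h2 : (1 - w * ζ ^ j) * ∑ n ∈ Finset.range k, (w * ζ ^ j) ^ n = 1 - w ^ k := by
      rw [mul_neg_geom_sum, hz]
    have h3 : 1 - w * ζ ^ j ≠ 0 := by
      intro h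
      rw [h, zero_mul] at h2
      exact h1 h2.symm
    rw [div_eq_div_iff h3 h1, one_mul, ← h2, mul_comm]
    congr 1
    refine Finset.sum_congr rfl fun n _ => ?_
    rw [mul_pow, ← pow_mul, ← pow_mul, mul_comm j n]
  rw [Finset.sum_congr rfl hterm, ← Finset.sum_div, Finset.sum_comm]
  congr 1
  have hn : ∀ n ∈ Finset.range k, n ≠ 0 →
      ∑ j ∈ Finset.range k, w ^ n * (ζ ^ n) ^ j = 0 := by
    intro n hn hn0
    rw [← Finset.mul_sum]
    have hne : ζ ^ n ≠ 1 := hζ.pow_ne_one_of_pos_of_lt hn0 (Finset.mem_range.1 hn)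
    rw [geom_sum_eq hne, ← pow_mul, mul_comm n k, pow_mul, hζ.pow_eq_one, one_pow, sub_self,
      zero_div, mul_zero]
  rw [Finset.sum_eq_single 0 hn (fun h => absurd (Finset.mem_range.2 hk) h)]
  simp

theorem inv_normSq_eq (x : ℂ) (hx : 1 - x ≠ 0) :
    (1 - Complex.normSq x) / Complex.normSq (1 - x) = 2 * (1 / (1 - x)).re - 1 := by
  have h : Complex.normSq (1 - x) ≠ 0 := by
    rwa [Ne, Complex.normSq_eq_zero]
  rw [one_div, Complex.inv_re, eq_sub_iff_add_eq, div_add_one h, mul_div_assoc',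
    div_left_inj' h]
  rw [Complex.normSq_apply, Complex.normSq_apply]
  simp only [Complex.sub_re, Complex.one_re, Complex.sub_im, Complex.one_im]
  ring

/-- The Poisson kernel summed over the roots of unity. -/
theorem sum_poisson {k : ℕ} (hk : 0 < k) {ζ : ℂ} (hζ : IsPrimitiveRoot ζ k) {x : ℂ}
    (hx : ‖x‖ < 1) :
    ∑ j ∈ Finset.range k, (1 - ‖x‖ ^ 2) / Complex.normSq (1 - x * ζ ^ j) =
      k * (1 - ‖x‖ ^ (2 * k)) / Complex.normSq (1 - x ^ k) := by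
  have hζ1 : ‖ζ‖ = 1 := hζ.norm'_eq_one hk.ne'
  have hxj : ∀ j : ℕ, ‖x * ζ ^ j‖ = ‖x‖ := by
    intro j
    rw [norm_mul, norm_pow, hζ1, one_pow, mul_one]
  have hne : ∀ y : ℂ, ‖y‖ < 1 → 1 - y ≠ 0 := by
    intro y hy h
    rw [sub_eq_zero] at h
    rw [← h] at hy
    simp at hy
  have hxk : ‖x ^ k‖ < 1 := by
    rw [norm_pow]
    exact pow_lt_one₀ (norm_nonneg _) hx hk.ne'
  have h1 : ∀ j ∈ Finset.range k, (1 - ‖x‖ ^ 2) / Complex.normSq (1 - x * ζ ^ j) =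
      2 * (1 / (1 - x * ζ ^ j)).re - 1 := by
    intro j _
    rw [← inv_normSq_eq _ (hne _ (by rw [hxj]; exact hx)), Complex.normSq_eq_norm_sq (x * ζ ^ j),
      hxj]
  rw [Finset.sum_congr rfl h1, Finset.sum_sub_distrib, ← Finset.mul_sum, ← Complex.re_sum,
    sum_root hk hζ (fun h => by rw [h] at hxk; simp at hxk)]
  have h2 := inv_normSq_eq (x ^ k) (hne _ hxk)
  rw [Complex.normSq_eq_norm_sq (x ^ k), norm_pow, ← pow_mul, mul_comm k 2] at h2
  have h3 : ((k : ℂ) / (1 - x ^ k)).re = k * (1 / (1 - x ^ k)).re := by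
    rw [div_eq_mul_one_div, Complex.mul_re]
    simp
  rw [h3, mul_div_assoc, h2]
  simp
  ring

/-- The rational twist inequality. -/
theorem twist_rat {k : ℕ} (hk : 0 < k) {ζ : ℂ} (hζ : IsPrimitiveRoot ζ k) {A b : ℝ} (hb : 0 < b)
    (hA : b < A) {u ω : ℂ} (hu : ‖u‖ = 1) (hω1 : ‖ω‖ = 1) (hω : ω ^ k = -1) :
    (∑ j ∈ Finset.range k, 1 / (A - b * (ω * ζ ^ j).re) ≤
      ∑ j ∈ Finset.range k, 1 / (A - b * (u * ζ ^ j).re)) ∧
    (u ^ k ≠ -1 → ∑ j ∈ Finset.range k, 1 / (A - b * (ω * ζ ^ j).re) <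
      ∑ j ∈ Finset.range k, 1 / (A - b * (u * ζ ^ j).re)) := by
  have hA0 : 0 < A := hb.trans hA
  have hd : 0 < A ^ 2 - b ^ 2 := by nlinarith
  set s := Real.sqrt (A ^ 2 - b ^ 2) with hs
  have hs0 : 0 < s := Real.sqrt_pos.2 hd
  have hs2 : s ^ 2 = A ^ 2 - b ^ 2 := Real.sq_sqrt hd.le
  have hsA : s < A := by
    nlinarith [sq_nonneg (s - A)]
  set ρ := (A - s) / b with hρ
  have hρ0 : 0 < ρ := div_pos (by linarith) hb
  have hρ1 : ρ < 1 := by
    rw [hρ, div_lt_one hb]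
    nlinarith
  have hρb : b * (1 + ρ ^ 2) = 2 * A * ρ := by
    rw [hρ]
    field_simp
    nlinarith
  have hζ1 : ‖ζ‖ = 1 := hζ.norm'_eq_one hk.ne'
  have key : ∀ v : ℂ, ‖v‖ = 1 → ∑ j ∈ Finset.range k, 1 / (A - b * (v * ζ ^ j).re) =
      2 * ρ / (b * (1 - ρ ^ 2)) * (k * (1 - ρ ^ (2 * k)) / Complex.normSq (1 - (ρ * v) ^ k)) := by
    intro v hv
    have hn : ‖(ρ : ℂ) * v‖ = ρ := by
      rw [norm_mul, hv, mul_one, Complex.norm_real, Real.norm_of_nonneg hρ0.le]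
    have h := sum_poisson hk hζ (x := (ρ : ℂ) * v) (by rw [hn]; exact hρ1)
    rw [hn] at h
    rw [← h, Finset.mul_sum]
    refine Finset.sum_congr rfl fun j _ => ?_
    have hvj : ‖v * ζ ^ j‖ = 1 := by rw [norm_mul, norm_pow, hζ1, one_pow, hv, mul_one]
    have hsq : (v * ζ ^ j).re ^ 2 + (v * ζ ^ j).im ^ 2 = 1 := by
      have := Complex.sq_norm (v * ζ ^ j)
      rw [hvj, Complex.normSq_apply] at this
      linarith
    have h1 : Complex.normSq (1 - ρ * v * ζ ^ j) = 1 + ρ ^ 2 - 2 * ρ * (v * ζ ^ j).re := by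
      rw [mul_assoc, Complex.normSq_apply]
      simp only [Complex.sub_re, Complex.one_re, Complex.sub_im, Complex.one_im, Complex.mul_re,
        Complex.ofReal_re, Complex.ofReal_im, Complex.mul_im] at hsq ⊢
      nlinarith
    have hre : (v * ζ ^ j).re ≤ 1 := by
      rw [← hvj]
      exact Complex.re_le_norm _
    have h2 : 0 < 1 + ρ ^ 2 - 2 * ρ * (v * ζ ^ j).re := by
      nlinarith [sq_nonneg (1 - ρ), sq_pos_of_pos (by linarith : 0 < 1 - ρ)]
    have h3 : 0 < A - b * (v * ζ ^ j).re := by nlinarith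
    have h4 : (1 - ρ ^ 2) ≠ 0 := by nlinarith
    rw [h1, div_mul_div_comm, div_eq_div_iff h3.ne' (by positivity)]
    have : b * (1 + ρ ^ 2 - 2 * ρ * (v * ζ ^ j).re) = 2 * ρ * (A - b * (v * ζ ^ j).re) := by
      linear_combination hρb
    calc 1 * (b * (1 - ρ ^ 2) * (1 + ρ ^ 2 - 2 * ρ * (v * ζ ^ j).re))
        = (1 - ρ ^ 2) * (b * (1 + ρ ^ 2 - 2 * ρ * (v * ζ ^ j).re)) := by ring
      _ = _ := by rw [this]; ring
  have hρk : ρ ^ k < 1 := pow_lt_one₀ hρ0.le hρ1 hk.ne'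
  have hρk0 : 0 < ρ ^ k := pow_pos hρ0 k
  have hρ2k : ρ ^ (2 * k) < 1 := pow_lt_one₀ hρ0.le hρ1 (by omega)
  have hko : (0 : ℝ) < k := by exact_mod_cast hk
  have hc1 : 0 < 2 * ρ / (b * (1 - ρ ^ 2)) := by
    apply div_pos (by linarith)
    exact mul_pos hb (by nlinarith)
  have hc2 : 0 < k * (1 - ρ ^ (2 * k)) := mul_pos hko (by linarith)
  have hnω : Complex.normSq (1 - (ρ * ω) ^ k) = (1 + ρ ^ k) ^ 2 := by
    rw [mul_pow, hω, Complex.normSq_apply]
    have : (1 : ℂ) - (ρ : ℂ) ^ k * -1 = ((1 + ρ ^ k : ℝ) : ℂ) := by push_cast; ring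
    rw [this, Complex.ofReal_re, Complex.ofReal_im]
    ring
  have huk : ‖u ^ k‖ = 1 := by rw [norm_pow, hu, one_pow]
  have hsqk : (u ^ k).re ^ 2 + (u ^ k).im ^ 2 = 1 := by
    have := Complex.sq_norm (u ^ k)
    rw [huk, Complex.normSq_apply] at this
    linarith
  have hnu : Complex.normSq (1 - (ρ * u) ^ k) = 1 + (ρ ^ k) ^ 2 - 2 * ρ ^ k * (u ^ k).re := by
    rw [mul_pow, Complex.normSq_apply]
    have h5 : ((ρ : ℂ) ^ k * u ^ k).re = ρ ^ k * (u ^ k).re := by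
      rw [← Complex.ofReal_pow, Complex.re_ofReal_mul]
    have h6 : ((ρ : ℂ) ^ k * u ^ k).im = ρ ^ k * (u ^ k).im := by
      rw [← Complex.ofReal_pow, Complex.im_ofReal_mul]
    rw [Complex.sub_re, Complex.sub_im, h5, h6, Complex.one_re, Complex.one_im]
    linear_combination (ρ ^ k) ^ 2 * hsqk
  have hre : -1 ≤ (u ^ k).re := by
    have := Complex.abs_re_le_norm (u ^ k)
    rw [huk] at this
    exact (abs_le.1 this).1
  have hnu0 : 0 < 1 + (ρ ^ k) ^ 2 - 2 * ρ ^ k * (u ^ k).re := by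
    have hle : (u ^ k).re ≤ 1 := by rw [← huk]; exact Complex.re_le_norm _
    nlinarith [sq_pos_of_pos (by linarith : 0 < 1 - ρ ^ k)]
  rw [key u hu, key ω hω1, hnω, hnu]
  constructor
  · apply mul_le_mul_of_nonneg_left _ hc1.le
    apply div_le_div_of_nonneg_left hc2.le hnu0
    nlinarith
  · intro hne
    apply mul_lt_mul_of_pos_left _ hc1
    apply div_lt_div_of_pos_left hc2 hnu0
    have hlt : -1 < (u ^ k).re := by
      rcases hre.lt_or_eq with h | h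
      · exact h
      · exfalso
        apply hne
        have him : (u ^ k).im = 0 := by
          rw [← h] at hsqk
          nlinarith
        apply Complex.ext
        · rw [← h]; simp
        · rw [him]; simp
    nlinarith

theorem integral_inv {x : ℝ} (hx : 0 < x) :
    Integrable (fun s : ℝ => 1 / (x + s ^ 2)) ∧ ∫ s : ℝ, 1 / (x + s ^ 2) = Real.pi / Real.sqrt x := by
  have hsx : 0 < Real.sqrt x := Real.sqrt_pos.2 hx
  have heq : (fun s : ℝ => 1 / (x + s ^ 2)) =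
      fun s : ℝ => x⁻¹ * (1 + ((Real.sqrt x)⁻¹ * s) ^ 2)⁻¹ := by
    funext s
    have : x + s ^ 2 = x * (1 + ((Real.sqrt x)⁻¹ * s) ^ 2) := by
      rw [mul_pow, inv_pow, Real.sq_sqrt hx.le]
      field_simp
    rw [this, one_div, mul_inv]
  have hi := integrable_inv_one_add_sq
  constructor
  · rw [heq]
    exact (hi.comp_mul_left' (inv_ne_zero hsx.ne')).const_mul _
  · rw [heq, integral_const_mul,
      MeasureTheory.Measure.integral_comp_mul_left (fun s : ℝ => (1 + s ^ 2)⁻¹) (Real.sqrt x)⁻¹,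
      integral_univ_inv_one_add_sq, inv_inv, abs_of_pos hsx, smul_eq_mul]
    have : x = Real.sqrt x * Real.sqrt x := (Real.mul_self_sqrt hx.le).symm
    field_simp
    rw [Real.sq_sqrt hx.le]

/-- The twist inequality for the inverse square root. -/
theorem twist {k : ℕ} (hk : 0 < k) {ζ : ℂ} (hζ : IsPrimitiveRoot ζ k) {a b : ℝ} (hb : 0 < b)
    (hab : b ≤ a) {u ω : ℂ} (hu : ‖u‖ = 1) (hω1 : ‖ω‖ = 1) (hω : ω ^ k = -1)
    (hpos : ∀ j ∈ Finset.range k, 0 < a - b * (u * ζ ^ j).re)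
    (hposω : ∀ j ∈ Finset.range k, 0 < a - b * (ω * ζ ^ j).re) :
    (∑ j ∈ Finset.range k, 1 / Real.sqrt (a - b * (ω * ζ ^ j).re) ≤
      ∑ j ∈ Finset.range k, 1 / Real.sqrt (a - b * (u * ζ ^ j).re)) ∧
    (u ^ k ≠ -1 → ∑ j ∈ Finset.range k, 1 / Real.sqrt (a - b * (ω * ζ ^ j).re) <
      ∑ j ∈ Finset.range k, 1 / Real.sqrt (a - b * (u * ζ ^ j).re)) := by
  have hform : ∀ v : ℂ, (∀ j ∈ Finset.range k, 0 < a - b * (v * ζ ^ j).re) →
      Integrable (fun s : ℝ => ∑ j ∈ Finset.range k, 1 / (a + s ^ 2 - b * (v * ζ ^ j).re)) ∧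
      ∑ j ∈ Finset.range k, 1 / Real.sqrt (a - b * (v * ζ ^ j).re) = Real.pi⁻¹ *
        ∫ s : ℝ, ∑ j ∈ Finset.range k, 1 / (a + s ^ 2 - b * (v * ζ ^ j).re) := by
    intro v hv
    have hr : ∀ j (s : ℝ), 1 / (a + s ^ 2 - b * (v * ζ ^ j).re) =
        1 / (a - b * (v * ζ ^ j).re + s ^ 2) := fun j s => by ring_nf
    have hi : ∀ j ∈ Finset.range k,
        Integrable (fun s : ℝ => 1 / (a + s ^ 2 - b * (v * ζ ^ j).re)) := by
      intro j hj
      simp only [hr]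
      exact (integral_inv (hv j hj)).1
    refine ⟨integrable_finset_sum _ hi, ?_⟩
    rw [integral_finset_sum _ hi, Finset.mul_sum]
    refine Finset.sum_congr rfl fun j hj => ?_
    simp only [hr]
    rw [(integral_inv (hv j hj)).2]
    have := Real.pi_pos.ne'
    field_simp
  obtain ⟨hiu, hsu⟩ := hform u hpos
  obtain ⟨hiω, hsω⟩ := hform ω hposω
  have hle : ∀ s : ℝ, s ≠ 0 → (∑ j ∈ Finset.range k, 1 / (a + s ^ 2 - b * (ω * ζ ^ j).re) ≤
      ∑ j ∈ Finset.range k, 1 / (a + s ^ 2 - b * (u * ζ ^ j).re)) ∧ (u ^ k ≠ -1 →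
      ∑ j ∈ Finset.range k, 1 / (a + s ^ 2 - b * (ω * ζ ^ j).re) <
      ∑ j ∈ Finset.range k, 1 / (a + s ^ 2 - b * (u * ζ ^ j).re)) := by
    intro s hs
    have : 0 < s ^ 2 := by positivity
    exact twist_rat hk hζ hb (by linarith) hu hω1 hω
  have hae : ∀ᵐ s : ℝ, s ≠ 0 := by
    have : (volume : Measure ℝ) {0} = 0 := Real.volume_singleton
    exact (measure_eq_zero_iff_ae_notMem.1 this).mono fun s hs h => hs (by simpa using h)
  rw [hsu, hsω]
  have hpi : 0 < Real.pi⁻¹ := inv_pos.2 Real.pi_pos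
  constructor
  · apply mul_le_mul_of_nonneg_left _ hpi.le
    exact integral_mono_ae hiω hiu (hae.mono fun s hs => (hle s hs).1)
  · intro hne
    apply mul_lt_mul_of_pos_left _ hpi
    rw [← sub_pos, ← integral_sub hiu hiω]
    have hnn : 0 ≤ᵐ[volume] fun s : ℝ =>
        (∑ j ∈ Finset.range k, 1 / (a + s ^ 2 - b * (u * ζ ^ j).re)) -
        ∑ j ∈ Finset.range k, 1 / (a + s ^ 2 - b * (ω * ζ ^ j).re) :=
      hae.mono fun s hs => sub_nonneg.2 (hle s hs).1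
    rw [integral_pos_iff_support_of_nonneg_ae hnn (hiu.sub hiω)]
    have hsub : Set.Ioo (0 : ℝ) 1 ⊆ Function.support fun s : ℝ =>
        (∑ j ∈ Finset.range k, 1 / (a + s ^ 2 - b * (u * ζ ^ j).re)) -
        ∑ j ∈ Finset.range k, 1 / (a + s ^ 2 - b * (ω * ζ ^ j).re) := by
      intro s hs
      rw [Function.mem_support]
      exact (sub_pos.2 ((hle s hs.1.ne').2 hne)).ne'
    refine lt_of_lt_of_le ?_ (measure_mono hsub)
    rw [Real.volume_Ioo]
    simp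

end Pool.Agent.Helper15.Thomson
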