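import Pool.Agent.Helper15.Thomson.Struct
import Pool.Agent.Helper15.Thomson.Conv
import Pool.Agent.Helper15.Thomson.Twist

/-!
The energies of the standard configurations.
-/

namespace Pool.Agent.Helper15.Thomson

open Finset

/-- The energy of the poles. -/
noncomputable def ep (p : ℕ) : ℝ := inter (poles p) (poles p) / 2

open Classical in
theorem energy_one {k : ℕ} (hk : k ≠ 0) (p : ℕ) {w : ℂ} (hw : w ≠ 0) (h : ℝ) :
    energy (poles p ∪ ring k w h) =
      ep p + inter (poles p) (ring k w h) + Bk k / ‖w‖ / 2 := by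
  have hd := disjoint_poles_ring hk p hw h
  rw [energy_eq, inter_union_left _ hd, inter_union_right _ hd, inter_union_right _ hd,
    inter_ring_self hk hw, inter_comm (ring k w h) (poles p), ep]
  ring

open Classical in
theorem energy_two {k : ℕ} (hk : k ≠ 0) (p : ℕ) {w w' : ℂ} (hw : w ≠ 0) (hw' : w' ≠ 0) {h h' : ℝ}
    (hd : Disjoint (ring k w h) (ring k w' h')) :
    energy (poles p ∪ (ring k w h ∪ ring k w' h')) =
      ep p + inter (poles p) (ring k w h) + inter (poles p) (ring k w' h') +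
        Bk k / ‖w‖ / 2 + Bk k / ‖w'‖ / 2 +
        k * ∑ j ∈ range k, 1 / dist (pt w h) (pt (zt k ^ j * w') h') := by
  have hd1 := disjoint_poles_ring hk p hw h
  have hd2 := disjoint_poles_ring hk p hw' h'
  have hd3 : Disjoint (poles p) (ring k w h ∪ ring k w' h') := by
    rw [Finset.disjoint_union_right]
    exact ⟨hd1, hd2⟩
  rw [energy_eq, inter_union_left _ hd3, inter_union_right _ hd3, inter_union_right _ hd3,
    inter_union_left _ hd, inter_union_left _ hd, inter_union_right _ hd, inter_union_right _ hd,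
    inter_union_right _ hd, inter_comm (ring k w h) (poles p), inter_comm (ring k w' h') (poles p),
    inter_comm (ring k w' h') (ring k w h), inter_ring_self hk hw, inter_ring_self hk hw',
    inter_ring_ring hk hw hw', ep]
  ring

theorem inter_poles_zero (Y : Finset E3) : inter (poles 0) Y = 0 := by
  rw [poles_zero]
  simp [inter]

theorem inter_poles_one {k : ℕ} (hk : k ≠ 0) {w : ℂ} (hw : w ≠ 0) {h : ℝ}
    (h1 : ‖w‖ ^ 2 + h ^ 2 = 1) :
    inter (poles 1) (ring k w h) = k / Real.sqrt (2 - 2 * h) := by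
  rw [poles_one, inter_pole_ring hk hw h1 (by norm_num)]
  norm_num

theorem two_poles_aux {r h : ℝ} (hr : 0 < r) (h1 : r ^ 2 + h ^ 2 = 1) :
    1 / Real.sqrt (2 - 2 * h) + 1 / Real.sqrt (2 + 2 * h) = Real.sqrt (1 / r ^ 2 + 1 / r) := by
  have hr2 : 0 < r ^ 2 := by positivity
  have hh : h ^ 2 < 1 := by linarith
  have hlt := abs_lt.1 ((sq_lt_one_iff_abs_lt_one h).1 hh)
  have ha : 0 < 2 - 2 * h := by linarith [hlt.2]
  have hb : 0 < 2 + 2 * h := by linarith [hlt.1]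
  obtain ⟨a, ha'⟩ : ∃ a, a = Real.sqrt (2 - 2 * h) := ⟨_, rfl⟩
  obtain ⟨b, hb'⟩ : ∃ b, b = Real.sqrt (2 + 2 * h) := ⟨_, rfl⟩
  have ha0 : 0 < a := ha' ▸ Real.sqrt_pos.2 ha
  have hb0 : 0 < b := hb' ▸ Real.sqrt_pos.2 hb
  have ha2 : a ^ 2 = 2 - 2 * h := ha' ▸ Real.sq_sqrt ha.le
  have hb2 : b ^ 2 = 2 + 2 * h := hb' ▸ Real.sq_sqrt hb.le
  have hab : a * b = 2 * r := by
    have : (a * b) ^ 2 = (2 * r) ^ 2 := by
      rw [mul_pow, ha2, hb2]
      linear_combination -4 * h1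
    exact (pow_left_inj₀ (by positivity) (by positivity) two_ne_zero).1 this
  rw [← ha', ← hb']
  symm
  rw [Real.sqrt_eq_iff_mul_self_eq (by positivity) (by positivity)]
  have e : 1 / a + 1 / b = (a + b) / (2 * r) := by
    rw [← hab]
    field_simp
    ring
  rw [e]
  have e2 : (a + b) ^ 2 = 4 + 4 * r := by
    linear_combination ha2 + hb2 + 2 * hab
  field_simp
  linear_combination -e2

open Classical in
theorem inter_poles_two {k : ℕ} (hk : k ≠ 0) {w : ℂ} (hw : w ≠ 0) {h : ℝ}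
    (h1 : ‖w‖ ^ 2 + h ^ 2 = 1) :
    inter (poles 2) (ring k w h) = k * Real.sqrt (1 / ‖w‖ ^ 2 + 1 / ‖w‖) := by
  have hd : Disjoint ({pt 0 1} : Finset E3) {pt 0 (-1)} := by
    rw [Finset.disjoint_singleton]
    exact pole_ne
  have e : poles 2 = {pt 0 1} ∪ {pt 0 (-1)} := by
    rw [poles_two]
    ext x
    simp
  rw [e, inter_union_left _ hd, inter_pole_ring hk hw h1 (by norm_num),
    inter_pole_ring hk hw h1 (by norm_num), ← two_poles_aux (norm_pos_iff.2 hw) h1]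
  have e1 : 2 - 2 * 1 * h = 2 - 2 * h := by ring
  have e2 : 2 - 2 * (-1) * h = 2 + 2 * h := by ring
  rw [e1, e2]
  ring

/-! ### The twist -/

/-- The rotation by half a step. -/
noncomputable def om (k : ℕ) : ℂ := Complex.exp ((Real.pi / k : ℝ) * Complex.I)

theorem norm_om (k : ℕ) : ‖om k‖ = 1 := Complex.norm_exp_ofReal_mul_I _

theorem om_pow {k : ℕ} (hk : k ≠ 0) : om k ^ k = -1 := by
  have hk' : (k : ℂ) ≠ 0 := by exact_mod_cast hk
  unfold om
  rw [← Complex.exp_nat_mul]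
  have : (k : ℂ) * ((Real.pi / k : ℝ) * Complex.I) = Real.pi * Complex.I := by
    push_cast
    field_simp
  rw [this, Complex.exp_pi_mul_I]

/-- The constants of the twisted pair of rings. -/
noncomputable def Cj (k : ℕ) (j : ℕ) : ℝ := (1 + (om k * zt k ^ j).re) / 2

theorem re_lt_one {k : ℕ} (hk : k ≠ 0) (j : ℕ) : (om k * zt k ^ j).re < 1 := by
  have hn : ‖om k * zt k ^ j‖ = 1 := by
    rw [norm_mul, norm_pow, norm_om, norm_zt, one_pow, one_mul]
  have hle := Complex.re_le_norm (om k * zt k ^ j)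
  rw [hn] at hle
  refine lt_of_le_of_ne hle fun h => ?_
  have him : (om k * zt k ^ j).im = 0 := by
    have h2 := Complex.sq_norm (om k * zt k ^ j)
    rw [hn, Complex.normSq_apply, h] at h2
    nlinarith
  have h1 : om k * zt k ^ j = 1 := Complex.ext h him
  have h2 : (om k * zt k ^ j) ^ k = 1 := by rw [h1, one_pow]
  rw [mul_pow, om_pow hk, ← pow_mul, mul_comm j k, pow_mul, (zt_prim hk).pow_eq_one, one_pow,
    mul_one] at h2
  norm_num at h2

theorem Cj_lt {k : ℕ} (hk : k ≠ 0) (j : ℕ) : Cj k j < 1 := by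
  unfold Cj
  linarith [re_lt_one hk j]

/-- The lower bound for the mutual energy of two rings. -/
theorem cross_le {k : ℕ} (hk : k ≠ 0) {w w' : ℂ} (hw : w ≠ 0) (hw' : w' ≠ 0) {h h' : ℝ}
    (h1 : ‖w‖ ^ 2 + h ^ 2 = 1) (h2 : ‖w'‖ ^ 2 + h' ^ 2 = 1)
    (hd : Disjoint (ring k w h) (ring k w' h')) {ρ : ℝ} (hρ : ρ = (1 + h * h' + ‖w‖ * ‖w'‖) / 2) :
    ‖w‖ * ‖w'‖ ≤ ρ ∧ 0 < ρ ∧ ρ ≤ 1 ∧
    (1 / 2) * ∑ j ∈ range k, 1 / Real.sqrt (1 - Cj k j * ρ) ≤
      ∑ j ∈ range k, 1 / dist (pt w h) (pt (zt k ^ j * w') h') ∧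
    (¬ (1 + h * h' = ‖w‖ * ‖w'‖ ∧ w' ^ k * ‖w‖ ^ k = - w ^ k * ‖w'‖ ^ k) →
      (1 / 2) * ∑ j ∈ range k, 1 / Real.sqrt (1 - Cj k j * ρ) <
      ∑ j ∈ range k, 1 / dist (pt w h) (pt (zt k ^ j * w') h')) := by
  obtain ⟨r, hr⟩ : ∃ r, r = ‖w‖ := ⟨_, rfl⟩
  obtain ⟨r', hr'⟩ : ∃ r', r' = ‖w'‖ := ⟨_, rfl⟩
  have hr0 : 0 < r := hr ▸ norm_pos_iff.2 hw
  have hr0' : 0 < r' := hr' ▸ norm_pos_iff.2 hw'
  rw [← hr] at h1 hρ ⊢
  rw [← hr'] at h2 hρ ⊢
  -- inequalities for the parameters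
  have k1 : r * r' ≤ 1 + h * h' := by nlinarith [sq_nonneg (r - r'), sq_nonneg (h + h')]
  have k2 : h * h' + r * r' ≤ 1 := by nlinarith [sq_nonneg (r - r'), sq_nonneg (h - h')]
  have hrr : 0 < r * r' := mul_pos hr0 hr0'
  have hρ1 : r * r' ≤ ρ := by rw [hρ]; linarith
  have hρ0 : 0 < ρ := hrr.trans_le hρ1
  have hρ2 : ρ ≤ 1 := by rw [hρ]; linarith
  refine ⟨hρ1, hρ0, hρ2, ?_⟩
  -- the distances
  obtain ⟨u, hu⟩ : ∃ u : ℂ, u = (w' * (starRingEnd ℂ) w) / (r * r' : ℝ) := ⟨_, rfl⟩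
  have hrrC : ((r * r' : ℝ) : ℂ) ≠ 0 := by exact_mod_cast hrr.ne'
  have hun : ‖u‖ = 1 := by
    rw [hu, norm_div, norm_mul, Complex.norm_conj, ← hr, ← hr', Complex.norm_real,
      Real.norm_eq_abs, abs_of_pos hrr, mul_comm r' r, div_self hrr.ne']
  have hw'z : ∀ j : ℕ, ‖zt k ^ j * w'‖ = r' := by
    intro j
    rw [norm_mul, norm_pow, norm_zt, one_pow, one_mul, hr']
  have hdist : ∀ j : ℕ, dist (pt w h) (pt (zt k ^ j * w') h') =
      Real.sqrt ((2 - 2 * h * h') - (2 * (r * r')) * (u * zt k ^ j).re) := by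
    intro j
    rw [dist_sphere (by rw [← hr]; exact h1) (by rw [hw'z]; exact h2)]
    congr 1
    have e1 : zt k ^ j * w' * (starRingEnd ℂ) w = ((r * r' : ℝ) : ℂ) * (u * zt k ^ j) := by
      rw [hu]
      field_simp
    rw [e1, Complex.re_ofReal_mul]
    ring
  have hpos : ∀ j ∈ range k, 0 < (2 - 2 * h * h') - (2 * (r * r')) * (u * zt k ^ j).re := by
    intro j hj
    have hne : pt w h ≠ pt (zt k ^ j * w') h' := by
      intro he
      rw [Finset.disjoint_left] at hd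
      refine hd (a := pt w h) ?_ ?_
      · rw [mem_ring hk hw, hz_pt, pt_two]
        exact ⟨rfl, rfl⟩
      · rw [he, mem_ring hk hw', hz_pt, pt_two, mul_pow, ← pow_mul, mul_comm j k, pow_mul,
          (zt_prim hk).pow_eq_one, one_pow, one_mul]
        exact ⟨rfl, rfl⟩
    have := dist_pos.2 hne
    rw [hdist j] at this
    exact Real.sqrt_pos.1 this
  have hposω : ∀ j ∈ range k, 0 < (2 - 2 * h * h') - (2 * (r * r')) * (om k * zt k ^ j).re := by
    intro j _
    have h3 := mul_pos (show 0 < 2 * (r * r') by positivity)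
      (show 0 < 1 - (om k * zt k ^ j).re by linarith [re_lt_one hk j])
    linarith
  have htw := twist (Nat.pos_of_ne_zero hk) (zt_prim hk) (a := 2 - 2 * h * h') (b := 2 * (r * r'))
    (by positivity) (by linarith) hun (norm_om k) (om_pow hk) hpos hposω
  have hsum : ∑ j ∈ range k, 1 / dist (pt w h) (pt (zt k ^ j * w') h') =
      ∑ j ∈ range k, 1 / Real.sqrt ((2 - 2 * h * h') - (2 * (r * r')) * (u * zt k ^ j).re) :=
    Finset.sum_congr rfl fun j _ => by rw [hdist j]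
  rw [hsum]
  -- comparison of the terms
  have hterm : ∀ j, (2 - 2 * h * h') - (2 * (r * r')) * (om k * zt k ^ j).re =
      4 * (1 - Cj k j * ρ) - (1 - (om k * zt k ^ j).re) * (1 + h * h' - r * r') := by
    intro j
    rw [hρ]
    unfold Cj
    ring
  have hhalf : ∀ j, (1 / 2) * (1 / Real.sqrt (1 - Cj k j * ρ)) =
      1 / Real.sqrt (4 * (1 - Cj k j * ρ)) := by
    intro j
    rw [Real.sqrt_mul (by norm_num), show Real.sqrt 4 = 2 by
      rw [show (4 : ℝ) = 2 ^ 2 by norm_num, Real.sqrt_sq (by norm_num)]]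
    rw [one_div_mul_one_div]
  have hle : ∀ j ∈ range k, 1 / Real.sqrt (4 * (1 - Cj k j * ρ)) ≤
      1 / Real.sqrt ((2 - 2 * h * h') - (2 * (r * r')) * (om k * zt k ^ j).re) := by
    intro j hj
    apply one_div_le_one_div_of_le (Real.sqrt_pos.2 (hposω j hj))
    apply Real.sqrt_le_sqrt
    rw [hterm j]
    have := mul_nonneg (show 0 ≤ 1 - (om k * zt k ^ j).re by linarith [re_lt_one hk j])
      (show 0 ≤ 1 + h * h' - r * r' by linarith)
    linarith
  have hA : (1 / 2) * ∑ j ∈ range k, 1 / Real.sqrt (1 - Cj k j * ρ) ≤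
      ∑ j ∈ range k, 1 / Real.sqrt ((2 - 2 * h * h') - (2 * (r * r')) * (om k * zt k ^ j).re) := by
    rw [Finset.mul_sum]
    refine Finset.sum_le_sum fun j hj => ?_
    rw [hhalf j]
    exact hle j hj
  refine ⟨hA.trans htw.1, fun hne => ?_⟩
  by_cases he : 1 + h * h' = r * r'
  · -- the twist is strict
    refine lt_of_le_of_lt hA (htw.2 fun huk => hne ⟨he, ?_⟩)
    have hwC : (starRingEnd ℂ) w * w = ((r ^ 2 : ℝ) : ℂ) := by
      rw [mul_comm, Complex.mul_conj, Complex.normSq_eq_norm_sq, hr]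
    have e1 : w' * ((r ^ 2 : ℝ) : ℂ) = w * (((r * r' : ℝ) : ℂ) * u) := by
      rw [hu, mul_div_cancel₀ _ hrrC, ← hwC]
      ring
    have e2 : w' * (r : ℂ) = w * ((r' : ℂ) * u) := by
      have hrC : (r : ℂ) ≠ 0 := by exact_mod_cast hr0.ne'
      apply mul_right_cancel₀ hrC
      have : w' * (r : ℂ) * r = w' * ((r ^ 2 : ℝ) : ℂ) := by push_cast; ring
      rw [this, e1]
      push_cast
      ring
    have e3 := congrArg (fun z => z ^ k) e2
    simp only [mul_pow, huk] at e3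
    rw [e3]
    ring
  · have hlt : 0 < 1 + h * h' - r * r' := lt_of_le_of_ne (by linarith) (by
      intro h0; apply he; linarith)
    refine lt_of_lt_of_le ?_ htw.1
    rw [Finset.mul_sum]
    refine Finset.sum_lt_sum_of_nonempty ⟨0, Finset.mem_range.2 (Nat.pos_of_ne_zero hk)⟩
      fun j hj => ?_
    rw [hhalf j]
    apply one_div_lt_one_div_of_lt (Real.sqrt_pos.2 (hposω j hj))
    apply Real.sqrt_lt_sqrt (hposω j hj).le
    rw [hterm j]
    have := mul_pos (show 0 < 1 - (om k * zt k ^ j).re by linarith [re_lt_one hk j]) hlt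
    linarith

end Pool.Agent.Helper15.Thomson
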