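import Pool.Agent.Helper15.Thomson.Energy

/-!
Existence of the minimisers with an axis.
-/

namespace Pool.Agent.Helper15.Thomson

open Finset

/-- A function with a barrier on a half-open interval attains its minimum. -/
theorem exists_min_barrier {g : ℝ → ℝ} {B : ℝ} (hB : 0 < B)
    (hg : ∀ x, 0 < x → x ≤ 1 → B / Real.sqrt x ≤ g x)
    (hc : ContinuousOn g (Set.Ioc 0 1)) : ∃ x, 0 < x ∧ x ≤ 1 ∧ ∀ y, 0 < y → y ≤ 1 → g x ≤ g y := by
  have h1 := hg 1 one_pos le_rfl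
  rw [Real.sqrt_one, div_one] at h1
  have hg1 : 0 < g 1 := hB.trans_le h1
  obtain ⟨δ, hδ⟩ : ∃ δ, δ = (B / g 1) ^ 2 := ⟨_, rfl⟩
  have hδ0 : 0 < δ := by rw [hδ]; positivity
  have hδ1 : δ ≤ 1 := by
    rw [hδ]
    have : B / g 1 ≤ 1 := by rw [div_le_one hg1]; exact h1
    exact pow_le_one₀ (by positivity) this
  have hsub : Set.Icc δ 1 ⊆ Set.Ioc 0 1 := fun x hx => ⟨hδ0.trans_le hx.1, hx.2⟩
  obtain ⟨x, hx, hmin⟩ := isCompact_Icc.exists_isMinOn (Set.nonempty_Icc.2 hδ1) (hc.mono hsub)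
  refine ⟨x, (hsub hx).1, hx.2, fun y hy hy1 => ?_⟩
  rcases le_total δ y with h | h
  · exact hmin ⟨h, hy1⟩
  · have h2 : g x ≤ g 1 := hmin ⟨hδ1, le_rfl⟩
    refine h2.trans ?_
    refine le_trans ?_ (hg y hy hy1)
    rw [le_div_iff₀ (Real.sqrt_pos.2 hy)]
    have h3 : Real.sqrt y ≤ B / g 1 := by
      rw [Real.sqrt_le_left (by positivity), ← hδ]
      exact h
    calc g 1 * Real.sqrt y ≤ g 1 * (B / g 1) := mul_le_mul_of_nonneg_left h3 hg1.le
      _ = B := by field_simp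

/-- A function with a barrier on an open interval attains its minimum. -/
theorem exists_min_barrier2 {g : ℝ → ℝ} {B : ℝ} (hB : 0 < B)
    (hg : ∀ x, x ^ 2 < 1 → B / Real.sqrt (1 - x ^ 2) ≤ g x)
    (hc : ContinuousOn g {x | x ^ 2 < 1}) : ∃ x, x ^ 2 < 1 ∧ ∀ y, y ^ 2 < 1 → g x ≤ g y := by
  have h1 := hg 0 (by norm_num)
  rw [show (1 : ℝ) - 0 ^ 2 = 1 by norm_num, Real.sqrt_one, div_one] at h1
  have hg1 : 0 < g 0 := hB.trans_le h1
  obtain ⟨δ, hδ⟩ : ∃ δ, δ = (B / g 0) ^ 2 := ⟨_, rfl⟩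
  have hδ0 : 0 < δ := by rw [hδ]; positivity
  have hδ1 : δ ≤ 1 := by
    rw [hδ]
    have : B / g 0 ≤ 1 := by rw [div_le_one hg1]; exact h1
    exact pow_le_one₀ (by positivity) this
  obtain ⟨K, hK⟩ : ∃ K : Set ℝ, K = {x | x ^ 2 ≤ 1 - δ} := ⟨_, rfl⟩
  have hKc : IsCompact K := by
    have h2 : IsClosed K := by
      rw [hK]
      exact isClosed_le (by fun_prop) continuous_const
    have h3 : K ⊆ Set.Icc (-1) 1 := by
      intro x hx
      rw [hK, Set.mem_setOf_eq] at hx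
      have := (abs_le.1 ((sq_le_one_iff_abs_le_one x).1 (by linarith)))
      exact this
    exact isCompact_Icc.of_isClosed_subset h2 h3
  have h0K : (0 : ℝ) ∈ K := by
    rw [hK, Set.mem_setOf_eq]
    norm_num
    exact hδ1
  have hsub : K ⊆ {x | x ^ 2 < 1} := by
    intro x hx
    rw [hK, Set.mem_setOf_eq] at hx
    rw [Set.mem_setOf_eq]
    linarith
  obtain ⟨x, hx, hmin⟩ := hKc.exists_isMinOn ⟨0, h0K⟩ (hc.mono hsub)
  refine ⟨x, hsub hx, fun y hy => ?_⟩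
  by_cases h : y ∈ K
  · exact hmin h
  · have h2 : g x ≤ g 0 := hmin h0K
    refine h2.trans ?_
    refine le_trans ?_ (hg y hy)
    have hy1 : 0 < 1 - y ^ 2 := by linarith
    rw [le_div_iff₀ (Real.sqrt_pos.2 hy1)]
    have h3 : Real.sqrt (1 - y ^ 2) ≤ B / g 0 := by
      rw [Real.sqrt_le_left (by positivity), ← hδ]
      rw [hK, Set.mem_setOf_eq] at h
      linarith
    calc g 0 * Real.sqrt (1 - y ^ 2) ≤ g 0 * (B / g 0) := mul_le_mul_of_nonneg_left h3 hg1.le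
      _ = B := by field_simp

theorem eF_cont {B κ μ : ℝ} {k : ℕ} {C : ℕ → ℝ} (hC : ∀ j, C j < 1) :
    ContinuousOn (eF B κ μ k C) (Set.Ioc 0 1) := by
  unfold eF
  refine ContinuousOn.add (ContinuousOn.add ?_ ?_) ?_
  · exact continuousOn_const.div Real.continuous_sqrt.continuousOn
      fun x hx => (Real.sqrt_pos.2 hx.1).ne'
  · refine continuousOn_const.mul (continuousOn_finsetSum _ fun j _ => ?_)
    refine continuousOn_const.div (Continuous.continuousOn (by fun_prop)) fun x hx => ?_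
    exact (Real.sqrt_pos.2 (one_sub_pos (hC j) hx.1 hx.2)).ne'
  · refine continuousOn_const.mul (ContinuousOn.sqrt ?_)
    refine ContinuousOn.add ?_ ?_
    · exact continuousOn_const.div continuousOn_id fun x hx => hx.1.ne'
    · exact continuousOn_const.div Real.continuous_sqrt.continuousOn
        fun x hx => (Real.sqrt_pos.2 hx.1).ne'

theorem eF_barrier {B κ μ : ℝ} {k : ℕ} {C : ℕ → ℝ} (hκ : 0 ≤ κ) (hμ : 0 ≤ μ) (x : ℝ) :
    B / Real.sqrt x ≤ eF B κ μ k C x := by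
  unfold eF
  have h1 : 0 ≤ κ * ∑ j ∈ Finset.range k, 1 / Real.sqrt (1 - C j * x) :=
    mul_nonneg hκ (Finset.sum_nonneg fun j _ => by positivity)
  have h2 : 0 ≤ μ * Real.sqrt (1 / x + 1 / Real.sqrt x) := by positivity
  linarith

end Pool.Agent.Helper15.Thomson
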