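import Mathlib

/-!
Configurations on the sphere with an axis of rotation: rings and poles.
-/

namespace Pool.Agent.Helper15.Thomson

open Finset

/-- Euclidean space of dimension three. -/
abbrev E3 : Type := EuclideanSpace ℝ (Fin 3)

/-- The rotation by the angle `θ` about the third coordinate axis. -/
noncomputable def rotZ (θ : ℝ) (v : E3) : E3 :=
  !₂[Real.cos θ * v 0 - Real.sin θ * v 1, Real.sin θ * v 0 + Real.cos θ * v 1, v 2]

/-- `X` is an `n`-point configuration on the unit sphere. -/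
def IsConfig (n : ℕ) (X : Finset E3) : Prop := X.card = n ∧ ∀ x ∈ X, ‖x‖ = 1

/-- The Coulomb energy of a configuration: the sum of the reciprocals of the distances over the
unordered pairs of distinct points. -/
noncomputable def energy (X : Finset E3) : ℝ := (∑ p ∈ X.offDiag, 1 / dist p.1 p.2) / 2

/-- `X` is invariant under a rotation by the angle `2π/k` about some axis through the origin. -/
def HasAxis (k : ℕ) (X : Finset E3) : Prop :=
  ∃ Q : E3 ≃ₗᵢ[ℝ] E3, ∀ x ∈ X, Q.symm (rotZ (2 * Real.pi / k) (Q x)) ∈ X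

/-- Mutual energy. -/
noncomputable def inter (X Y : Finset E3) : ℝ := ∑ x ∈ X, ∑ y ∈ Y, 1 / dist x y

theorem energy_eq (X : Finset E3) : energy X = inter X X / 2 := by
  classical
  unfold energy inter
  congr 1
  rw [← Finset.sum_product' X X (fun x y => 1 / dist x y), ← Finset.diag_union_offDiag,
    Finset.sum_union (Finset.disjoint_diag_offDiag X)]
  have : ∑ p ∈ X.diag, 1 / dist p.1 p.2 = 0 := by
    refine Finset.sum_eq_zero fun p hp => ?_
    rw [Finset.mem_diag] at hp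
    rw [hp.2, dist_self, div_zero]
  rw [this, zero_add]

theorem inter_comm (X Y : Finset E3) : inter X Y = inter Y X := by
  unfold inter
  rw [Finset.sum_comm]
  refine Finset.sum_congr rfl fun y _ => Finset.sum_congr rfl fun x _ => ?_
  rw [dist_comm]

theorem inter_union_left {X X' : Finset E3} (Y : Finset E3) (h : Disjoint X X') :
    inter (X ∪ X') Y = inter X Y + inter X' Y := by
  classical
  unfold inter
  rw [Finset.sum_union h]

theorem inter_union_right {Y Y' : Finset E3} (X : Finset E3) (h : Disjoint Y Y') :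
    inter X (Y ∪ Y') = inter X Y + inter X Y' := by
  rw [inter_comm, inter_union_left X h, inter_comm Y, inter_comm Y']

/-! ### Coordinates -/

/-- The point with horizontal part `w` and height `h`. -/
noncomputable def pt (w : ℂ) (h : ℝ) : E3 := !₂[w.re, w.im, h]

/-- The horizontal part of a point. -/
noncomputable def hz (v : E3) : ℂ := ⟨v 0, v 1⟩

@[simp] theorem hz_pt (w : ℂ) (h : ℝ) : hz (pt w h) = w := by
  simp [hz, pt]

@[simp] theorem pt_two (w : ℂ) (h : ℝ) : (pt w h) 2 = h := by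
  simp [pt]

theorem pt_hz (v : E3) : pt (hz v) (v 2) = v := by
  ext i
  fin_cases i <;> simp [pt, hz]

theorem pt_inj {w w' : ℂ} {h h' : ℝ} (e : pt w h = pt w' h') : w = w' ∧ h = h' := by
  have h1 := congrArg hz e
  have h2 := congrArg (fun v : E3 => v 2) e
  simp only [hz_pt, pt_two] at h1 h2
  exact ⟨h1, h2⟩

theorem dist_pt (w w' : ℂ) (h h' : ℝ) :
    dist (pt w h) (pt w' h') = Real.sqrt (‖w - w'‖ ^ 2 + (h - h') ^ 2) := by
  rw [EuclideanSpace.dist_eq, Fin.sum_univ_three]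
  congr 1
  rw [← Complex.normSq_eq_norm_sq, Complex.normSq_apply]
  simp only [Real.dist_eq, sq_abs, Complex.sub_re, Complex.sub_im, pt]
  simp
  ring

theorem norm_pt (w : ℂ) (h : ℝ) : ‖pt w h‖ = Real.sqrt (‖w‖ ^ 2 + h ^ 2) := by
  rw [EuclideanSpace.norm_eq, Fin.sum_univ_three]
  congr 1
  rw [← Complex.normSq_eq_norm_sq, Complex.normSq_apply]
  simp only [Real.norm_eq_abs, sq_abs, pt]
  simp
  ring

theorem norm_pt_eq_one {w : ℂ} {h : ℝ} : ‖pt w h‖ = 1 ↔ ‖w‖ ^ 2 + h ^ 2 = 1 := by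
  rw [norm_pt, Real.sqrt_eq_one]

theorem rotZ_pt (θ : ℝ) (w : ℂ) (h : ℝ) :
    rotZ θ (pt w h) = pt (Complex.exp (θ * Complex.I) * w) h := by
  ext i
  fin_cases i
  · simp [rotZ, pt, Complex.exp_ofReal_mul_I_re, Complex.exp_ofReal_mul_I_im]
  · simp [rotZ, pt, Complex.exp_ofReal_mul_I_re, Complex.exp_ofReal_mul_I_im]
    ring
  · simp [rotZ, pt]

/-- The linear isometry which multiplies the horizontal part by `u` and the height by `s`. -/
noncomputable def iso (u : ℂ) (hu : ‖u‖ = 1) (s : ℝ) (hs : s ^ 2 = 1) : E3 ≃ₗᵢ[ℝ] E3 where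
  toFun v := pt (u * hz v) (s * v 2)
  invFun v := pt (u⁻¹ * hz v) (s * v 2)
  map_add' v v' := by
    ext i
    fin_cases i <;> simp [pt, hz] <;> ring
  map_smul' c v := by
    ext i
    fin_cases i <;> simp [pt, hz] <;> ring
  left_inv v := by
    have hu0 : u ≠ 0 := by
      rintro rfl
      simp at hu
    simp only [hz_pt, pt_two]
    rw [← mul_assoc, inv_mul_cancel₀ hu0, one_mul, ← mul_assoc, ← sq, hs, one_mul, pt_hz]
  right_inv v := by
    have hu0 : u ≠ 0 := by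
      rintro rfl
      simp at hu
    simp only [hz_pt, pt_two]
    rw [← mul_assoc, mul_inv_cancel₀ hu0, one_mul, ← mul_assoc, ← sq, hs, one_mul, pt_hz]
  norm_map' v := by
    show ‖pt (u * hz v) (s * v 2)‖ = ‖v‖
    conv_rhs => rw [← pt_hz v]
    rw [norm_pt, norm_pt, norm_mul, hu, one_mul, mul_pow, hs, one_mul]

@[simp] theorem iso_pt (u : ℂ) (hu : ‖u‖ = 1) (s : ℝ) (hs : s ^ 2 = 1) (w : ℂ) (h : ℝ) :
    iso u hu s hs (pt w h) = pt (u * w) (s * h) := by
  show pt (u * hz (pt w h)) (s * (pt w h) 2) = _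
  rw [hz_pt, pt_two]

/-! ### Equivalence of configurations -/

/-- The configurations are carried onto each other by an orthogonal transformation. -/
def Eqv (X Y : Finset E3) : Prop := ∃ T : E3 ≃ₗᵢ[ℝ] E3, T '' (X : Set E3) = Y

theorem Eqv.refl (X : Finset E3) : Eqv X X := ⟨LinearIsometryEquiv.refl ℝ E3, by simp⟩

theorem Eqv.symm {X Y : Finset E3} (h : Eqv X Y) : Eqv Y X := by
  obtain ⟨T, hT⟩ := h
  refine ⟨T.symm, ?_⟩
  rw [← hT, ← Set.image_comp]
  simp

theorem Eqv.trans {X Y Z : Finset E3} (h : Eqv X Y) (h' : Eqv Y Z) : Eqv X Z := by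
  obtain ⟨T, hT⟩ := h
  obtain ⟨T', hT'⟩ := h'
  refine ⟨T.trans T', ?_⟩
  rw [← hT', ← hT, ← Set.image_comp]
  rfl

theorem Eqv.exists_image {X Y : Finset E3} (h : Eqv X Y) :
    ∃ T : E3 ≃ₗᵢ[ℝ] E3, Y = X.map T.toEquiv.toEmbedding := by
  obtain ⟨T, hT⟩ := h
  refine ⟨T, ?_⟩
  apply Finset.coe_injective
  rw [Finset.coe_map, ← hT]
  rfl

theorem eqv_map (X : Finset E3) (T : E3 ≃ₗᵢ[ℝ] E3) : Eqv X (X.map T.toEquiv.toEmbedding) := by
  refine ⟨T, ?_⟩
  rw [Finset.coe_map]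
  rfl

theorem inter_map (X Y : Finset E3) (T : E3 ≃ₗᵢ[ℝ] E3) :
    inter (X.map T.toEquiv.toEmbedding) (Y.map T.toEquiv.toEmbedding) = inter X Y := by
  unfold inter
  rw [Finset.sum_map]
  refine Finset.sum_congr rfl fun x _ => ?_
  rw [Finset.sum_map]
  refine Finset.sum_congr rfl fun y _ => ?_
  have : dist (T.toEquiv.toEmbedding x) (T.toEquiv.toEmbedding y) = dist x y := T.dist_map x y
  rw [this]

theorem Eqv.energy_eq {X Y : Finset E3} (h : Eqv X Y) : energy X = energy Y := by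
  obtain ⟨T, rfl⟩ := h.exists_image
  rw [Thomson.energy_eq, Thomson.energy_eq, inter_map]

theorem Eqv.isConfig {X Y : Finset E3} (h : Eqv X Y) {n : ℕ} (hX : IsConfig n X) :
    IsConfig n Y := by
  obtain ⟨T, rfl⟩ := h.exists_image
  refine ⟨by rw [Finset.card_map]; exact hX.1, fun y hy => ?_⟩
  rw [Finset.mem_map] at hy
  obtain ⟨x, hx, rfl⟩ := hy
  show ‖T x‖ = 1
  rw [T.norm_map]
  exact hX.2 x hx

/-- Invariance under the rotation by `2π/k` about the third axis. -/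
def Inv0 (k : ℕ) (X : Finset E3) : Prop := ∀ x ∈ X, rotZ (2 * Real.pi / k) x ∈ X

theorem Inv0.hasAxis {k : ℕ} {X : Finset E3} (h : Inv0 k X) : HasAxis k X :=
  ⟨LinearIsometryEquiv.refl ℝ E3, fun x hx => h x hx⟩

theorem HasAxis.exists_inv0 {k : ℕ} {X : Finset E3} (h : HasAxis k X) :
    ∃ Y, Eqv X Y ∧ Inv0 k Y := by
  obtain ⟨Q, hQ⟩ := h
  refine ⟨X.map Q.toEquiv.toEmbedding, eqv_map X Q, fun y hy => ?_⟩
  rw [Finset.mem_map] at hy ⊢
  obtain ⟨x, hx, rfl⟩ := hy
  exact ⟨_, hQ x hx, Q.apply_symm_apply _⟩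

theorem HasAxis.of_eqv {k : ℕ} {X Y : Finset E3} (h : Eqv X Y) (hX : HasAxis k X) :
    HasAxis k Y := by
  obtain ⟨T, rfl⟩ := h.exists_image
  obtain ⟨Q, hQ⟩ := hX
  refine ⟨T.symm.trans Q, fun y hy => ?_⟩
  rw [Finset.mem_map] at hy ⊢
  obtain ⟨x, hx, rfl⟩ := hy
  refine ⟨_, hQ x hx, ?_⟩
  show T (Q.symm (rotZ (2 * Real.pi / k) (Q x))) = T (Q.symm (rotZ (2 * Real.pi / k) (Q (T.symm (T x)))))
  rw [T.symm_apply_apply]

/-! ### Rings -/

/-- The primitive root of unity. -/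
noncomputable def zt (k : ℕ) : ℂ := Complex.exp ((2 * Real.pi / k : ℝ) * Complex.I)

theorem zt_prim {k : ℕ} (hk : k ≠ 0) : IsPrimitiveRoot (zt k) k := by
  have h := Complex.isPrimitiveRoot_exp k hk
  unfold zt
  convert h using 2
  push_cast
  ring

theorem norm_zt (k : ℕ) : ‖zt k‖ = 1 := Complex.norm_exp_ofReal_mul_I _

theorem inv0_iff {k : ℕ} {X : Finset E3} :
    Inv0 k X ↔ ∀ w h, pt w h ∈ X → pt (zt k * w) h ∈ X := by
  constructor
  · intro hX w h hw
    have := hX _ hw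
    rwa [rotZ_pt] at this
  · intro hX x hx
    rw [← pt_hz x] at hx ⊢
    rw [rotZ_pt]
    exact hX _ _ hx

open Classical in
/-- The orbit of a point. -/
noncomputable def ring (k : ℕ) (w : ℂ) (h : ℝ) : Finset E3 :=
  (range k).image fun j => pt (zt k ^ j * w) h

theorem mem_ring {k : ℕ} (hk : k ≠ 0) {w : ℂ} (hw : w ≠ 0) {h : ℝ} {x : E3} :
    x ∈ ring k w h ↔ hz x ^ k = w ^ k ∧ x 2 = h := by
  classical
  unfold ring
  rw [Finset.mem_image]
  have hp := zt_prim hk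
  constructor
  · rintro ⟨j, -, rfl⟩
    rw [hz_pt, pt_two, mul_pow, ← pow_mul, mul_comm j k, pow_mul, hp.pow_eq_one, one_pow, one_mul]
    exact ⟨rfl, rfl⟩
  · rintro ⟨h1, h2⟩
    have h3 : (hz x / w) ^ k = 1 := by rw [div_pow, h1, div_self (pow_ne_zero _ hw)]
    have : NeZero k := ⟨hk⟩
    obtain ⟨j, hj, h4⟩ := hp.eq_pow_of_pow_eq_one h3
    refine ⟨j, Finset.mem_range.2 hj, ?_⟩
    rw [h4, div_mul_cancel₀ _ hw, ← h2, pt_hz]

theorem ring_injOn {k : ℕ} (hk : k ≠ 0) {w : ℂ} (hw : w ≠ 0) (h : ℝ) :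
    Set.InjOn (fun j => pt (zt k ^ j * w) h) (range k : Set ℕ) := by
  intro i hi j hj hij
  have h1 := (pt_inj hij).1
  exact (zt_prim hk).pow_inj (by simpa using hi) (by simpa using hj) (mul_right_cancel₀ hw h1)

theorem card_ring {k : ℕ} (hk : k ≠ 0) {w : ℂ} (hw : w ≠ 0) (h : ℝ) : (ring k w h).card = k := by
  classical
  unfold ring
  rw [Finset.card_image_of_injOn (ring_injOn hk hw h), Finset.card_range]

theorem sum_ring {k : ℕ} (hk : k ≠ 0) {w : ℂ} (hw : w ≠ 0) (h : ℝ) (f : E3 → ℝ) :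
    ∑ x ∈ ring k w h, f x = ∑ j ∈ range k, f (pt (zt k ^ j * w) h) := by
  classical
  unfold ring
  rw [Finset.sum_image (ring_injOn hk hw h)]

theorem ring_inv0 {k : ℕ} (hk : k ≠ 0) {w : ℂ} (hw : w ≠ 0) (h : ℝ) : Inv0 k (ring k w h) := by
  rw [inv0_iff]
  intro w' h' hx
  rw [mem_ring hk hw] at hx ⊢
  rw [hz_pt, pt_two] at hx ⊢
  rw [mul_pow, (zt_prim hk).pow_eq_one, one_mul]
  exact hx

theorem Inv0.union {k : ℕ} {X Y : Finset E3} (hX : Inv0 k X) (hY : Inv0 k Y) : by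
    classical exact Inv0 k (X ∪ Y) := by
  classical
  intro x hx
  rw [Finset.mem_union] at hx ⊢
  exact hx.imp (hX x) (hY x)

theorem sum_shift {k : ℕ} (hk : k ≠ 0) (F : ℂ → ℝ) (m : ℕ) :
    ∑ j ∈ range k, F (zt k ^ (j + m)) = ∑ j ∈ range k, F (zt k ^ j) := by
  induction m with
  | zero => rfl
  | succ m ih =>
    rw [← ih]
    have h1 := Finset.sum_range_succ (fun j => F (zt k ^ (j + m))) k
    have h2 := Finset.sum_range_succ' (fun j => F (zt k ^ (j + m))) k
    rw [h2] at h1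
    have h3 : zt k ^ (k + m) = zt k ^ (0 + m) := by
      rw [pow_add, (zt_prim hk).pow_eq_one, one_mul, zero_add]
    rw [h3] at h1
    have h4 := add_right_cancel h1
    rw [← h4]
    refine Finset.sum_congr rfl fun j _ => ?_
    congr 2
    ring_nf

theorem inter_ring_ring {k : ℕ} (hk : k ≠ 0) {w w' : ℂ} (hw : w ≠ 0) (hw' : w' ≠ 0) (h h' : ℝ) :
    inter (ring k w h) (ring k w' h') =
      k * ∑ j ∈ range k, 1 / dist (pt w h) (pt (zt k ^ j * w') h') := by
  unfold inter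
  rw [sum_ring hk hw]
  have h1 : ∀ i ∈ range k, ∑ y ∈ ring k w' h', 1 / dist (pt (zt k ^ i * w) h) y =
      ∑ j ∈ range k, 1 / dist (pt w h) (pt (zt k ^ j * w') h') := by
    intro i hi
    rw [sum_ring hk hw']
    have h2 : ∑ j ∈ range k, 1 / dist (pt (zt k ^ i * w) h) (pt (zt k ^ j * w') h') =
        ∑ j ∈ range k, 1 / dist (pt (zt k ^ i * w) h) (pt (zt k ^ (j + i) * w') h') :=
      (sum_shift hk (fun z => 1 / dist (pt (zt k ^ i * w) h) (pt (z * w') h')) i).symm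
    rw [h2]
    refine Finset.sum_congr rfl fun j _ => ?_
    rw [dist_pt, dist_pt, pow_add, mul_comm (zt k ^ j), mul_assoc, ← mul_sub, norm_mul, norm_pow,
      norm_zt, one_pow, one_mul]
  rw [Finset.sum_congr rfl h1, Finset.sum_const, Finset.card_range, nsmul_eq_mul]

/-- The energy constant of a ring. -/
noncomputable def Bk (k : ℕ) : ℝ := k * ∑ j ∈ range k, 1 / ‖1 - zt k ^ j‖

theorem Bk_pos {k : ℕ} (hk : 2 ≤ k) : 0 < Bk k := by
  unfold Bk
  refine mul_pos (by positivity) ?_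
  refine Finset.sum_pos' (fun j _ => by positivity) ⟨1, Finset.mem_range.2 (by omega), ?_⟩
  rw [pow_one]
  have h : (1 : ℂ) - zt k ≠ 0 := sub_ne_zero.2 ((zt_prim (by omega)).ne_one (by omega)).symm
  positivity

theorem inter_ring_self {k : ℕ} (hk : k ≠ 0) {w : ℂ} (hw : w ≠ 0) (h : ℝ) :
    inter (ring k w h) (ring k w h) = Bk k / ‖w‖ := by
  rw [inter_ring_ring hk hw hw, Bk, mul_div_assoc, Finset.sum_div]
  congr 1
  refine Finset.sum_congr rfl fun j _ => ?_
  rw [dist_pt, sub_self, zero_pow two_ne_zero, add_zero, Real.sqrt_sq (norm_nonneg _), div_div]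
  congr 1
  rw [← norm_mul]
  congr 1
  ring

/-- A pole and a ring. -/
theorem inter_pole_ring {k : ℕ} (hk : k ≠ 0) {w : ℂ} (hw : w ≠ 0) {h s : ℝ}
    (h1 : ‖w‖ ^ 2 + h ^ 2 = 1) (hs : s ^ 2 = 1) :
    inter {pt 0 s} (ring k w h) = k / Real.sqrt (2 - 2 * s * h) := by
  unfold inter
  rw [Finset.sum_singleton, sum_ring hk hw]
  have h2 : ∀ j ∈ range k, 1 / dist (pt 0 s) (pt (zt k ^ j * w) h) =
      1 / Real.sqrt (2 - 2 * s * h) := by
    intro j _
    rw [dist_pt, zero_sub, norm_neg, norm_mul, norm_pow, norm_zt, one_pow, one_mul]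
    congr 2
    linear_combination h1 + hs
  rw [Finset.sum_congr rfl h2, Finset.sum_const, Finset.card_range, nsmul_eq_mul]
  ring

/-- The distance of two points on the sphere. -/
theorem dist_sphere {w w' : ℂ} {h h' : ℝ} (h1 : ‖w‖ ^ 2 + h ^ 2 = 1) (h2 : ‖w'‖ ^ 2 + h' ^ 2 = 1) :
    dist (pt w h) (pt w' h') =
      Real.sqrt (2 - 2 * h * h' - 2 * (w' * (starRingEnd ℂ) w).re) := by
  rw [dist_pt]
  congr 1
  have h3 : ‖w - w'‖ ^ 2 = ‖w‖ ^ 2 + ‖w'‖ ^ 2 - 2 * (w' * (starRingEnd ℂ) w).re := by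
    rw [← Complex.normSq_eq_norm_sq, ← Complex.normSq_eq_norm_sq, ← Complex.normSq_eq_norm_sq,
      Complex.normSq_apply, Complex.normSq_apply, Complex.normSq_apply]
    simp only [Complex.sub_re, Complex.sub_im, Complex.mul_re, Complex.conj_re, Complex.conj_im]
    ring
  rw [h3]
  linear_combination h1 + h2

end Pool.Agent.Helper15.Thomson
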