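import Mathlib

/-!
Joint convexity of the mutual energy of two rings, in logarithmic coordinates.
-/

namespace Pool.Agent.Helper15.Thomson

/-- the polynomial which decides the sign of the determinant -/
theorem tot_nonneg {K m g : ℝ} (hK : 1 ≤ K) (hm : 1 ≤ m) (h0 : 0 ≤ g) (h1 : g ≤ 1) :
    0 ≤ 20 * ((K + 2 * m) * (m + g) ^ 2 - g * (K + m) * (m + g) * (K * (K + 2 * m) + 3) +
        g ^ 2 * (K + m) * (K ^ 2 + 3 * m * K + 2)) * (m + 1) ^ 2 +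
      3 * (K + 1) * (m + g) * ((K ^ 2 + 2 * K * m + 1) * m * (m + 2) * (m + g) ^ 2 +
        ((K ^ 2 + 2 * K * m) * (m + g) ^ 2 + 2 * (K + m) * m * g * (m + g) -
          4 * g * (K + m) ^ 2 * (m + g) + 3 * g ^ 2 * (K + m) ^ 2) * (m + 1) ^ 2 +
        2 * (K - 1) * m * (m + 1) * (m * (m + g) ^ 2 + (K + m) * m * (m + g))) := by
  obtain ⟨x, hx⟩ : ∃ x, x = K - 1 := ⟨_, rfl⟩
  obtain ⟨y, hy⟩ : ∃ y, y = m - 1 := ⟨_, rfl⟩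
  obtain ⟨z, hz⟩ : ∃ z, z = 1 - g := ⟨_, rfl⟩
  have hx0 : 0 ≤ x := by linarith
  have hy0 : 0 ≤ y := by linarith
  have hz0 : 0 ≤ z := by linarith
  have e : 20 * ((K + 2 * m) * (m + g) ^ 2 - g * (K + m) * (m + g) * (K * (K + 2 * m) + 3) +
        g ^ 2 * (K + m) * (K ^ 2 + 3 * m * K + 2)) * (m + 1) ^ 2 +
      3 * (K + 1) * (m + g) * ((K ^ 2 + 2 * K * m + 1) * m * (m + 2) * (m + g) ^ 2 +
        ((K ^ 2 + 2 * K * m) * (m + g) ^ 2 + 2 * (K + m) * m * g * (m + g) -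
          4 * g * (K + m) ^ 2 * (m + g) + 3 * g ^ 2 * (K + m) ^ 2) * (m + 1) ^ 2 +
        2 * (K - 1) * m * (m + 1) * (m * (m + g) ^ 2 + (K + m) * m * (m + g))) =
      ((384 * z ^ 3 + 816 * g * z ^ 2 + 864 * g ^ 2 * z + 576 * g ^ 3) +
        y * (1564 * z ^ 3 + 3768 * g * z ^ 2 + 3824 * g ^ 2 * z + 1920 * g ^ 3) +
        y ^ 2 * (2586 * z ^ 3 + 6692 * g * z ^ 2 + 6488 * g ^ 2 * z + 2592 * g ^ 3) +
        y ^ 3 * (2218 * z ^ 3 + 5914 * g * z ^ 2 + 5460 * g ^ 2 * z + 1824 * g ^ 3) +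
        y ^ 4 * (1038 * z ^ 3 + 2764 * g * z ^ 2 + 2428 * g ^ 2 * z + 708 * g ^ 3) +
        y ^ 5 * (250 * z ^ 3 + 650 * g * z ^ 2 + 544 * g ^ 2 * z + 144 * g ^ 3) +
        y ^ 6 * (24 * z ^ 3 + 60 * g * z ^ 2 + 48 * g ^ 2 * z + 12 * g ^ 3)) +
      x * ((392 * z ^ 3 + 624 * g * z ^ 2 + 624 * g ^ 2 * z + 608 * g ^ 3) +
        y * (1734 * z ^ 3 + 4132 * g * z ^ 2 + 4648 * g ^ 2 * z + 2688 * g ^ 3) +
        y ^ 2 * (3191 * z ^ 3 + 9184 * g * z ^ 2 + 10428 * g ^ 2 * z + 4720 * g ^ 3) +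
        y ^ 3 * (3129 * z ^ 3 + 9729 * g * z ^ 2 + 10774 * g ^ 2 * z + 4240 * g ^ 3) +
        y ^ 4 * (1721 * z ^ 3 + 5408 * g * z ^ 2 + 5754 * g ^ 2 * z + 2070 * g ^ 3) +
        y ^ 5 * (501 * z ^ 3 + 1529 * g * z ^ 2 + 1552 * g ^ 2 * z + 524 * g ^ 3) +
        y ^ 6 * (60 * z ^ 3 + 174 * g * z ^ 2 + 168 * g ^ 2 * z + 54 * g ^ 3)) +
      x ^ 2 * ((186 * z ^ 3 + 324 * g * z ^ 2 + 320 * g ^ 2 * z + 272 * g ^ 3) +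
        y * (858 * z ^ 3 + 2346 * g * z ^ 2 + 2776 * g ^ 2 * z + 1456 * g ^ 3) +
        y ^ 2 * (1608 * z ^ 3 + 5220 * g * z ^ 2 + 6280 * g ^ 2 * z + 2764 * g ^ 3) +
        y ^ 3 * (1560 * z ^ 3 + 5328 * g * z ^ 2 + 6254 * g ^ 2 * z + 2504 * g ^ 3) +
        y ^ 4 * (822 * z ^ 3 + 2772 * g * z ^ 2 + 3120 * g ^ 2 * z + 1170 * g ^ 3) +
        y ^ 5 * (222 * z ^ 3 + 714 * g * z ^ 2 + 762 * g ^ 2 * z + 270 * g ^ 3) +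
        y ^ 6 * (24 * z ^ 3 + 72 * g * z ^ 2 + 72 * g ^ 2 * z + 24 * g ^ 3)) +
      x ^ 3 * ((33 * z ^ 3 + 58 * g * z ^ 2 + 32 * g ^ 2 * z + 16 * g ^ 3) +
        y * (141 * z ^ 3 + 401 * g * z ^ 2 + 424 * g ^ 2 * z + 176 * g ^ 3) +
        y ^ 2 * (237 * z ^ 3 + 788 * g * z ^ 2 + 904 * g ^ 2 * z + 356 * g ^ 3) +
        y ^ 3 * (195 * z ^ 3 + 661 * g * z ^ 2 + 746 * g ^ 2 * z + 280 * g ^ 3) +
        y ^ 4 * (78 * z ^ 3 + 252 * g * z ^ 2 + 270 * g ^ 2 * z + 96 * g ^ 3) +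
        y ^ 5 * (12 * z ^ 3 + 36 * g * z ^ 2 + 36 * g ^ 2 * z + 12 * g ^ 3)) := by
    rw [hz, hx, hy]
    ring
  rw [e]
  positivity

/-- the factorisation of the leading part of the determinant -/
theorem lead_id (K m g : ℝ) :
    (K ^ 2 + 2 * K * m + 1) * ((K ^ 2 + 2 * K * m) * (m + g) ^ 2 +
      2 * (K + m) * m * g * (m + g) - 4 * g * (K + m) ^ 2 * (m + g) + 3 * g ^ 2 * (K + m) ^ 2) -
      (K ^ 2 - 1) * m ^ 2 * ((m + g) + (K + m)) ^ 2 =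
    2 * (K + m) * ((K + 2 * m) * (m + g) ^ 2 - g * (K + m) * (m + g) * (K * (K + 2 * m) + 3) +
        g ^ 2 * (K + m) * (K ^ 2 + 3 * m * K + 2)) := by
  ring

end Pool.Agent.Helper15.Thomson
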