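import Pool.Agent.Helper15.Thomson.LogForm

/-!
Joint convexity of the mutual energy of two rings, in logarithmic coordinates.
-/

namespace Pool.Agent.Helper15.Thomson

/-- the mutual energy of a point and its image, with a compensating term -/
noncomputable def Ph (g z w : ℝ) : ℝ :=
  Real.sqrt ((Real.cosh z + Real.exp w) / (Real.exp w + g)) +
    3 / 10 * Real.sqrt ((Real.cosh z + 1) * (Real.exp w + 1))

theorem sqrt_eq_exp {x : ℝ} (hx : 0 < x) : Real.sqrt x = Real.exp (Real.log x / 2) := by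
  rw [Real.exp_half, Real.exp_log hx]

theorem Ph_eq {g z w : ℝ} (h0 : 0 ≤ g) :
    Ph g z w = Real.exp ((Real.log (Real.cosh z + Real.exp w) -
      Real.log (Real.exp w + g)) / 2) +
    3 / 10 * Real.exp ((Real.log (Real.cosh z + 1) + Real.log (Real.exp w + 1)) / 2) := by
  have hN : 0 < Real.cosh z + Real.exp w := by positivity
  have hD : 0 < Real.exp w + g := by positivity
  have hK : 0 < Real.cosh z + 1 := by positivity
  have hM : 0 < Real.exp w + 1 := by positivity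
  unfold Ph
  rw [sqrt_eq_exp (div_pos hN hD), sqrt_eq_exp (mul_pos hK hM),
    Real.log_div hN.ne' hD.ne', Real.log_mul hK.ne' hM.ne']

theorem Ph_mid {g : ℝ} (h0 : 0 ≤ g) (h1 : g ≤ 1) {z1 z2 w1 w2 : ℝ} (hw1 : 0 ≤ w1)
    (hw2 : 0 ≤ w2) :
    Ph g ((z1 + z2) / 2) ((w1 + w2) / 2) ≤ (Ph g z1 w1 + Ph g z2 w2) / 2 := by
  obtain ⟨α, hα⟩ : ∃ α, α = z2 - z1 := ⟨_, rfl⟩
  obtain ⟨b, hb⟩ : ∃ b, b = w2 - w1 := ⟨_, rfl⟩
  obtain ⟨K, hKd⟩ : ∃ K : ℝ → ℝ, K = fun t => Real.cosh (z1 + t * α) := ⟨_, rfl⟩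
  obtain ⟨S, hSd⟩ : ∃ S : ℝ → ℝ, S = fun t => Real.sinh (z1 + t * α) := ⟨_, rfl⟩
  obtain ⟨m, hmd⟩ : ∃ m : ℝ → ℝ, m = fun t => Real.exp (w1 + t * b) := ⟨_, rfl⟩
  have hzt : ∀ t : ℝ, HasDerivAt (fun t => z1 + t * α) α t := fun t => by
    simpa using ((hasDerivAt_id t).mul_const α).const_add z1
  have hwt : ∀ t : ℝ, HasDerivAt (fun t => w1 + t * b) b t := fun t => by
    simpa using ((hasDerivAt_id t).mul_const b).const_add w1
  have hK : ∀ t, HasDerivAt K (α * S t) t := fun t => by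
    rw [hKd, hSd]
    exact ((hzt t).cosh).congr_deriv (by ring)
  have hS : ∀ t, HasDerivAt S (α * K t) t := fun t => by
    rw [hKd, hSd]
    exact ((hzt t).sinh).congr_deriv (by ring)
  have hm : ∀ t, HasDerivAt m (b * m t) t := fun t => by
    rw [hmd]
    exact ((hwt t).exp).congr_deriv (by ring)
  have hK1 : ∀ t, 1 ≤ K t := fun t => by rw [hKd]; exact Real.one_le_cosh _
  have hm0 : ∀ t, 0 < m t := fun t => by rw [hmd]; exact Real.exp_pos _
  have hSK : ∀ t, S t ^ 2 = K t ^ 2 - 1 := fun t => by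
    rw [hKd, hSd]
    have := Real.cosh_sq (z1 + t * α)
    show Real.sinh (z1 + t * α) ^ 2 = Real.cosh (z1 + t * α) ^ 2 - 1
    linarith
  have hN : ∀ t, 0 < K t + m t := fun t => by linarith [hK1 t, hm0 t]
  have hD : ∀ t, 0 < m t + g := fun t => by linarith [hm0 t]
  have hKp : ∀ t, 0 < K t + 1 := fun t => by linarith [hK1 t]
  have hmp : ∀ t, 0 < m t + 1 := fun t => by linarith [hm0 t]
  -- the logarithms
  obtain ⟨L1, hL1⟩ : ∃ L1 : ℝ → ℝ, L1 = fun t =>
    (Real.log (K t + m t) - Real.log (m t + g)) / 2 := ⟨_, rfl⟩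
  obtain ⟨L2, hL2⟩ : ∃ L2 : ℝ → ℝ, L2 = fun t =>
    (Real.log (K t + 1) + Real.log (m t + 1)) / 2 := ⟨_, rfl⟩
  obtain ⟨M1, hM1⟩ : ∃ M1 : ℝ → ℝ, M1 = fun t =>
    ((α * S t + b * m t) / (K t + m t) - (b * m t) / (m t + g)) / 2 := ⟨_, rfl⟩
  obtain ⟨M2, hM2⟩ : ∃ M2 : ℝ → ℝ, M2 = fun t =>
    (α * S t / (K t + 1) + b * m t / (m t + 1)) / 2 := ⟨_, rfl⟩
  have hL1' : ∀ t, HasDerivAt L1 (M1 t) t := fun t => by
    rw [hL1, hM1]
    exact ((((hK t).add (hm t)).log (hN t).ne').sub (((hm t).add_const g).log (hD t).ne')).div_const 2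
  have hL2' : ∀ t, HasDerivAt L2 (M2 t) t := fun t => by
    rw [hL2, hM2]
    exact ((((hK t).add_const 1).log (hKp t).ne').add (((hm t).add_const 1).log (hmp t).ne')).div_const 2
  have hM1' : ∀ t, HasDerivAt M1 (((α ^ 2 * K t + b ^ 2 * m t) / (K t + m t) -
      ((α * S t + b * m t) / (K t + m t)) ^ 2 -
        ((b ^ 2 * m t) / (m t + g) - ((b * m t) / (m t + g)) ^ 2)) / 2) t := fun t => by
    rw [hM1]
    have e1 := ((((hS t).const_mul α).add ((hm t).const_mul b)).div ((hK t).add (hm t)) (hN t).ne').sub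
      (((hm t).const_mul b).div ((hm t).add_const g) (hD t).ne')
    refine (e1.div_const 2).congr_deriv ?_
    have h1 := (hN t).ne'
    have h2 := (hD t).ne'
    simp only [Pi.add_apply]
    field_simp
  have hM2' : ∀ t, HasDerivAt M2 ((α ^ 2 * K t / (K t + 1) - (α * S t / (K t + 1)) ^ 2 +
        (b ^ 2 * m t / (m t + 1) - (b * m t / (m t + 1)) ^ 2)) / 2) t := fun t => by
    rw [hM2]
    have e1 := (((hS t).const_mul α).div ((hK t).add_const 1) (hKp t).ne').add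
      (((hm t).const_mul b).div ((hm t).add_const 1) (hmp t).ne')
    refine (e1.div_const 2).congr_deriv ?_
    have h1 := (hKp t).ne'
    have h2 := (hmp t).ne'
    field_simp
  obtain ⟨f, hf⟩ : ∃ f : ℝ → ℝ, f = fun t => Real.exp (L1 t) + 3 / 10 * Real.exp (L2 t) :=
    ⟨_, rfl⟩
  obtain ⟨f1, hf1⟩ : ∃ f1 : ℝ → ℝ, f1 = fun t => Real.exp (L1 t) * M1 t +
    3 / 10 * (Real.exp (L2 t) * M2 t) := ⟨_, rfl⟩
  obtain ⟨f2, hf2⟩ : ∃ f2 : ℝ → ℝ, f2 = fun t => (Real.exp (L1 t) * M1 t * M1 t +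
    Real.exp (L1 t) * (((α ^ 2 * K t + b ^ 2 * m t) / (K t + m t) -
      ((α * S t + b * m t) / (K t + m t)) ^ 2 -
        ((b ^ 2 * m t) / (m t + g) - ((b * m t) / (m t + g)) ^ 2)) / 2)) +
    3 / 10 * (Real.exp (L2 t) * M2 t * M2 t + Real.exp (L2 t) *
      ((α ^ 2 * K t / (K t + 1) - (α * S t / (K t + 1)) ^ 2 +
        (b ^ 2 * m t / (m t + 1) - (b * m t / (m t + 1)) ^ 2)) / 2)) := ⟨_, rfl⟩
  have hff1 : ∀ t, HasDerivAt f (f1 t) t := fun t => by
    rw [hf, hf1]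
    exact ((hL1' t).exp).add (((hL2' t).exp).const_mul (3 / 10))
  have hf1f2 : ∀ t, HasDerivAt f1 (f2 t) t := fun t => by
    rw [hf1, hf2]
    exact (((hL1' t).exp).mul (hM1' t)).add ((((hL2' t).exp).mul (hM2' t)).const_mul (3 / 10))
  have hmt : ∀ t ∈ Set.Icc (0 : ℝ) 1, 1 ≤ m t := fun t ht => by
    rw [hmd]
    apply Real.one_le_exp
    rw [hb]
    have : w1 + t * (w2 - w1) = (1 - t) * w1 + t * w2 := by ring
    rw [this]
    exact add_nonneg (mul_nonneg (by linarith [ht.2]) hw1) (mul_nonneg ht.1 hw2)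
  have hpos : ∀ t ∈ Set.Icc (0 : ℝ) 1, 0 ≤ f2 t := fun t ht => by
    have hF1 := Real.exp_pos (L1 t)
    have hcmp : 3 / 10 * ((K t + 1) * (m t + g) * (K t + m t)) * Real.exp (L1 t) ≤
        (3 / 10 * Real.exp (L2 t)) * (K t + m t) ^ 2 := by
      have hs1 : Real.exp (L1 t) = Real.sqrt ((K t + m t) / (m t + g)) := by
        rw [sqrt_eq_exp (div_pos (hN t) (hD t)), Real.log_div (hN t).ne' (hD t).ne', hL1]
      have hs2 : Real.exp (L2 t) = Real.sqrt ((K t + 1) * (m t + 1)) := by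
        rw [sqrt_eq_exp (mul_pos (hKp t) (hmp t)), Real.log_mul (hKp t).ne' (hmp t).ne', hL2]
      rw [hs1, hs2]
      have key : (K t + 1) * (m t + g) * Real.sqrt ((K t + m t) / (m t + g)) ≤
          Real.sqrt ((K t + 1) * (m t + 1)) * (K t + m t) := by
        have e1 : (K t + 1) * (m t + g) * Real.sqrt ((K t + m t) / (m t + g)) =
            Real.sqrt (((K t + 1) * (m t + g)) ^ 2 * ((K t + m t) / (m t + g))) := by
          rw [Real.sqrt_mul (sq_nonneg _), Real.sqrt_sq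
            (mul_nonneg (hKp t).le (hD t).le)]
        have e2 : Real.sqrt ((K t + 1) * (m t + 1)) * (K t + m t) =
            Real.sqrt (((K t + 1) * (m t + 1)) * (K t + m t) ^ 2) := by
          rw [Real.sqrt_mul (mul_nonneg (hKp t).le (hmp t).le), Real.sqrt_sq (hN t).le]
        rw [e1, e2]
        apply Real.sqrt_le_sqrt
        have e3 : ((K t + 1) * (m t + g)) ^ 2 * ((K t + m t) / (m t + g)) =
            (K t + 1) * (K t + m t) * ((K t + 1) * (m t + g)) := by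
          have := (hD t).ne'
          field_simp
        have e4 : ((K t + 1) * (m t + 1)) * (K t + m t) ^ 2 =
            (K t + 1) * (K t + m t) * ((K t + m t) * (m t + 1)) := by ring
        rw [e3, e4]
        apply mul_le_mul_of_nonneg_left _ (mul_nonneg (hKp t).le (hN t).le)
        exact mul_le_mul (by linarith [hmt t ht]) (by linarith) (hD t).le (hN t).le
      have := mul_le_mul_of_nonneg_left key (mul_nonneg (show (0 : ℝ) ≤ 3 / 10 by norm_num)
        (hN t).le)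
      linarith
    have := form_nonneg (α := α) (b := b) (hK1 t) (hmt t ht) h0 h1 (hSK t) hF1 hcmp
    rw [hf2, hM1, hM2]
    refine this.trans (le_of_eq ?_)
    ring
  have hconv : ConvexOn ℝ (Set.Icc (0 : ℝ) 1) f := by
    refine convexOn_of_hasDerivWithinAt2_nonneg (convex_Icc 0 1)
      (fun t _ => (hff1 t).continuousAt.continuousWithinAt)
      (f' := f1) (f'' := f2) (fun t _ => (hff1 t).hasDerivWithinAt)
      (fun t _ => (hf1f2 t).hasDerivWithinAt) (fun t ht => hpos t (interior_subset ht))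
  have hmid := hconv.2 (Set.left_mem_Icc.2 zero_le_one) (Set.right_mem_Icc.2 zero_le_one)
    (show (0 : ℝ) ≤ 1 / 2 by norm_num) (show (0 : ℝ) ≤ 1 / 2 by norm_num) (by norm_num)
  have hfe : ∀ t, f t = Ph g (z1 + t * α) (w1 + t * b) := fun t => by
    rw [Ph_eq h0, hf, hL1, hL2, hKd, hmd]
  rw [hfe, hfe, hfe] at hmid
  simp only [smul_eq_mul] at hmid
  have a1 : z1 + (1 / 2 * 0 + 1 / 2 * 1) * α = (z1 + z2) / 2 := by rw [hα]; ring
  have a2 : w1 + (1 / 2 * 0 + 1 / 2 * 1) * b = (w1 + w2) / 2 := by rw [hb]; ring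
  have a3 : z1 + 0 * α = z1 := by ring
  have a4 : w1 + 0 * b = w1 := by ring
  have a5 : z1 + 1 * α = z2 := by rw [hα]; ring
  have a6 : w1 + 1 * b = w2 := by rw [hb]; ring
  rw [a1, a2, a3, a4, a5, a6] at hmid
  linarith

end Pool.Agent.Helper15.Thomson
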