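import Pool.Agent.Helper15.Thomson.LogConv
import Pool.Agent.Helper15.Thomson.Energy

/-!
The energy of a pole and two rings, in logarithmic coordinates: strict joint convexity and
existence of the minimum.
-/

namespace Pool.Agent.Helper15.Thomson

open Finset

/-- `a` is at most the geometric mean of `b` and `c`. -/
def LC (a b c : ℝ) : Prop := 0 ≤ a ∧ 0 ≤ b ∧ 0 ≤ c ∧ a ^ 2 ≤ b * c

theorem LC.add {a b c a' b' c' : ℝ} (h : LC a b c) (h' : LC a' b' c') :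
    LC (a + a') (b + b') (c + c') := by
  obtain ⟨ha, hb, hc, h1⟩ := h
  obtain ⟨ha', hb', hc', h2⟩ := h'
  refine ⟨by linarith, by linarith, by linarith, ?_⟩
  have h3 : a ^ 2 * a' ^ 2 ≤ (b * c) * (b' * c') :=
    mul_le_mul h1 h2 (sq_nonneg _) (mul_nonneg hb hc)
  have h4 : (2 * (a * a')) ^ 2 ≤ (b * c' + b' * c) ^ 2 := by
    nlinarith [sq_nonneg (b * c' - b' * c)]
  have h5 : 2 * (a * a') ≤ b * c' + b' * c := by
    apply (sq_le_sq₀ (by positivity) (by positivity)).1 h4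
  nlinarith

theorem LC.mul {a b c a' b' c' : ℝ} (h : LC a b c) (h' : LC a' b' c') :
    LC (a * a') (b * b') (c * c') := by
  obtain ⟨ha, hb, hc, h1⟩ := h
  obtain ⟨ha', hb', hc', h2⟩ := h'
  refine ⟨by positivity, by positivity, by positivity, ?_⟩
  have h3 : a ^ 2 * a' ^ 2 ≤ (b * c) * (b' * c') :=
    mul_le_mul h1 h2 (sq_nonneg _) (mul_nonneg hb hc)
  nlinarith

theorem LC.sqrt {a b c : ℝ} (h : LC a b c) : LC (Real.sqrt a) (Real.sqrt b) (Real.sqrt c) := by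
  obtain ⟨ha, hb, hc, h1⟩ := h
  refine ⟨Real.sqrt_nonneg _, Real.sqrt_nonneg _, Real.sqrt_nonneg _, ?_⟩
  rw [Real.sq_sqrt ha, ← Real.sqrt_mul hb]
  exact Real.le_sqrt_of_sq_le h1

theorem LC.const {c : ℝ} (h : 0 ≤ c) : LC c c c := ⟨h, h, h, by rw [sq]⟩

theorem LC.exp (u v : ℝ) : LC (Real.exp ((u + v) / 2)) (Real.exp u) (Real.exp v) := by
  refine ⟨(Real.exp_pos _).le, (Real.exp_pos _).le, (Real.exp_pos _).le, ?_⟩
  rw [← Real.exp_add, ← Real.exp_nat_mul]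
  apply le_of_eq
  congr 1
  push_cast
  ring

theorem LC.cosh (u v : ℝ) : LC (Real.cosh ((u + v) / 2)) (Real.cosh u) (Real.cosh v) := by
  have h1 := LC.exp u v
  have h2 := LC.exp (-u) (-v)
  have h3 := (h1.add h2).mul (LC.const (show (0 : ℝ) ≤ 1 / 2 by norm_num))
  rw [show (-u + -v) / 2 = -((u + v) / 2) by ring] at h3
  rw [Real.cosh_eq, Real.cosh_eq, Real.cosh_eq]
  convert h3 using 1 <;> ring

theorem LC.mid {a b c : ℝ} (h : LC a b c) : a ≤ (b + c) / 2 := by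
  obtain ⟨ha, hb, hc, h1⟩ := h
  apply (sq_le_sq₀ ha (by positivity)).1
  nlinarith [sq_nonneg (b - c)]

theorem LC.inv_sub {κ w1 w2 : ℝ} (hκ : 0 ≤ κ) (hκ1 : κ < 1) (h1 : 0 ≤ w1) (h2 : 0 ≤ w2) :
    LC ((Real.exp ((w1 + w2) / 2) - κ)⁻¹) ((Real.exp w1 - κ)⁻¹) ((Real.exp w2 - κ)⁻¹) := by
  have e1 := Real.one_le_exp h1
  have e2 := Real.one_le_exp h2
  have e3 := Real.one_le_exp (show 0 ≤ (w1 + w2) / 2 by linarith)
  have hm := (LC.exp w1 w2).mid
  have heq : Real.exp ((w1 + w2) / 2) ^ 2 = Real.exp w1 * Real.exp w2 := by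
    rw [← Real.exp_add, ← Real.exp_nat_mul]
    congr 1
    push_cast
    ring
  refine ⟨inv_nonneg.2 (by linarith), inv_nonneg.2 (by linarith), inv_nonneg.2 (by linarith), ?_⟩
  rw [inv_pow, ← mul_inv]
  apply inv_anti₀ (mul_pos (by linarith) (by linarith))
  nlinarith

/-- The energy of the pole and the two rings -/
noncomputable def eT (z w : ℝ) : ℝ :=
  Real.sqrt (2 + 2 * Real.exp (z + w) +
    2 * Real.sqrt (1 + 2 * Real.exp (z + w) + Real.exp (2 * z)))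

theorem eT_mid (z1 z2 w1 w2 : ℝ) :
    eT ((z1 + z2) / 2) ((w1 + w2) / 2) ≤ (eT z1 w1 + eT z2 w2) / 2 := by
  have h1 := LC.exp (z1 + w1) (z2 + w2)
  have h2 := LC.exp (2 * z1) (2 * z2)
  rw [show (z1 + w1 + (z2 + w2)) / 2 = (z1 + z2) / 2 + (w1 + w2) / 2 by ring] at h1
  rw [show (2 * z1 + 2 * z2) / 2 = 2 * ((z1 + z2) / 2) by ring] at h2
  have c1 := LC.const (show (0 : ℝ) ≤ 1 by norm_num)
  have c2 := LC.const (show (0 : ℝ) ≤ 2 by norm_num)
  exact (((c2.add (c2.mul h1)).add (c2.mul ((c1.add (c2.mul h1)).add h2).sqrt)).sqrt).mid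

noncomputable def eH (z w : ℝ) : ℝ := Real.sqrt ((Real.cosh z + 1) * (Real.exp w + 1))

theorem eH_mid (z1 z2 w1 w2 : ℝ) :
    eH ((z1 + z2) / 2) ((w1 + w2) / 2) ≤ (eH z1 w1 + eH z2 w2) / 2 := by
  have c1 := LC.const (show (0 : ℝ) ≤ 1 by norm_num)
  exact ((((LC.cosh z1 z2).add c1).mul ((LC.exp w1 w2).add c1)).sqrt).mid

theorem cosh_strict {a b : ℝ} (h : a ≠ b) :
    Real.cosh ((a + b) / 2) ^ 2 < Real.cosh a * Real.cosh b := by
  obtain ⟨s, hs⟩ : ∃ s, s = (a + b) / 2 := ⟨_, rfl⟩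
  obtain ⟨d, hd⟩ : ∃ d, d = (a - b) / 2 := ⟨_, rfl⟩
  have ha : a = s + d := by rw [hs, hd]; ring
  have hb : b = s - d := by rw [hs, hd]; ring
  have hd0 : d ≠ 0 := by
    intro h0
    apply h
    rw [ha, hb, h0]
    ring
  have h1 := Real.cosh_sq s
  have h2 := Real.cosh_sq d
  have h3 : 0 < Real.sinh d ^ 2 := by
    have : Real.sinh d ≠ 0 := fun h0 => hd0 (Real.sinh_eq_zero.1 h0)
    positivity
  rw [← hs, ha, hb, Real.cosh_add, Real.cosh_sub]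
  nlinarith

theorem eH_strict {z1 z2 w1 w2 : ℝ} (h : z1 ≠ z2 ∨ w1 ≠ w2) :
    eH ((z1 + z2) / 2) ((w1 + w2) / 2) < (eH z1 w1 + eH z2 w2) / 2 := by
  have c1 := LC.const (show (0 : ℝ) ≤ 1 by norm_num)
  have hA := (LC.cosh z1 z2).add c1
  have hB := (LC.exp w1 w2).add c1
  have hA0 : 0 < Real.cosh ((z1 + z2) / 2) + 1 := by positivity
  have hB0 : 0 < Real.exp ((w1 + w2) / 2) + 1 := by positivity
  have hA1 : 0 < Real.cosh z1 + 1 := by positivity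
  have hA2 : 0 < Real.cosh z2 + 1 := by positivity
  have hB1 : 0 < Real.exp w1 + 1 := by positivity
  have hB2 : 0 < Real.exp w2 + 1 := by positivity
  have key : ((Real.cosh ((z1 + z2) / 2) + 1) * (Real.exp ((w1 + w2) / 2) + 1)) ^ 2 <
      ((Real.cosh z1 + 1) * (Real.exp w1 + 1)) * ((Real.cosh z2 + 1) * (Real.exp w2 + 1)) := by
    have e1 : ((Real.cosh ((z1 + z2) / 2) + 1) * (Real.exp ((w1 + w2) / 2) + 1)) ^ 2 =
      (Real.cosh ((z1 + z2) / 2) + 1) ^ 2 * (Real.exp ((w1 + w2) / 2) + 1) ^ 2 := by ring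
    have e2 : ((Real.cosh z1 + 1) * (Real.exp w1 + 1)) * ((Real.cosh z2 + 1) * (Real.exp w2 + 1)) =
      ((Real.cosh z1 + 1) * (Real.cosh z2 + 1)) * ((Real.exp w1 + 1) * (Real.exp w2 + 1)) := by
      ring
    rw [e1, e2]
    rcases h with h | h
    · have h1 := cosh_strict h
      have h2 := (LC.cosh z1 z2).mid
      apply mul_lt_mul (by nlinarith) hB.2.2.2 (by positivity) (by positivity)
    · have h1 : Real.exp ((w1 + w2) / 2) < (Real.exp w1 + Real.exp w2) / 2 := by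
        have e3 : Real.exp w1 = Real.exp ((w1 + w2) / 2) * Real.exp ((w1 - w2) / 2) := by
          rw [← Real.exp_add]; congr 1; ring
        have e4 : Real.exp w2 = Real.exp ((w1 + w2) / 2) * Real.exp (-((w1 - w2) / 2)) := by
          rw [← Real.exp_add]; congr 1; ring
        have e5 : 1 < Real.cosh ((w1 - w2) / 2) := Real.one_lt_cosh.2 (by
          intro h0; apply h; linarith)
        rw [Real.cosh_eq] at e5
        have := Real.exp_pos ((w1 + w2) / 2)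
        nlinarith
      have h2 := (LC.exp w1 w2).2.2.2
      apply mul_lt_mul' hA.2.2.2 (by nlinarith) (by positivity) (by positivity)
  have h1 : Real.sqrt ((Real.cosh ((z1 + z2) / 2) + 1) * (Real.exp ((w1 + w2) / 2) + 1)) ^ 2 <
      ((Real.sqrt ((Real.cosh z1 + 1) * (Real.exp w1 + 1)) +
        Real.sqrt ((Real.cosh z2 + 1) * (Real.exp w2 + 1))) / 2) ^ 2 := by
    rw [Real.sq_sqrt (by positivity)]
    have h2 := Real.lt_sqrt_of_sq_lt key
    rw [Real.sqrt_mul (show 0 ≤ (Real.cosh z1 + 1) * (Real.exp w1 + 1) by positivity)] at h2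
    refine h2.trans_le ?_
    nlinarith [sq_nonneg (Real.sqrt ((Real.cosh z1 + 1) * (Real.exp w1 + 1)) -
      Real.sqrt ((Real.cosh z2 + 1) * (Real.exp w2 + 1)))]
  exact lt_of_pow_lt_pow_left₀ 2
    (div_nonneg (add_nonneg (Real.sqrt_nonneg _) (Real.sqrt_nonneg _)) (by norm_num)) h1

noncomputable def eG (κ z w : ℝ) : ℝ :=
  Real.sqrt ((Real.cosh z + Real.exp w) / (Real.exp w - κ))

theorem eG_mid {κ : ℝ} (hκ : κ < 1) (hκ1 : -1 ≤ κ) {z1 z2 w1 w2 : ℝ} (hw1 : 0 ≤ w1)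
    (hw2 : 0 ≤ w2) :
    eG κ ((z1 + z2) / 2) ((w1 + w2) / 2) + 3 / 10 * eH ((z1 + z2) / 2) ((w1 + w2) / 2) ≤
      ((eG κ z1 w1 + 3 / 10 * eH z1 w1) + (eG κ z2 w2 + 3 / 10 * eH z2 w2)) / 2 := by
  rcases le_total 0 κ with h | h
  · have h1 := ((((LC.cosh z1 z2).add (LC.exp w1 w2)).mul (LC.inv_sub h hκ hw1 hw2)).sqrt).mid
    have h2 := eH_mid z1 z2 w1 w2
    rw [← div_eq_mul_inv, ← div_eq_mul_inv, ← div_eq_mul_inv] at h1
    unfold eG
    linarith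
  · have := Ph_mid (g := -κ) (by linarith) (by linarith) (z1 := z1) (z2 := z2) hw1 hw2
    unfold Ph at this
    rw [← sub_eq_add_neg, ← sub_eq_add_neg, ← sub_eq_add_neg] at this
    exact this

/-- the energy -/
noncomputable def eE (e B : ℝ) (k : ℕ) (κ : ℕ → ℝ) (z w : ℝ) : ℝ :=
  e + k / 2 * eT z w + B / 2 * eH z w + k / 2 * ∑ j ∈ range k, eG (κ j) z w

theorem eE_strict {e B : ℝ} {k : ℕ} {κ : ℕ → ℝ} (hk : 3 ≤ k) (hB : (k : ℝ) * (k - 1) / 2 ≤ B)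
    (hκ : ∀ j, κ j < 1) (hκ1 : ∀ j, -1 ≤ κ j) {z1 z2 w1 w2 : ℝ} (hw1 : 0 ≤ w1) (hw2 : 0 ≤ w2)
    (h : z1 ≠ z2 ∨ w1 ≠ w2) :
    eE e B k κ ((z1 + z2) / 2) ((w1 + w2) / 2) < (eE e B k κ z1 w1 + eE e B k κ z2 w2) / 2 := by
  have hk3 : (3 : ℝ) ≤ k := by exact_mod_cast hk
  have hT := eT_mid z1 z2 w1 w2
  have hH := eH_strict h
  have hG : ∑ j ∈ range k, (eG (κ j) ((z1 + z2) / 2) ((w1 + w2) / 2) +
      3 / 10 * eH ((z1 + z2) / 2) ((w1 + w2) / 2)) ≤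
      ∑ j ∈ range k, ((eG (κ j) z1 w1 + 3 / 10 * eH z1 w1) +
        (eG (κ j) z2 w2 + 3 / 10 * eH z2 w2)) / 2 :=
    Finset.sum_le_sum fun j _ => eG_mid (hκ j) (hκ1 j) hw1 hw2
  rw [← Finset.sum_div, Finset.sum_add_distrib, Finset.sum_add_distrib, Finset.sum_add_distrib,
    Finset.sum_add_distrib, Finset.sum_const, Finset.sum_const, Finset.sum_const,
    Finset.card_range, nsmul_eq_mul, nsmul_eq_mul, nsmul_eq_mul] at hG
  have hc : 0 < B / 2 - 3 / 20 * k ^ 2 := by nlinarith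
  have a1 := mul_le_mul_of_nonneg_left hT (show (0 : ℝ) ≤ k / 2 by positivity)
  have a2 := mul_lt_mul_of_pos_left hH hc
  have a3 := mul_le_mul_of_nonneg_left hG (show (0 : ℝ) ≤ k / 2 by positivity)
  unfold eE
  nlinarith

end Pool.Agent.Helper15.Thomson
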