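import Pool.Agent.Helper15.Thomson.Log

/-!
The second derivative of the mutual energy of two rings along a line is bounded below.
-/

namespace Pool.Agent.Helper15.Thomson

theorem raw_one {K m g S α b : ℝ} (hK : 1 ≤ K) (hm : 1 ≤ m) (h0 : 0 ≤ g)
    (hS : S ^ 2 = K ^ 2 - 1) :
    4 * (K + m) ^ 2 * (m + g) ^ 2 * ((((α * S + b * m) / (K + m) - (b * m) / (m + g)) ^ 2) / 4 +
      ((α ^ 2 * K + b ^ 2 * m) / (K + m) - ((α * S + b * m) / (K + m)) ^ 2 -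
        ((b ^ 2 * m) / (m + g) - ((b * m) / (m + g)) ^ 2)) / 2) =
    (K ^ 2 + 2 * K * m + 1) * (m + g) ^ 2 * α ^ 2 -
      2 * S * m * (m + g) * ((m + g) + (K + m)) * α * b +
      ((K ^ 2 + 2 * K * m) * (m + g) ^ 2 + 2 * (K + m) * m * g * (m + g) -
          4 * g * (K + m) ^ 2 * (m + g) + 3 * g ^ 2 * (K + m) ^ 2) * b ^ 2 := by
  have hN : K + m ≠ 0 := by linarith
  have hD : m + g ≠ 0 := by linarith
  have e : 4 * (K + m) ^ 2 * (m + g) ^ 2 * ((((α * S + b * m) / (K + m) -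
      (b * m) / (m + g)) ^ 2) / 4 +
      ((α ^ 2 * K + b ^ 2 * m) / (K + m) - ((α * S + b * m) / (K + m)) ^ 2 -
        ((b ^ 2 * m) / (m + g) - ((b * m) / (m + g)) ^ 2)) / 2) +
      (m + g) ^ 2 * α ^ 2 * (S ^ 2 - (K ^ 2 - 1)) =
    (K ^ 2 + 2 * K * m + 1) * (m + g) ^ 2 * α ^ 2 -
      2 * S * m * (m + g) * ((m + g) + (K + m)) * α * b +
      ((K ^ 2 + 2 * K * m) * (m + g) ^ 2 + 2 * (K + m) * m * g * (m + g) -
          4 * g * (K + m) ^ 2 * (m + g) + 3 * g ^ 2 * (K + m) ^ 2) * b ^ 2 := by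
    field_simp
    ring
  rw [hS, sub_self, mul_zero, add_zero] at e
  exact e

theorem raw_two {K m S α b : ℝ} (hK : 1 ≤ K) (hm : 1 ≤ m) (hS : S ^ 2 = K ^ 2 - 1) :
    4 * (K + 1) * (m + 1) ^ 2 * (((α * S / (K + 1) + b * m / (m + 1)) ^ 2) / 4 +
      (α ^ 2 * K / (K + 1) - (α * S / (K + 1)) ^ 2 +
        (b ^ 2 * m / (m + 1) - (b * m / (m + 1)) ^ 2)) / 2) =
    (K + 1) * (m + 1) ^ 2 * α ^ 2 + 2 * S * m * (m + 1) * α * b +
      m * (m + 2) * (K + 1) * b ^ 2 := by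
  have hN : K + 1 ≠ 0 := by linarith
  have hD : m + 1 ≠ 0 := by linarith
  have e : 4 * (K + 1) * (m + 1) ^ 2 * (((α * S / (K + 1) + b * m / (m + 1)) ^ 2) / 4 +
      (α ^ 2 * K / (K + 1) - (α * S / (K + 1)) ^ 2 +
        (b ^ 2 * m / (m + 1) - (b * m / (m + 1)) ^ 2)) / 2) +
      (m + 1) ^ 2 * α ^ 2 / (K + 1) * (S ^ 2 - (K ^ 2 - 1)) =
    (K + 1) * (m + 1) ^ 2 * α ^ 2 + 2 * S * m * (m + 1) * α * b +
      m * (m + 2) * (K + 1) * b ^ 2 := by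
    field_simp
    ring
  rw [hS, sub_self, mul_zero, add_zero] at e
  exact e

/-- a quadratic form is nonnegative if its first entry is positive and its determinant is
nonnegative -/
theorem quad_nonneg {p q r α b : ℝ} (hp : 0 < p) (hd : 0 ≤ p * r - q ^ 2) :
    0 ≤ p * α ^ 2 + 2 * q * α * b + r * b ^ 2 := by
  have h : p * (p * α ^ 2 + 2 * q * α * b + r * b ^ 2) =
      (p * α + q * b) ^ 2 + (p * r - q ^ 2) * b ^ 2 := by ring
  have h2 : 0 ≤ p * (p * α ^ 2 + 2 * q * α * b + r * b ^ 2) := by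
    rw [h]
    positivity
  exact nonneg_of_mul_nonneg_right h2 hp

theorem det_nonneg {K m g S : ℝ} (hK : 1 ≤ K) (hm : 1 ≤ m) (h0 : 0 ≤ g) (h1 : g ≤ 1)
    (hS : S ^ 2 = K ^ 2 - 1) :
    0 ≤ (((K ^ 2 + 2 * K * m + 1) * (m + g) ^ 2 * (m + 1) ^ 2 +
        3 / 10 * ((m + g) * (K + m)) * (m + g) ^ 2 * ((K + 1) * (m + 1) ^ 2)) *
      (((K ^ 2 + 2 * K * m) * (m + g) ^ 2 + 2 * (K + m) * m * g * (m + g) -
          4 * g * (K + m) ^ 2 * (m + g) + 3 * g ^ 2 * (K + m) ^ 2) * (m + 1) ^ 2 +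
        3 / 10 * ((m + g) * (K + m)) * (m + g) ^ 2 * (m * (m + 2) * (K + 1))) -
      (-(S * m * (m + g) * ((m + g) + (K + m))) * (m + 1) ^ 2 +
        3 / 10 * ((m + g) * (K + m)) * (m + g) ^ 2 * (S * m * (m + 1))) ^ 2) := by
  have hl := lead_id K m g
  have ht := tot_nonneg hK hm h0 h1
  obtain ⟨d, hd⟩ : ∃ d, d = (K ^ 2 + 2 * K * m) * (m + g) ^ 2 + 2 * (K + m) * m * g * (m + g) -
          4 * g * (K + m) ^ 2 * (m + g) + 3 * g ^ 2 * (K + m) ^ 2 := ⟨_, rfl⟩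
  obtain ⟨q, hq⟩ : ∃ q, q = (K + 2 * m) * (m + g) ^ 2 -
      g * (K + m) * (m + g) * (K * (K + 2 * m) + 3) +
        g ^ 2 * (K + m) * (K ^ 2 + 3 * m * K + 2) := ⟨_, rfl⟩
  rw [← hd, ← hq] at hl ht
  rw [← hd]
  have hN : 0 < K + m := by linarith
  have hD : 0 < m + g := by linarith
  obtain ⟨D, hDD⟩ : ∃ D, D = m + g := ⟨_, rfl⟩
  obtain ⟨N, hNN⟩ : ∃ N, N = K + m := ⟨_, rfl⟩
  rw [← hDD, ← hNN] at hl ht ⊢
  rw [← hDD] at hD
  rw [← hNN] at hN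
  have key : (((K ^ 2 + 2 * K * m + 1) * D ^ 2 * (m + 1) ^ 2 +
        3 / 10 * (D * N) * D ^ 2 * ((K + 1) * (m + 1) ^ 2)) *
      (d * (m + 1) ^ 2 + 3 / 10 * (D * N) * D ^ 2 * (m * (m + 2) * (K + 1))) -
      (-(S * m * D * (D + N)) * (m + 1) ^ 2 +
        3 / 10 * (D * N) * D ^ 2 * (S * m * (m + 1))) ^ 2) =
      D ^ 2 * (m + 1) ^ 2 * (N * ((20 * q * (m + 1) ^ 2 +
        3 * (K + 1) * D * ((K ^ 2 + 2 * K * m + 1) * m * (m + 2) * D ^ 2 + d * (m + 1) ^ 2 +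
        2 * (K - 1) * m * (m + 1) * (m * D ^ 2 + N * m * D))) / 10) +
      9 / 100 * D ^ 4 * N ^ 2 * (K + 1) * m * (2 * K + 2 * m + 2)) := by
    have h2 : (-(S * m * D * (D + N)) * (m + 1) ^ 2 +
        3 / 10 * (D * N) * D ^ 2 * (S * m * (m + 1))) ^ 2 =
        (K ^ 2 - 1) * (m * D * (m + 1) * (-(D + N) * (m + 1) + 3 / 10 * D ^ 2 * N)) ^ 2 := by
      rw [← hS]
      ring
    rw [h2]
    linear_combination (D ^ 2 * (m + 1) ^ 4) * hl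
  rw [key]
  have hK1 : 0 ≤ K := by linarith
  have hm1 : 0 ≤ m := by linarith
  positivity

theorem form_nonneg {K m g S α b F1 F2 : ℝ} (hK : 1 ≤ K) (hm : 1 ≤ m) (h0 : 0 ≤ g) (h1 : g ≤ 1)
    (hS : S ^ 2 = K ^ 2 - 1) (hF1 : 0 < F1)
    (hF : 3 / 10 * ((K + 1) * (m + g) * (K + m)) * F1 ≤ F2 * (K + m) ^ 2) :
    0 ≤ F1 * ((((α * S + b * m) / (K + m) - (b * m) / (m + g)) ^ 2) / 4 +
      ((α ^ 2 * K + b ^ 2 * m) / (K + m) - ((α * S + b * m) / (K + m)) ^ 2 -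
        ((b ^ 2 * m) / (m + g) - ((b * m) / (m + g)) ^ 2)) / 2) +
      F2 * (((α * S / (K + 1) + b * m / (m + 1)) ^ 2) / 4 +
      (α ^ 2 * K / (K + 1) - (α * S / (K + 1)) ^ 2 +
        (b ^ 2 * m / (m + 1) - (b * m / (m + 1)) ^ 2)) / 2) := by
  have e1 := raw_one (α := α) (b := b) hK hm h0 hS
  have e2 := raw_two (α := α) (b := b) hK hm hS
  have hd := det_nonneg hK hm h0 h1 hS
  obtain ⟨R1, hR1⟩ : ∃ R1, R1 = ((((α * S + b * m) / (K + m) - (b * m) / (m + g)) ^ 2) / 4 +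
      ((α ^ 2 * K + b ^ 2 * m) / (K + m) - ((α * S + b * m) / (K + m)) ^ 2 -
        ((b ^ 2 * m) / (m + g) - ((b * m) / (m + g)) ^ 2)) / 2) := ⟨_, rfl⟩
  obtain ⟨R2, hR2⟩ : ∃ R2, R2 = (((α * S / (K + 1) + b * m / (m + 1)) ^ 2) / 4 +
      (α ^ 2 * K / (K + 1) - (α * S / (K + 1)) ^ 2 +
        (b ^ 2 * m / (m + 1) - (b * m / (m + 1)) ^ 2)) / 2) := ⟨_, rfl⟩
  rw [← hR1] at e1 ⊢
  rw [← hR2] at e2 ⊢
  have hN : 0 < K + m := by linarith
  have hD : 0 < m + g := by linarith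
  have hK1 : 0 < K + 1 := by linarith
  have hm1 : 0 < m + 1 := by linarith
  have hK0 : 0 < K := by linarith
  have hm0 : 0 < m := by linarith
  -- `R2 ≥ 0`
  have hR2n : 0 ≤ R2 := by
    have h3 : 0 ≤ 4 * (K + 1) * (m + 1) ^ 2 * R2 := by
      rw [e2]
      have := quad_nonneg (p := (K + 1) * (m + 1) ^ 2) (q := S * m * (m + 1))
        (r := m * (m + 2) * (K + 1)) (α := α) (b := b) (by positivity) (by
          have : (K + 1) * (m + 1) ^ 2 * (m * (m + 2) * (K + 1)) - (S * m * (m + 1)) ^ 2 =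
            (m + 1) ^ 2 * m * ((K + 1) * (2 * K + 2 * m + 2)) := by
            rw [mul_pow, mul_pow, hS]
            ring
          rw [this]
          positivity)
      linarith
    exact nonneg_of_mul_nonneg_right h3 (by positivity)
  -- the combination
  have hcomb : 0 ≤ (K + m) ^ 2 * R1 + 3 / 10 * ((K + 1) * (m + g) * (K + m)) * R2 := by
    have h3 : 0 ≤ 4 * (m + g) ^ 2 * (m + 1) ^ 2 *
        ((K + m) ^ 2 * R1 + 3 / 10 * ((K + 1) * (m + g) * (K + m)) * R2) := by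
      have h4 : 4 * (m + g) ^ 2 * (m + 1) ^ 2 *
        ((K + m) ^ 2 * R1 + 3 / 10 * ((K + 1) * (m + g) * (K + m)) * R2) =
        (m + 1) ^ 2 * (4 * (K + m) ^ 2 * (m + g) ^ 2 * R1) +
        3 / 10 * ((m + g) * (K + m)) * (m + g) ^ 2 * (4 * (K + 1) * (m + 1) ^ 2 * R2) := by ring
      rw [h4, e1, e2]
      have := quad_nonneg (α := α) (b := b) (p := (K ^ 2 + 2 * K * m + 1) * (m + g) ^ 2 *
        (m + 1) ^ 2 + 3 / 10 * ((m + g) * (K + m)) * (m + g) ^ 2 * ((K + 1) * (m + 1) ^ 2))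
        (by positivity) hd
      refine this.trans (le_of_eq ?_)
      ring
    exact nonneg_of_mul_nonneg_right h3 (by positivity)
  have h5 := mul_le_mul_of_nonneg_right hF hR2n
  have h6 : 0 ≤ (K + m) ^ 2 * (F1 * R1 + F2 * R2) := by
    have h7 := mul_nonneg hF1.le hcomb
    linarith
  exact nonneg_of_mul_nonneg_right h6 (by positivity)

end Pool.Agent.Helper15.Thomson
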