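import Pool.Agent.Helper15.Thomson.LogEnergy

/-!
Existence of the minimum of the energy of a pole and two rings.
-/

namespace Pool.Agent.Helper15.Thomson

open Finset

theorem eH_ge (z : ℝ) {w : ℝ} (hw : 0 ≤ w) : |z| / 2 ≤ eH z w ∧ w / 2 ≤ eH z w := by
  have h1 : Real.exp |z| / 2 ≤ Real.cosh z := by
    rw [← Real.cosh_abs z, Real.cosh_eq]
    linarith [Real.exp_pos (-|z|)]
  have h2 : (|z| / 2 + 1) ^ 2 ≤ Real.exp |z| := by
    have h3 := Real.add_one_le_exp (|z| / 2)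
    have h4 : Real.exp |z| = Real.exp (|z| / 2) ^ 2 := by
      rw [← Real.exp_nat_mul]; congr 1; push_cast; ring
    rw [h4]
    exact pow_le_pow_left₀ (by positivity) h3 2
  have h5 := Real.one_le_exp hw
  have h6 : (w / 2 + 1) ^ 2 ≤ Real.exp w := by
    have h3 := Real.add_one_le_exp (w / 2)
    have h4 : Real.exp w = Real.exp (w / 2) ^ 2 := by
      rw [← Real.exp_nat_mul]; congr 1; push_cast; ring
    rw [h4]
    exact pow_le_pow_left₀ (by positivity) h3 2
  have h7 := Real.one_le_cosh z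
  constructor
  · apply Real.le_sqrt_of_sq_le
    have h8 : (|z| / 2) ^ 2 ≤ Real.exp |z| := by nlinarith [abs_nonneg z]
    nlinarith
  · apply Real.le_sqrt_of_sq_le
    nlinarith

theorem eE_cont {e B : ℝ} {k : ℕ} {κ : ℕ → ℝ} (hκ : ∀ j, κ j < 1) :
    ContinuousOn (fun p : ℝ × ℝ => eE e B k κ p.1 p.2) {p | 0 ≤ p.2} := by
  unfold eE
  refine ContinuousOn.add (ContinuousOn.add (ContinuousOn.add continuousOn_const ?_) ?_) ?_
  · unfold eT
    exact Continuous.continuousOn (by fun_prop)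
  · unfold eH
    have : Continuous fun p : ℝ × ℝ => B / 2 * Real.sqrt ((Real.cosh p.1 + 1) *
        (Real.exp p.2 + 1)) := by
      have h1 : Continuous fun p : ℝ × ℝ => Real.cosh p.1 := Real.continuous_cosh.comp continuous_fst
      fun_prop
    exact this.continuousOn
  · refine continuousOn_const.mul (continuousOn_finsetSum _ fun j _ => ?_)
    unfold eG
    refine ContinuousOn.sqrt (ContinuousOn.div ?_ ?_ ?_)
    · have h1 : Continuous fun p : ℝ × ℝ => Real.cosh p.1 := Real.continuous_cosh.comp continuous_fst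
      exact Continuous.continuousOn (by fun_prop)
    · exact Continuous.continuousOn (by fun_prop)
    · intro p hp
      have := Real.one_le_exp (show 0 ≤ p.2 from hp)
      have := hκ j
      exact (by linarith : 0 < Real.exp p.2 - κ j).ne'

theorem eE_min {e B : ℝ} {k : ℕ} {κ : ℕ → ℝ} (he : 0 ≤ e) (hB : 0 < B) (hκ : ∀ j, κ j < 1) :
    ∃ z0 w0, 0 ≤ w0 ∧ ∀ z w, 0 ≤ w → eE e B k κ z0 w0 ≤ eE e B k κ z w := by
  have hlow : ∀ z w, B / 2 * eH z w ≤ eE e B k κ z w := by
    intro z w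
    unfold eE
    have h1 : 0 ≤ (k : ℝ) / 2 * eT z w := mul_nonneg (by positivity) (Real.sqrt_nonneg _)
    have h2 : 0 ≤ (k : ℝ) / 2 * ∑ j ∈ range k, eG (κ j) z w :=
      mul_nonneg (by positivity) (Finset.sum_nonneg fun j _ => Real.sqrt_nonneg _)
    linarith
  obtain ⟨E0, hE0⟩ : ∃ E0, E0 = eE e B k κ 0 0 := ⟨_, rfl⟩
  have hE0n : 0 ≤ E0 := by
    rw [hE0]
    exact (mul_nonneg (by positivity) (Real.sqrt_nonneg _)).trans (hlow 0 0)
  obtain ⟨R, hR⟩ : ∃ R, R = 4 * E0 / B := ⟨_, rfl⟩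
  have hR0 : 0 ≤ R := by rw [hR]; positivity
  have hBR : B / 2 * (R / 2) = E0 := by rw [hR]; field_simp; ring
  obtain ⟨K, hK⟩ : ∃ K : Set (ℝ × ℝ), K = Set.Icc (-R) R ×ˢ Set.Icc 0 R := ⟨_, rfl⟩
  have hKc : IsCompact K := by
    rw [hK]
    exact isCompact_Icc.prod isCompact_Icc
  have h0K : ((0 : ℝ), (0 : ℝ)) ∈ K := by
    rw [hK]
    exact ⟨⟨by linarith, hR0⟩, ⟨le_rfl, hR0⟩⟩
  have hsub : K ⊆ {p | 0 ≤ p.2} := by
    intro p hp
    rw [hK] at hp
    exact hp.2.1
  obtain ⟨p, hp, hmin⟩ := hKc.exists_isMinOn ⟨_, h0K⟩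
    ((eE_cont (e := e) (B := B) (k := k) hκ).mono hsub)
  refine ⟨p.1, p.2, hsub hp, fun z w hw => ?_⟩
  by_cases h : (z, w) ∈ K
  · exact hmin h
  · have h2 : eE e B k κ p.1 p.2 ≤ E0 := by
      rw [hE0]
      exact hmin h0K
    refine h2.trans (le_trans ?_ (hlow z w))
    rw [← hBR]
    apply mul_le_mul_of_nonneg_left _ (by positivity)
    obtain ⟨g1, g2⟩ := eH_ge z hw
    by_cases hz : |z| ≤ R
    · have hwR : R < w := by
        by_contra hcon
        push Not at hcon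
        apply h
        rw [hK]
        exact ⟨abs_le.1 hz, hw, hcon⟩
      linarith
    · push Not at hz
      linarith

end Pool.Agent.Helper15.Thomson
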