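import Pool.Agent.Helper15.Thomson.Exist

/-!
Existence and uniqueness of the minimisers with an axis: the cases other than one pole and two
rings.
-/

namespace Pool.Agent.Helper15.Thomson

open Finset

/-- `X` has least energy among the `n`-point configurations with an axis of order `k`. -/
def IsMinAxis (n k : ℕ) (X : Finset E3) : Prop :=
  IsConfig n X ∧ HasAxis k X ∧ ∀ Y, IsConfig n Y → HasAxis k Y → energy X ≤ energy Y

theorem IsMinAxis.of_eqv {n k : ℕ} {X Y : Finset E3} (h : Eqv X Y) (hX : IsMinAxis n k X) :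
    IsMinAxis n k Y :=
  ⟨h.isConfig hX.1, hX.2.1.of_eqv h, fun Z hZ hZ' => by
    rw [← h.energy_eq]; exact hX.2.2 Z hZ hZ'⟩

/-- The configurations of the given type are parametrised, up to a decrease of the energy, by
parameters in which the energy is strictly midpoint convex (in a weak sense) and attains its
minimum. -/
def Good (n k p m : ℕ) : Prop :=
  ∃ (S : Type) (N : S → Finset E3) (f : S → ℝ),
    (∀ s, IsConfig n (N s) ∧ HasAxis k (N s) ∧ energy (N s) = f s) ∧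
    (∀ s s', s ≠ s' → ∃ t, f t < (f s + f s') / 2) ∧
    (∀ Z, Std k p m Z → ∃ s, f s ≤ energy Z ∧ (energy Z = f s → Eqv Z (N s))) ∧
    ∃ s0, ∀ s, f s0 ≤ f s

theorem Good.unique {n k p m : ℕ} (hg : Good n k p m) {X Y : Finset E3}
    (hX : IsMinAxis n k X) (hY : IsMinAxis n k Y) (hXs : Std k p m X) (hYs : Std k p m Y) :
    Eqv X Y := by
  obtain ⟨S, N, f, hN, hf, hl, -⟩ := hg
  obtain ⟨s, h1, h2⟩ := hl X hXs
  obtain ⟨s', h1', h2'⟩ := hl Y hYs
  have e1 : energy X ≤ f s := (hN s).2.2 ▸ hX.2.2 _ (hN s).1 (hN s).2.1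
  have e1' : energy Y ≤ f s' := (hN s').2.2 ▸ hY.2.2 _ (hN s').1 (hN s').2.1
  have e2 : energy X = f s := le_antisymm e1 h1
  have e2' : energy Y = f s' := le_antisymm e1' h1'
  have e3 : energy X = energy Y :=
    le_antisymm (hX.2.2 _ hY.1 hY.2.1) (hY.2.2 _ hX.1 hX.2.1)
  by_cases hs : s = s'
  · subst hs
    exact (h2 e2).trans (h2' e2').symm
  · exfalso
    obtain ⟨m, hm⟩ := hf s s' hs
    have e4 : energy X ≤ f m := (hN m).2.2 ▸ hX.2.2 _ (hN m).1 (hN m).2.1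
    linarith

theorem Good.exists {n k p m : ℕ} (hg : Good n k p m)
    (hall : ∀ X, IsConfig n X → HasAxis k X → ∃ X', Eqv X X' ∧ Std k p m X') :
    ∃ X, IsMinAxis n k X := by
  obtain ⟨S, N, f, hN, -, hl, s0, hs0⟩ := hg
  refine ⟨N s0, (hN s0).1, (hN s0).2.1, fun Y hY hY' => ?_⟩
  obtain ⟨Y', h1, h2⟩ := hall Y hY hY'
  obtain ⟨s, hs, -⟩ := hl Y' h2
  rw [(hN s0).2.2, h1.energy_eq]
  exact (hs0 s).trans hs

open Classical in
theorem std_one_config {k : ℕ} (hk : k ≠ 0) {p : ℕ} (hp : p ≤ 2) {w : ℂ} (hw : w ≠ 0) {h : ℝ}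
    (h1 : ‖w‖ ^ 2 + h ^ 2 = 1) :
    IsConfig (p + 1 * k) (poles p ∪ ring k w h) ∧ HasAxis k (poles p ∪ ring k w h) := by
  refine ⟨⟨?_, ?_⟩, ?_⟩
  · rw [Finset.card_union_of_disjoint (disjoint_poles_ring hk p hw h), card_poles hp,
      card_ring hk hw, one_mul]
  · intro x hx
    rw [Finset.mem_union] at hx
    rcases hx with hx | hx
    · exact norm_poles hx
    · exact norm_ring hk hw h1 hx
  · apply Inv0.hasAxis
    intro x hx
    rw [Finset.mem_union] at hx ⊢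
    exact hx.imp (poles_inv0 k p x) (ring_inv0 hk hw h x)

open Classical in
theorem std_two_config {k : ℕ} (hk : k ≠ 0) {p : ℕ} (hp : p ≤ 2) {w w' : ℂ} (hw : w ≠ 0)
    (hw' : w' ≠ 0) {h h' : ℝ} (h1 : ‖w‖ ^ 2 + h ^ 2 = 1) (h2 : ‖w'‖ ^ 2 + h' ^ 2 = 1)
    (hd : Disjoint (ring k w h) (ring k w' h')) :
    IsConfig (p + 2 * k) (poles p ∪ (ring k w h ∪ ring k w' h')) ∧
      HasAxis k (poles p ∪ (ring k w h ∪ ring k w' h')) := by
  refine ⟨⟨?_, ?_⟩, ?_⟩
  · rw [Finset.card_union_of_disjoint, card_poles hp, Finset.card_union_of_disjoint hd,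
      card_ring hk hw, card_ring hk hw']
    · ring
    · rw [Finset.disjoint_union_right]
      exact ⟨disjoint_poles_ring hk p hw h, disjoint_poles_ring hk p hw' h'⟩
  · intro x hx
    rw [Finset.mem_union, Finset.mem_union] at hx
    rcases hx with hx | hx | hx
    · exact norm_poles hx
    · exact norm_ring hk hw h1 hx
    · exact norm_ring hk hw' h2 hx
  · apply Inv0.hasAxis
    intro x hx
    rw [Finset.mem_union, Finset.mem_union] at hx ⊢
    exact hx.imp (poles_inv0 k p x) (Or.imp (ring_inv0 hk hw h x) (ring_inv0 hk hw' h' x))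

theorem ring_congr {k : ℕ} (hk : k ≠ 0) {w w' : ℂ} (hw : w ≠ 0) (hw' : w' ≠ 0) (h : ℝ)
    (e : w ^ k = w' ^ k) : ring k w h = ring k w' h := by
  ext x
  rw [mem_ring hk hw, mem_ring hk hw', e]

open Classical in
theorem map_poles_one (u : ℂ) (hu : ‖u‖ = 1) :
    (poles 1).map (iso u hu 1 (by norm_num)).toEquiv.toEmbedding = poles 1 := by
  rw [poles_one, Finset.map_singleton]
  congr 1
  show iso u hu 1 (by norm_num) (pt 0 1) = _
  rw [iso_pt, mul_zero, one_mul]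

open Classical in
theorem map_poles_even {p : ℕ} (hp : p = 0 ∨ p = 2) (u : ℂ) (hu : ‖u‖ = 1) (s : ℝ)
    (hs : s ^ 2 = 1) : (poles p).map (iso u hu s hs).toEquiv.toEmbedding = poles p := by
  rcases hp with rfl | rfl
  · rw [poles_zero, Finset.map_empty]
  · rw [poles_two, Finset.map_insert, Finset.map_singleton]
    have e : ∀ h : ℝ, (iso u hu s hs).toEquiv.toEmbedding (pt 0 h) = pt 0 (s * h) := by
      intro h
      show iso u hu s hs (pt 0 h) = _
      rw [iso_pt, mul_zero]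
    rw [e, e]
    have h5 : (s - 1) * (s + 1) = 0 := by linear_combination hs
    rcases mul_eq_zero.1 h5 with h6 | h6
    · have : s = 1 := by linarith
      rw [this, one_mul, one_mul]
    · have : s = -1 := by linarith
      rw [this]
      norm_num
      rw [Finset.pair_comm]

/-- the coefficient of the poles -/
noncomputable def mp (p : ℕ) : ℝ := if p = 2 then 1 else 0

theorem mp_nonneg (p : ℕ) : 0 ≤ mp p := by
  unfold mp
  split_ifs <;> norm_num

theorem inter_poles_even {k : ℕ} (hk : k ≠ 0) {p : ℕ} (hp : p = 0 ∨ p = 2) {w : ℂ} (hw : w ≠ 0)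
    {h : ℝ} (h1 : ‖w‖ ^ 2 + h ^ 2 = 1) :
    inter (poles p) (ring k w h) = mp p * k * Real.sqrt (1 / ‖w‖ ^ 2 + 1 / ‖w‖) := by
  rcases hp with rfl | rfl
  · rw [inter_poles_zero]
    simp [mp]
  · rw [inter_poles_two hk hw h1]
    simp [mp]

open Classical in
/-- one ring and no pole or both poles -/
theorem good_one_even {k : ℕ} (hk : 2 ≤ k) {p : ℕ} (hp : p = 0 ∨ p = 2) :
    Good (p + 1 * k) k p 1 := by
  have hk0 : k ≠ 0 := by omega
  have hp2 : p ≤ 2 := by omega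
  have h10 : ‖(1 : ℂ)‖ ^ 2 + (0 : ℝ) ^ 2 = 1 := by simp
  have hB := Bk_pos hk
  have hk' : (0 : ℝ) < k := by positivity
  have key : ∀ Z, Std k p 1 Z → ep p + mp p * k * Real.sqrt (1 / 1 ^ 2 + 1 / 1) + Bk k / 1 / 2 ≤
      energy Z ∧ (energy Z = ep p + mp p * k * Real.sqrt (1 / 1 ^ 2 + 1 / 1) + Bk k / 1 / 2 →
        Eqv Z (poles p ∪ ring k 1 0)) := by
    rintro Z (⟨h, -⟩ | ⟨-, w, h, hw, h1, rfl⟩ | ⟨h, -⟩)
    · omega
    · rw [energy_one hk0 p hw, inter_poles_even hk0 hp hw h1]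
      obtain ⟨r, hr⟩ : ∃ r, r = ‖w‖ := ⟨_, rfl⟩
      have hr0 : 0 < r := hr ▸ norm_pos_iff.2 hw
      rw [← hr] at h1 ⊢
      have hr1 : r ≤ 1 := by nlinarith [sq_nonneg h]
      have a1 : 1 / (1 : ℝ) ^ 2 + 1 / 1 ≤ 1 / r ^ 2 + 1 / r := by
        have b1 : (1 : ℝ) ≤ 1 / r := by rw [le_div_iff₀ hr0]; linarith
        have b2 : (1 : ℝ) ≤ 1 / r ^ 2 := by
          rw [le_div_iff₀ (by positivity)]
          nlinarith
        norm_num
        norm_num at b1 b2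
        linarith
      have a2 := mul_le_mul_of_nonneg_left (Real.sqrt_le_sqrt a1)
        (mul_nonneg (mp_nonneg p) hk'.le)
      have a3 : Bk k / 1 / 2 ≤ Bk k / r / 2 := by
        have := div_le_div_of_nonneg_left hB.le hr0 hr1
        linarith
      refine ⟨by linarith, fun he => ?_⟩
      have a4 : Bk k / r = Bk k / 1 := by linarith
      have a5 : r = 1 := by
        rw [div_eq_div_iff hr0.ne' one_ne_zero] at a4
        have : Bk k * (r - 1) = 0 := by linarith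
        rcases mul_eq_zero.1 this with h' | h'
        · exact absurd h' hB.ne'
        · linarith
      have a6 : h = 0 := by
        rw [a5] at h1
        have : h ^ 2 = 0 := by linarith
        exact pow_eq_zero_iff two_ne_zero |>.1 this
      subst a6
      have hwn : ‖w⁻¹‖ = 1 := by rw [norm_inv, ← hr, a5, inv_one]
      have := eqv_map (poles p ∪ ring k w 0) (iso w⁻¹ hwn 1 (by norm_num))
      rw [Finset.map_union, map_poles_even hp, map_ring, inv_mul_cancel₀ hw, mul_zero] at this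
      exact this
    · omega
  refine ⟨Unit, fun _ => poles p ∪ ring k 1 0,
    fun _ => ep p + mp p * k * Real.sqrt (1 / 1 ^ 2 + 1 / 1) + Bk k / 1 / 2, ?_, ?_,
    fun Z hZ => ⟨(), key Z hZ⟩, ⟨(), fun _ => le_rfl⟩⟩
  · intro _
    obtain ⟨c1, c2⟩ := std_one_config hk0 hp2 (one_ne_zero (α := ℂ)) h10
    refine ⟨c1, c2, ?_⟩
    rw [energy_one hk0 p one_ne_zero, inter_poles_even hk0 hp one_ne_zero h10, norm_one]
  · intro s s' hs
    exact absurd (Subsingleton.elim s s') hs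

open Classical in
/-- one ring and one pole -/
theorem good_one_one {k : ℕ} (hk : 2 ≤ k) : Good (1 + 1 * k) k 1 1 := by
  have hk0 : k ≠ 0 := by omega
  have hB := Bk_pos hk
  have hk' : (0 : ℝ) < k := by positivity
  let S : Type := {h : ℝ // h ^ 2 < 1}
  let r : S → ℝ := fun s => Real.sqrt (1 - s.1 ^ 2)
  have hr0 : ∀ s, 0 < r s := fun s => Real.sqrt_pos.2 (by linarith [s.2])
  have hrC : ∀ s, ((r s : ℝ) : ℂ) ≠ 0 := fun s => by exact_mod_cast (hr0 s).ne'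
  have hrn : ∀ s, ‖((r s : ℝ) : ℂ)‖ = r s := fun s => by
    rw [Complex.norm_real, Real.norm_eq_abs, abs_of_pos (hr0 s)]
  have hr1 : ∀ s, ‖((r s : ℝ) : ℂ)‖ ^ 2 + s.1 ^ 2 = 1 := fun s => by
    rw [hrn, Real.sq_sqrt (by linarith [s.2])]
    ring
  have key : ∀ Z, Std k 1 1 Z → ∃ s : S, Eqv Z (poles 1 ∪ ring k (r s : ℝ) s.1) := by
    rintro Z (⟨h, -⟩ | ⟨-, w, h, hw, h1, rfl⟩ | ⟨h, -⟩)
    · omega
    · have hwp : 0 < ‖w‖ := norm_pos_iff.2 hw
      have hh : h ^ 2 < 1 := by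
        have : 0 < ‖w‖ ^ 2 := by positivity
        linarith
      refine ⟨⟨h, hh⟩, ?_⟩
      have hrw : r ⟨h, hh⟩ = ‖w‖ := by
        show Real.sqrt (1 - h ^ 2) = ‖w‖
        rw [← h1, add_sub_cancel_right, Real.sqrt_sq hwp.le]
      have hwC : ((‖w‖ : ℝ) : ℂ) ≠ 0 := by exact_mod_cast hwp.ne'
      have hun : ‖((‖w‖ : ℝ) : ℂ) / w‖ = 1 := by
        rw [norm_div, Complex.norm_real, norm_norm, div_self hwp.ne']
      have := eqv_map (poles 1 ∪ ring k w h) (iso (((‖w‖ : ℝ) : ℂ) / w) hun 1 (by norm_num))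
      rw [Finset.map_union, map_poles_one, map_ring, div_mul_cancel₀ _ hw, one_mul] at this
      rw [hrw]
      exact this
    · omega
  have hen : ∀ s : S, energy (poles 1 ∪ ring k (r s : ℝ) s.1) =
      ep 1 + k / Real.sqrt (2 - 2 * s.1) + Bk k / r s / 2 := by
    intro s
    rw [energy_one hk0 1 (hrC s), inter_poles_one hk0 (hrC s) (hr1 s), hrn]
  have lift : ∀ Z, Std k 1 1 Z → ∃ s : S, (ep 1 + k / Real.sqrt (2 - 2 * s.1) + Bk k / r s / 2) ≤
      energy Z ∧ (energy Z = ep 1 + k / Real.sqrt (2 - 2 * s.1) + Bk k / r s / 2 →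
        Eqv Z (poles 1 ∪ ring k (r s : ℝ) s.1)) := by
    intro Z hZ
    obtain ⟨s, hs⟩ := key Z hZ
    refine ⟨s, ?_, fun _ => hs⟩
    rw [hs.energy_eq, hen]
  have hmin : ∃ s0 : S, ∀ s : S, (ep 1 + k / Real.sqrt (2 - 2 * s0.1) + Bk k / r s0 / 2) ≤
      ep 1 + k / Real.sqrt (2 - 2 * s.1) + Bk k / r s / 2 := by
    have he : 0 ≤ ep 1 := by
      unfold ep inter
      positivity
    obtain ⟨x, hx, hm⟩ := exists_min_barrier2 (B := Bk k / 2) (g := fun x =>
      ep 1 + k / Real.sqrt (2 - 2 * x) + Bk k / Real.sqrt (1 - x ^ 2) / 2) (half_pos hB)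
      (fun x hx => by
        have h1 : 0 ≤ (k : ℝ) / Real.sqrt (2 - 2 * x) := by positivity
        have h2 : Bk k / 2 / Real.sqrt (1 - x ^ 2) = Bk k / Real.sqrt (1 - x ^ 2) / 2 := by ring
        show Bk k / 2 / Real.sqrt (1 - x ^ 2) ≤
          ep 1 + k / Real.sqrt (2 - 2 * x) + Bk k / Real.sqrt (1 - x ^ 2) / 2
        rw [h2]
        linarith) (by
        have hpos : ∀ x : ℝ, x ^ 2 < 1 → 0 < 2 - 2 * x := fun x hx => by
          have := abs_lt.1 ((sq_lt_one_iff_abs_lt_one x).1 hx)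
          linarith [this.2]
        refine ContinuousOn.add (ContinuousOn.add continuousOn_const ?_) ?_
        · refine continuousOn_const.div (Continuous.continuousOn (by fun_prop)) fun x hx => ?_
          exact (Real.sqrt_pos.2 (hpos x hx)).ne'
        · refine ContinuousOn.div_const ?_ 2
          refine continuousOn_const.div (Continuous.continuousOn (by fun_prop)) fun x hx => ?_
          have hx' : x ^ 2 < 1 := hx
          exact (Real.sqrt_pos.2 (by linarith)).ne')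
    exact ⟨⟨x, hx⟩, fun s => hm s.1 s.2⟩
  refine ⟨S, fun s => poles 1 ∪ ring k (r s : ℝ) s.1,
    fun s => ep 1 + k / Real.sqrt (2 - 2 * s.1) + Bk k / r s / 2, ?_, ?_, lift, hmin⟩
  · intro s
    obtain ⟨c1, c2⟩ := std_one_config hk0 (show 1 ≤ 2 by norm_num) (hrC s) (hr1 s)
    exact ⟨c1, c2, hen s⟩
  · rintro ⟨a, ha⟩ ⟨b, hb⟩ hne
    have hab : a ≠ b := fun h => hne (Subtype.ext h)
    have hm : ((a + b) / 2) ^ 2 < 1 := by nlinarith [sq_nonneg (a - b)]
    refine ⟨⟨(a + b) / 2, hm⟩, ?_⟩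
    have ha1 := (abs_lt.1 ((sq_lt_one_iff_abs_lt_one a).1 ha))
    have hb1 := (abs_lt.1 ((sq_lt_one_iff_abs_lt_one b).1 hb))
    have e1 := (inv_sqrt_mid (a := 2 - 2 * a) (b := 2 - 2 * b) (by linarith [ha1.2])
      (by linarith [hb1.2])).2 (by intro h; apply hab; linarith)
    have e2 := (inv_sqrt_mid (a := 1 - a ^ 2) (b := 1 - b ^ 2) (by linarith) (by linarith)).1
    have e3 : 1 / Real.sqrt (1 - ((a + b) / 2) ^ 2) ≤
        1 / Real.sqrt (((1 - a ^ 2) + (1 - b ^ 2)) / 2) := by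
      apply one_div_le_one_div_of_le (Real.sqrt_pos.2 (by linarith))
      apply Real.sqrt_le_sqrt
      nlinarith [sq_nonneg (a - b)]
    have e4 : (2 - 2 * a + (2 - 2 * b)) / 2 = 2 - 2 * ((a + b) / 2) := by ring
    rw [e4] at e1
    have f1 := mul_lt_mul_of_pos_left e1 hk'
    have f2 := mul_le_mul_of_nonneg_left (e3.trans e2) hB.le
    show ep 1 + k / Real.sqrt (2 - 2 * ((a + b) / 2)) +
      Bk k / Real.sqrt (1 - ((a + b) / 2) ^ 2) / 2 <
      ((ep 1 + k / Real.sqrt (2 - 2 * a) + Bk k / Real.sqrt (1 - a ^ 2) / 2) +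
      (ep 1 + k / Real.sqrt (2 - 2 * b) + Bk k / Real.sqrt (1 - b ^ 2) / 2)) / 2
    have g1 : ∀ x y : ℝ, x / y = x * (1 / y) := fun x y => by ring
    rw [g1 (k : ℝ) (Real.sqrt (2 - 2 * ((a + b) / 2))), g1 (k : ℝ) (Real.sqrt (2 - 2 * a)),
      g1 (k : ℝ) (Real.sqrt (2 - 2 * b)), g1 (Bk k) (Real.sqrt (1 - ((a + b) / 2) ^ 2)),
      g1 (Bk k) (Real.sqrt (1 - a ^ 2)), g1 (Bk k) (Real.sqrt (1 - b ^ 2))]
    linarith

open Classical in
/-- two rings and no pole or both poles -/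
theorem good_two_even {k : ℕ} (hk : 2 ≤ k) {p : ℕ} (hp : p = 0 ∨ p = 2) :
    Good (p + 2 * k) k p 2 := by
  have hk0 : k ≠ 0 := by omega
  have hp2 : p ≤ 2 := by omega
  have hB := Bk_pos hk
  have hk' : (0 : ℝ) < k := by positivity
  have hom0 : om k ≠ 0 := by
    intro h
    have := norm_om k
    rw [h, norm_zero] at this
    exact zero_ne_one this
  let S : Type := {ρ : ℝ // 0 < ρ ∧ ρ ≤ 1}
  let N : S → Finset E3 := fun s => poles p ∪ (ring k (Real.sqrt s.1 : ℝ) (Real.sqrt (1 - s.1)) ∪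
    ring k ((Real.sqrt s.1 : ℝ) * om k) (-Real.sqrt (1 - s.1)))
  let f : S → ℝ := fun s => ep p + eF (Bk k) (k / 2) (2 * (mp p * k)) k (Cj k) s.1
  have hs0 : ∀ s : S, 0 < Real.sqrt s.1 := fun s => Real.sqrt_pos.2 s.2.1
  have hsC : ∀ s : S, ((Real.sqrt s.1 : ℝ) : ℂ) ≠ 0 := fun s => by exact_mod_cast (hs0 s).ne'
  have hsn : ∀ s : S, ‖((Real.sqrt s.1 : ℝ) : ℂ)‖ = Real.sqrt s.1 := fun s => by
    rw [Complex.norm_real, Real.norm_eq_abs, abs_of_pos (hs0 s)]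
  have hs1 : ∀ s : S, ‖((Real.sqrt s.1 : ℝ) : ℂ)‖ ^ 2 + Real.sqrt (1 - s.1) ^ 2 = 1 := fun s => by
    rw [hsn, Real.sq_sqrt s.2.1.le, Real.sq_sqrt (by linarith [s.2.2])]
    ring
  have hsoC : ∀ s : S, ((Real.sqrt s.1 : ℝ) : ℂ) * om k ≠ 0 := fun s => mul_ne_zero (hsC s) hom0
  have hson : ∀ s : S, ‖((Real.sqrt s.1 : ℝ) : ℂ) * om k‖ = Real.sqrt s.1 := fun s => by
    rw [norm_mul, hsn, norm_om, mul_one]
  have hso1 : ∀ s : S, ‖((Real.sqrt s.1 : ℝ) : ℂ) * om k‖ ^ 2 + (-Real.sqrt (1 - s.1)) ^ 2 = 1 :=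
    fun s => by
      rw [hson, neg_sq, Real.sq_sqrt s.2.1.le, Real.sq_sqrt (by linarith [s.2.2])]
      ring
  have hdis : ∀ s : S, Disjoint (ring k (Real.sqrt s.1 : ℝ) (Real.sqrt (1 - s.1)))
      (ring k ((Real.sqrt s.1 : ℝ) * om k) (-Real.sqrt (1 - s.1))) := by
    intro s
    rw [Finset.disjoint_left]
    intro x hx hx'
    rw [mem_ring hk0 (hsC s)] at hx
    rw [mem_ring hk0 (hsoC s), hx.1, mul_pow, om_pow hk0] at hx'
    have h1 := hx'.1
    have h2 : ((Real.sqrt s.1 : ℝ) : ℂ) ^ k ≠ 0 := pow_ne_zero _ (hsC s)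
    apply h2
    linear_combination (1 / 2 : ℂ) * h1
  -- the energy of a pair of rings, its poles
  have hV : ∀ (w : ℂ) (h : ℝ), w ≠ 0 → ‖w‖ ^ 2 + h ^ 2 = 1 →
      inter (poles p) (ring k w h) = mp p * k * Real.sqrt (1 / ‖w‖ ^ 2 + 1 / ‖w‖) :=
    fun w h hw h1 => inter_poles_even hk0 hp hw h1
  have hlow : ∀ (w w' : ℂ) (h h' : ℝ), w ≠ 0 → w' ≠ 0 → ‖w‖ ^ 2 + h ^ 2 = 1 →
      ‖w'‖ ^ 2 + h' ^ 2 = 1 → Disjoint (ring k w h) (ring k w' h') →
      ∃ s : S, s.1 = (1 + h * h' + ‖w‖ * ‖w'‖) / 2 ∧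
        f s ≤ energy (poles p ∪ (ring k w h ∪ ring k w' h')) ∧
        (energy (poles p ∪ (ring k w h ∪ ring k w' h')) = f s →
          (1 + h * h' = ‖w‖ * ‖w'‖ ∧ w' ^ k * ‖w‖ ^ k = - w ^ k * ‖w'‖ ^ k)) := by
    intro w w' h h' hw hw' h1 h2 hd
    obtain ⟨c1, c2, c3, c4, c5⟩ := cross_le hk0 hw hw' h1 h2 hd rfl
    refine ⟨⟨(1 + h * h' + ‖w‖ * ‖w'‖) / 2, c2, c3⟩, rfl, ?_⟩
    obtain ⟨ρ, hρ⟩ : ∃ ρ, ρ = (1 + h * h' + ‖w‖ * ‖w'‖) / 2 := ⟨_, rfl⟩
    show ep p + eF (Bk k) (k / 2) (2 * (mp p * k)) k (Cj k) ((1 + h * h' + ‖w‖ * ‖w'‖) / 2) ≤ _ ∧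
      (_ = ep p + eF (Bk k) (k / 2) (2 * (mp p * k)) k (Cj k)
        ((1 + h * h' + ‖w‖ * ‖w'‖) / 2) → _)
    rw [← hρ] at c1 c2 c3 c4 c5 ⊢
    have hwp : 0 < ‖w‖ := norm_pos_iff.2 hw
    have hwp' : 0 < ‖w'‖ := norm_pos_iff.2 hw'
    have d1 := inv_two hwp hwp' c1
    have d2 := V_two hwp hwp' c1
    have d3 : Bk k / Real.sqrt ρ ≤ Bk k / ‖w‖ / 2 + Bk k / ‖w'‖ / 2 := by
      have := mul_le_mul_of_nonneg_left d1 hB.le
      have e1 : Bk k * (2 / Real.sqrt ρ) = 2 * (Bk k / Real.sqrt ρ) := by ring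
      have e2 : Bk k * (1 / ‖w‖ + 1 / ‖w'‖) = Bk k / ‖w‖ + Bk k / ‖w'‖ := by ring
      rw [e1, e2] at this
      linarith
    have d4 := mul_le_mul_of_nonneg_left d2 (mul_nonneg (mp_nonneg p) hk'.le)
    rw [energy_two hk0 p hw hw' hd, hV w h hw h1, hV w' h' hw' h2]
    unfold eF
    constructor
    · have d5 := mul_le_mul_of_nonneg_left c4 hk'.le
      have e3 : (k : ℝ) / 2 * ∑ j ∈ range k, 1 / Real.sqrt (1 - Cj k j * ρ) =
        k * (1 / 2 * ∑ j ∈ range k, 1 / Real.sqrt (1 - Cj k j * ρ)) := by ring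
      rw [e3]
      linarith
    · intro he
      by_contra hcon
      have d5 := mul_lt_mul_of_pos_left (c5 hcon) hk'
      have e3 : (k : ℝ) / 2 * ∑ j ∈ range k, 1 / Real.sqrt (1 - Cj k j * ρ) =
        k * (1 / 2 * ∑ j ∈ range k, 1 / Real.sqrt (1 - Cj k j * ρ)) := by ring
      rw [e3] at he
      linarith
  have hen : ∀ s : S, energy (N s) = f s := by
    intro s
    show energy (poles p ∪ (ring k (Real.sqrt s.1 : ℝ) (Real.sqrt (1 - s.1)) ∪
      ring k ((Real.sqrt s.1 : ℝ) * om k) (-Real.sqrt (1 - s.1)))) =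
      ep p + eF (Bk k) (k / 2) (2 * (mp p * k)) k (Cj k) s.1
    rw [energy_two hk0 p (hsC s) (hsoC s) (hdis s), hV _ _ (hsC s) (hs1 s),
      hV _ _ (hsoC s) (hso1 s), hsn, hson, Real.sq_sqrt s.2.1.le]
    have e1 : ∀ j ∈ range k, 1 / dist (pt (Real.sqrt s.1 : ℝ) (Real.sqrt (1 - s.1)))
        (pt (zt k ^ j * ((Real.sqrt s.1 : ℝ) * om k)) (-Real.sqrt (1 - s.1))) =
        (1 / 2) * (1 / Real.sqrt (1 - Cj k j * s.1)) := by
      intro j _
      have hn : ‖zt k ^ j * ((Real.sqrt s.1 : ℝ) * om k)‖ = Real.sqrt s.1 := by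
        rw [norm_mul, norm_pow, norm_zt, one_pow, one_mul, hson]
      rw [dist_sphere (hs1 s) (by
        rw [hn, neg_sq, Real.sq_sqrt s.2.1.le, Real.sq_sqrt (by linarith [s.2.2])]
        ring)]
      have e2 : zt k ^ j * (((Real.sqrt s.1 : ℝ) : ℂ) * om k) *
          (starRingEnd ℂ) ((Real.sqrt s.1 : ℝ) : ℂ) = ((s.1 : ℝ) : ℂ) * (om k * zt k ^ j) := by
        rw [Complex.conj_ofReal]
        have : ((s.1 : ℝ) : ℂ) = ((Real.sqrt s.1 : ℝ) : ℂ) * ((Real.sqrt s.1 : ℝ) : ℂ) := by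
          rw [← Complex.ofReal_mul, Real.mul_self_sqrt s.2.1.le]
        rw [this]
        ring
      rw [e2, Complex.re_ofReal_mul]
      have e3 : 2 - 2 * Real.sqrt (1 - s.1) * -Real.sqrt (1 - s.1) -
          2 * (s.1 * (om k * zt k ^ j).re) = 4 * (1 - Cj k j * s.1) := by
        have := Real.mul_self_sqrt (show 0 ≤ 1 - s.1 by linarith [s.2.2])
        unfold Cj
        linear_combination 2 * this
      rw [e3, Real.sqrt_mul (by norm_num), show Real.sqrt 4 = 2 by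
        rw [show (4 : ℝ) = 2 ^ 2 by norm_num, Real.sqrt_sq (by norm_num)], one_div_mul_one_div]
    rw [Finset.sum_congr rfl e1, ← Finset.mul_sum]
    unfold eF
    ring
  have lift : ∀ Z, Std k p 2 Z → ∃ s : S, f s ≤ energy Z ∧ (energy Z = f s → Eqv Z (N s)) := by
    rintro Z (⟨h, -⟩ | ⟨h, -⟩ | ⟨-, w, h, w', h', hw, hw', h1, h2, hd, rfl⟩)
    · omega
    · omega
    · obtain ⟨s, hs, hs2, hs3⟩ := hlow w w' h h' hw hw' h1 h2 hd
      refine ⟨s, hs2, fun he => ?_⟩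
      obtain ⟨g1, g2⟩ := hs3 he
      have hwp : 0 < ‖w‖ := norm_pos_iff.2 hw
      have hwp' : 0 < ‖w'‖ := norm_pos_iff.2 hw'
      obtain ⟨r, hr⟩ : ∃ r, r = ‖w‖ := ⟨_, rfl⟩
      obtain ⟨r', hr'⟩ : ∃ r', r' = ‖w'‖ := ⟨_, rfl⟩
      rw [← hr] at h1 g1 g2 hs hwp
      rw [← hr'] at h2 g1 g2 hs hwp'
      have hsum : (r - r') ^ 2 + (h + h') ^ 2 = 0 := by linear_combination h1 + h2 + 2 * g1
      have q1 : r' = r := by
        have : (r - r') ^ 2 = 0 := by nlinarith [sq_nonneg (r - r'), sq_nonneg (h + h')]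
        have := pow_eq_zero_iff two_ne_zero |>.1 this
        linarith
      have q2 : h' = -h := by
        have : (h + h') ^ 2 = 0 := by nlinarith [sq_nonneg (r - r'), sq_nonneg (h + h')]
        have := pow_eq_zero_iff two_ne_zero |>.1 this
        linarith
      subst q1
      subst q2
      have hsr : s.1 = r' ^ 2 := by rw [hs]; linear_combination (1 / 2) * g1
      have hsr1 : Real.sqrt s.1 = r' := by rw [hsr, Real.sqrt_sq hwp.le]
      have hsr2 : Real.sqrt (1 - s.1) = |h| := by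
        rw [hsr, ← h1, add_sub_cancel_left, Real.sqrt_sq_eq_abs]
      have hrC : ((r' : ℝ) : ℂ) ≠ 0 := by exact_mod_cast hwp.ne'
      have g3 : w' ^ k = - w ^ k := by
        have := pow_ne_zero k hrC
        exact mul_right_cancel₀ this g2
      obtain ⟨σ, hσ, hσh⟩ : ∃ σ : ℝ, σ ^ 2 = 1 ∧ σ * h = |h| := by
        rcases le_total 0 h with h0 | h0
        · exact ⟨1, by norm_num, by rw [one_mul, abs_of_nonneg h0]⟩
        · exact ⟨-1, by norm_num, by rw [neg_one_mul, abs_of_nonpos h0]⟩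
      have hun : ‖((r' : ℝ) : ℂ) / w‖ = 1 := by
        rw [norm_div, Complex.norm_real, Real.norm_eq_abs, abs_of_pos hwp, ← hr, div_self hwp.ne']
      have hm := eqv_map (poles p ∪ (ring k w h ∪ ring k w' (-h)))
        (iso (((r' : ℝ) : ℂ) / w) hun σ hσ)
      rw [Finset.map_union, Finset.map_union, map_poles_even hp, map_ring, map_ring,
        div_mul_cancel₀ _ hw, mul_neg, hσh] at hm
      have hring : ring k (((r' : ℝ) : ℂ) / w * w') (-|h|) =
          ring k (((r' : ℝ) : ℂ) * om k) (-|h|) := by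
        apply ring_congr hk0 (mul_ne_zero (div_ne_zero hrC hw) hw') (mul_ne_zero hrC hom0)
        rw [mul_pow, div_pow, g3, mul_pow, om_pow hk0]
        have := pow_ne_zero k hw
        field_simp
      rw [hring] at hm
      show Eqv _ (poles p ∪ (ring k (Real.sqrt s.1 : ℝ) (Real.sqrt (1 - s.1)) ∪
        ring k ((Real.sqrt s.1 : ℝ) * om k) (-Real.sqrt (1 - s.1))))
      rw [hsr1, hsr2]
      exact hm
  have hmin : ∃ s0 : S, ∀ s : S, f s0 ≤ f s := by
    have hmu : 0 ≤ 2 * (mp p * k) := mul_nonneg (by norm_num) (mul_nonneg (mp_nonneg p) hk'.le)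
    obtain ⟨x, hx, hx1, hm⟩ := exists_min_barrier hB
      (fun x _ _ => eF_barrier (B := Bk k) (κ := k / 2) (μ := 2 * (mp p * k)) (k := k)
        (C := Cj k) (by positivity) hmu x) (eF_cont fun j => Cj_lt hk0 j)
    refine ⟨⟨x, hx, hx1⟩, fun s => ?_⟩
    have := hm s.1 s.2.1 s.2.2
    show ep p + eF (Bk k) (k / 2) (2 * (mp p * k)) k (Cj k) x ≤
      ep p + eF (Bk k) (k / 2) (2 * (mp p * k)) k (Cj k) s.1
    linarith
  refine ⟨S, N, f, ?_, ?_, lift, hmin⟩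
  · intro s
    obtain ⟨c1, c2⟩ := std_two_config hk0 hp2 (hsC s) (hsoC s) (hs1 s) (hso1 s) (hdis s)
    exact ⟨c1, c2, hen s⟩
  · rintro ⟨a, ha⟩ ⟨b, hb⟩ hne
    have hab : a ≠ b := fun h => hne (Subtype.ext h)
    refine ⟨⟨(a + b) / 2, by linarith [ha.1, hb.1], by linarith [ha.2, hb.2]⟩, ?_⟩
    have := eF_mid (B := Bk k) (κ := k / 2) (μ := 2 * (mp p * k)) (k := k) (C := Cj k) hB
      (by positivity) (mul_nonneg (by norm_num) (mul_nonneg (mp_nonneg p) hk'.le))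
      (fun j => Cj_lt hk0 j) ha.1 ha.2 hb.1 hb.2 hab
    show ep p + eF (Bk k) (k / 2) (2 * (mp p * k)) k (Cj k) ((a + b) / 2) <
      ((ep p + eF (Bk k) (k / 2) (2 * (mp p * k)) k (Cj k) a) +
      (ep p + eF (Bk k) (k / 2) (2 * (mp p * k)) k (Cj k) b)) / 2
    linarith

/-- no ring -/
theorem good_zero (k : ℕ) {p : ℕ} (hp : p ≤ 2) : Good (p + 0 * k) k p 0 := by
  have key : ∀ Z, Std k p 0 Z → ep p ≤ energy Z ∧ (energy Z = ep p → Eqv Z (poles p)) := by
    rintro Z (⟨-, rfl⟩ | ⟨h, -⟩ | ⟨h, -⟩)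
    · rw [energy_eq]
      exact ⟨le_rfl, fun _ => Eqv.refl _⟩
    · omega
    · omega
  refine ⟨Unit, fun _ => poles p, fun _ => ep p, ?_, ?_, fun Z hZ => ⟨(), key Z hZ⟩,
    ⟨(), fun _ => le_rfl⟩⟩
  · intro _
    refine ⟨⟨by rw [card_poles hp]; omega, fun x hx => norm_poles hx⟩,
      (poles_inv0 k p).hasAxis, ?_⟩
    rw [energy_eq]
    rfl
  · intro s s' hs
    exact absurd (Subsingleton.elim s s') hs

/-- all the types -/
theorem good_all {k : ℕ} (hk : 2 ≤ k) {p m : ℕ} (hp : p ≤ 2) (hm : m ≤ 2)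
    (h12 : ¬ (p = 1 ∧ m = 2)) : Good (p + m * k) k p m := by
  interval_cases m
  · exact good_zero k hp
  · interval_cases p
    · exact good_one_even hk (Or.inl rfl)
    · exact good_one_one hk
    · exact good_one_even hk (Or.inr rfl)
  · interval_cases p
    · exact good_two_even hk (Or.inl rfl)
    · exact absurd ⟨rfl, rfl⟩ h12
    · exact good_two_even hk (Or.inr rfl)

/-- The type of a configuration is determined by the number of its points. -/
theorem type_unique {k p m p' m' : ℕ} (hk : 3 ≤ k) (hp : p ≤ 2) (hm : m ≤ 2) (hp' : p' ≤ 2)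
    (hm' : m' ≤ 2) (h : p + m * k = p' + m' * k) : p = p' ∧ m = m' := by
  interval_cases m <;> interval_cases m' <;> omega

theorem exists_std_of_axis {k : ℕ} (hk : 3 ≤ k) {n : ℕ} (hn : n < 3 * k) {X : Finset E3}
    (hX : IsConfig n X) (hax : HasAxis k X) :
    ∃ p m X', p ≤ 2 ∧ m ≤ 2 ∧ n = p + m * k ∧ Eqv X X' ∧ Std k p m X' := by
  obtain ⟨Y, h1, h2⟩ := hax.exists_inv0
  obtain ⟨p, m, X', hp, hm, hn', h3, h4⟩ := exists_std (by omega) (h1.isConfig hX) h2 hn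
  exact ⟨p, m, X', hp, hm, hn', h1.trans h3, h4⟩

end Pool.Agent.Helper15.Thomson
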