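import Pool.Agent.Helper15.Thomson.LogMin
import Pool.Agent.Helper15.Thomson.Uniq

/-!
One pole and two rings.
-/

namespace Pool.Agent.Helper15.Thomson

open Finset

theorem half_le_Bk {k : ℕ} (hk : 3 ≤ k) : (k : ℝ) * (k - 1) / 2 ≤ Bk k := by
  unfold Bk
  have hk0 : (0 : ℝ) < k := by positivity
  have h1 : ((k : ℝ) - 1) / 2 ≤ ∑ j ∈ range k, 1 / ‖1 - zt k ^ j‖ := by
    obtain ⟨l, rfl⟩ : ∃ l, k = l + 1 := ⟨k - 1, by omega⟩
    rw [Finset.sum_range_succ']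
    have h2 : ∀ j ∈ range l, (1 : ℝ) / 2 ≤ 1 / ‖1 - zt (l + 1) ^ (j + 1)‖ := by
      intro j hj
      have hne : (1 : ℂ) - zt (l + 1) ^ (j + 1) ≠ 0 := by
        intro h0
        have h3 : zt (l + 1) ^ (j + 1) = 1 := by
          rw [sub_eq_zero] at h0
          exact h0.symm
        have h4 := (zt_prim (show l + 1 ≠ 0 by omega)).dvd_of_pow_eq_one _ h3
        have h5 := Nat.le_of_dvd (by omega) h4
        have h6 := Finset.mem_range.1 hj
        omega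
      apply one_div_le_one_div_of_le (norm_pos_iff.2 hne)
      refine (norm_sub_le _ _).trans ?_
      rw [norm_one, norm_pow, norm_zt, one_pow]
      norm_num
    have h3 := Finset.sum_le_sum h2
    rw [Finset.sum_const, Finset.card_range, nsmul_eq_mul] at h3
    have h4 : (0 : ℝ) ≤ 1 / ‖1 - zt (l + 1) ^ 0‖ := by positivity
    push_cast
    linarith
  have := mul_le_mul_of_nonneg_left h1 hk0.le
  linarith

theorem neg_one_le_re (k j : ℕ) : -1 ≤ (om k * zt k ^ j).re := by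
  have hn : ‖om k * zt k ^ j‖ = 1 := by
    rw [norm_mul, norm_pow, norm_om, norm_zt, one_pow, one_mul]
  have h := Complex.abs_re_le_norm (om k * zt k ^ j)
  rw [hn] at h
  exact (abs_le.1 h).1

/-- The lower bound for the mutual energy of two rings at fixed heights. -/
theorem cross_twist {k : ℕ} (hk : k ≠ 0) {w w' : ℂ} (hw : w ≠ 0) (hw' : w' ≠ 0) {h h' : ℝ}
    (h1 : ‖w‖ ^ 2 + h ^ 2 = 1) (h2 : ‖w'‖ ^ 2 + h' ^ 2 = 1)
    (hd : Disjoint (ring k w h) (ring k w' h')) :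
    ∑ j ∈ range k, 1 / Real.sqrt ((2 - 2 * h * h') - (2 * (‖w‖ * ‖w'‖)) * (om k * zt k ^ j).re) ≤
      ∑ j ∈ range k, 1 / dist (pt w h) (pt (zt k ^ j * w') h') ∧
    (¬ (w' ^ k * ‖w‖ ^ k = - w ^ k * ‖w'‖ ^ k) →
      ∑ j ∈ range k, 1 / Real.sqrt ((2 - 2 * h * h') - (2 * (‖w‖ * ‖w'‖)) *
        (om k * zt k ^ j).re) <
      ∑ j ∈ range k, 1 / dist (pt w h) (pt (zt k ^ j * w') h')) := by
  obtain ⟨r, hr⟩ : ∃ r, r = ‖w‖ := ⟨_, rfl⟩
  obtain ⟨r', hr'⟩ : ∃ r', r' = ‖w'‖ := ⟨_, rfl⟩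
  have hr0 : 0 < r := hr ▸ norm_pos_iff.2 hw
  have hr0' : 0 < r' := hr' ▸ norm_pos_iff.2 hw'
  rw [← hr] at h1 ⊢
  rw [← hr'] at h2 ⊢
  have k2 : h * h' + r * r' ≤ 1 := by nlinarith [sq_nonneg (r - r'), sq_nonneg (h - h')]
  have hrr : 0 < r * r' := mul_pos hr0 hr0'
  -- the distances
  obtain ⟨u, hu⟩ : ∃ u : ℂ, u = (w' * (starRingEnd ℂ) w) / (r * r' : ℝ) := ⟨_, rfl⟩
  have hrrC : ((r * r' : ℝ) : ℂ) ≠ 0 := by exact_mod_cast hrr.ne'
  have hun : ‖u‖ = 1 := by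
    rw [hu, norm_div, norm_mul, Complex.norm_conj, ← hr, ← hr', Complex.norm_real,
      Real.norm_eq_abs, abs_of_pos hrr, mul_comm r' r, div_self hrr.ne']
  have hw'z : ∀ j : ℕ, ‖zt k ^ j * w'‖ = r' := by
    intro j
    rw [norm_mul, norm_pow, norm_zt, one_pow, one_mul, hr']
  have hdist : ∀ j : ℕ, dist (pt w h) (pt (zt k ^ j * w') h') =
      Real.sqrt ((2 - 2 * h * h') - (2 * (r * r')) * (u * zt k ^ j).re) := by
    intro j
    rw [dist_sphere (by rw [← hr]; exact h1) (by rw [hw'z]; exact h2)]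
    congr 1
    have e1 : zt k ^ j * w' * (starRingEnd ℂ) w = ((r * r' : ℝ) : ℂ) * (u * zt k ^ j) := by
      rw [hu]
      field_simp
    rw [e1, Complex.re_ofReal_mul]
    ring
  have hpos : ∀ j ∈ range k, 0 < (2 - 2 * h * h') - (2 * (r * r')) * (u * zt k ^ j).re := by
    intro j hj
    have hne : pt w h ≠ pt (zt k ^ j * w') h' := by
      intro he
      rw [Finset.disjoint_left] at hd
      refine hd (a := pt w h) ?_ ?_
      · rw [mem_ring hk hw, hz_pt, pt_two]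
        exact ⟨rfl, rfl⟩
      · rw [he, mem_ring hk hw', hz_pt, pt_two, mul_pow, ← pow_mul, mul_comm j k, pow_mul,
          (zt_prim hk).pow_eq_one, one_pow, one_mul]
        exact ⟨rfl, rfl⟩
    have := dist_pos.2 hne
    rw [hdist j] at this
    exact Real.sqrt_pos.1 this
  have hposω : ∀ j ∈ range k, 0 < (2 - 2 * h * h') - (2 * (r * r')) * (om k * zt k ^ j).re := by
    intro j _
    have h3 := mul_pos (show 0 < 2 * (r * r') by positivity)
      (show 0 < 1 - (om k * zt k ^ j).re by linarith [re_lt_one hk j])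
    linarith
  have htw := twist (Nat.pos_of_ne_zero hk) (zt_prim hk) (a := 2 - 2 * h * h') (b := 2 * (r * r'))
    (by positivity) (by linarith) hun (norm_om k) (om_pow hk) hpos hposω
  have hsum : ∑ j ∈ range k, 1 / dist (pt w h) (pt (zt k ^ j * w') h') =
      ∑ j ∈ range k, 1 / Real.sqrt ((2 - 2 * h * h') - (2 * (r * r')) * (u * zt k ^ j).re) :=
    Finset.sum_congr rfl fun j _ => by rw [hdist j]
  rw [hsum]
  refine ⟨htw.1, fun hne => htw.2 fun huk => hne ?_⟩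
  have hwC : (starRingEnd ℂ) w * w = ((r ^ 2 : ℝ) : ℂ) := by
    rw [mul_comm, Complex.mul_conj, Complex.normSq_eq_norm_sq, hr]
  have e1 : w' * ((r ^ 2 : ℝ) : ℂ) = w * (((r * r' : ℝ) : ℂ) * u) := by
    rw [hu, mul_div_cancel₀ _ hrrC, ← hwC]
    ring
  have e2 : w' * (r : ℂ) = w * ((r' : ℂ) * u) := by
    have hrC : (r : ℂ) ≠ 0 := by exact_mod_cast hr0.ne'
    apply mul_right_cancel₀ hrC
    have : w' * (r : ℂ) * r = w' * ((r ^ 2 : ℝ) : ℂ) := by push_cast; ring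
    rw [this, e1]
    push_cast
    ring
  have e3 := congrArg (fun z => z ^ k) e2
  simp only [mul_pow, huk] at e3
  rw [e3]
  ring

/-- radius and height from the stereographic radius -/
noncomputable def rX (X : ℝ) : ℝ := 2 * X / (X ^ 2 + 1)

noncomputable def aX (X : ℝ) : ℝ := (X ^ 2 - 1) / (X ^ 2 + 1)

theorem rX_pos {X : ℝ} (hX : 0 < X) : 0 < rX X := by
  unfold rX
  positivity

theorem rX_aX (X : ℝ) : rX X ^ 2 + aX X ^ 2 = 1 := by
  unfold rX aX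
  have : X ^ 2 + 1 ≠ 0 := by positivity
  field_simp
  ring

/-- the energy in terms of the stereographic radii -/
noncomputable def eV (k : ℕ) (X Y : ℝ) : ℝ :=
  ep 1 + k / Real.sqrt (2 - 2 * aX X) + k / Real.sqrt (2 - 2 * aX Y) + Bk k / rX X / 2 +
    Bk k / rX Y / 2 + k * ∑ j ∈ range k, 1 / Real.sqrt ((2 - 2 * aX X * aX Y) -
      (2 * (rX X * rX Y)) * (om k * zt k ^ j).re)

theorem eV_eq {k : ℕ} (hk : 3 ≤ k) {X Y : ℝ} (hX : 0 < X) (hY : 0 < Y) :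
    eV k X Y = eE (ep 1) (Bk k) k (fun j => (om k * zt k ^ j).re) (Real.log (X * Y))
      (Real.log ((X ^ 2 + Y ^ 2) / (2 * (X * Y)))) := by
  have hk0 : k ≠ 0 := by omega
  have hXY : 0 < X * Y := mul_pos hX hY
  have hm : 0 < (X ^ 2 + Y ^ 2) / (2 * (X * Y)) := by positivity
  have hX1 : 0 < X ^ 2 + 1 := by positivity
  have hY1 : 0 < Y ^ 2 + 1 := by positivity
  have hp : ∀ X : ℝ, k / Real.sqrt (2 - 2 * aX X) = k / 2 * Real.sqrt (X ^ 2 + 1) := by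
    intro X
    have hX1 : 0 < X ^ 2 + 1 := by positivity
    have e1 : 2 - 2 * aX X = 4 / (X ^ 2 + 1) := by
      unfold aX
      field_simp
      ring
    rw [e1, Real.sqrt_div (by norm_num), show Real.sqrt 4 = 2 by
      rw [show (4 : ℝ) = 2 ^ 2 by norm_num, Real.sqrt_sq (by norm_num)]]
    have := (Real.sqrt_pos.2 hX1).ne'
    field_simp
  have hexp1 : Real.exp (Real.log (X * Y) + Real.log ((X ^ 2 + Y ^ 2) / (2 * (X * Y)))) =
      (X ^ 2 + Y ^ 2) / 2 := by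
    rw [Real.exp_add, Real.exp_log hXY, Real.exp_log hm]
    field_simp
  have hexp2 : Real.exp (2 * Real.log (X * Y)) = (X * Y) ^ 2 := by
    rw [two_mul, Real.exp_add, Real.exp_log hXY]
    ring
  have hT : eT (Real.log (X * Y)) (Real.log ((X ^ 2 + Y ^ 2) / (2 * (X * Y)))) =
      Real.sqrt (X ^ 2 + 1) + Real.sqrt (Y ^ 2 + 1) := by
    unfold eT
    rw [hexp1, hexp2]
    have e1 : 1 + 2 * ((X ^ 2 + Y ^ 2) / 2) + (X * Y) ^ 2 = (X ^ 2 + 1) * (Y ^ 2 + 1) := by ring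
    rw [e1, Real.sqrt_mul hX1.le]
    have e2 : 2 + 2 * ((X ^ 2 + Y ^ 2) / 2) + 2 * (Real.sqrt (X ^ 2 + 1) * Real.sqrt (Y ^ 2 + 1)) =
        (Real.sqrt (X ^ 2 + 1) + Real.sqrt (Y ^ 2 + 1)) ^ 2 := by
      rw [add_sq, Real.sq_sqrt hX1.le, Real.sq_sqrt hY1.le]
      ring
    rw [e2, Real.sqrt_sq (by positivity)]
  have hcosh : Real.cosh (Real.log (X * Y)) = (X * Y + (X * Y)⁻¹) / 2 := by
    rw [Real.cosh_eq, Real.exp_neg, Real.exp_log hXY]
  have hH : eH (Real.log (X * Y)) (Real.log ((X ^ 2 + Y ^ 2) / (2 * (X * Y)))) =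
      (X * Y + 1) * (X + Y) / (2 * (X * Y)) := by
    unfold eH
    rw [hcosh, Real.exp_log hm]
    have e1 : ((X * Y + (X * Y)⁻¹) / 2 + 1) * ((X ^ 2 + Y ^ 2) / (2 * (X * Y)) + 1) =
        ((X * Y + 1) * (X + Y) / (2 * (X * Y))) ^ 2 := by
      field_simp
      ring
    rw [e1, Real.sqrt_sq (by positivity)]
  have hG : ∀ j ∈ range k, 1 / Real.sqrt ((2 - 2 * aX X * aX Y) -
      (2 * (rX X * rX Y)) * (om k * zt k ^ j).re) =
      1 / 2 * eG ((om k * zt k ^ j).re) (Real.log (X * Y))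
        (Real.log ((X ^ 2 + Y ^ 2) / (2 * (X * Y)))) := by
    intro j _
    obtain ⟨κ, hκ⟩ : ∃ κ, κ = (om k * zt k ^ j).re := ⟨_, rfl⟩
    have hκ1 : κ < 1 := hκ ▸ re_lt_one hk0 j
    rw [← hκ]
    unfold eG
    rw [hcosh, Real.exp_log hm]
    have hpos : 0 < X ^ 2 + Y ^ 2 - 2 * κ * (X * Y) := by
      nlinarith [sq_nonneg (X - Y), mul_pos hXY (show 0 < 1 - κ by linarith)]
    have e1 : (2 - 2 * aX X * aX Y) - (2 * (rX X * rX Y)) * κ =
        2 ^ 2 * ((X ^ 2 + Y ^ 2 - 2 * κ * (X * Y)) / ((X ^ 2 + 1) * (Y ^ 2 + 1))) := by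
      unfold rX aX
      field_simp
      ring
    have e2 : ((X * Y + (X * Y)⁻¹) / 2 + (X ^ 2 + Y ^ 2) / (2 * (X * Y))) /
        ((X ^ 2 + Y ^ 2) / (2 * (X * Y)) - κ) =
        ((X ^ 2 + Y ^ 2 - 2 * κ * (X * Y)) / ((X ^ 2 + 1) * (Y ^ 2 + 1)))⁻¹ := by
      have e3 : (X ^ 2 + Y ^ 2) / (2 * (X * Y)) - κ =
          (X ^ 2 + Y ^ 2 - 2 * κ * (X * Y)) / (2 * (X * Y)) := by
        field_simp
      have e4 : (X * Y + (X * Y)⁻¹) / 2 + (X ^ 2 + Y ^ 2) / (2 * (X * Y)) =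
          ((X ^ 2 + 1) * (Y ^ 2 + 1)) / (2 * (X * Y)) := by
        field_simp
        ring
      rw [e3, e4, inv_div, div_div_div_cancel_right₀ (by positivity)]
    rw [e1, e2, Real.sqrt_mul (by norm_num), Real.sqrt_sq (by norm_num), Real.sqrt_inv]
    ring
  unfold eV eE
  rw [hp, hp, hT, hH, Finset.sum_congr rfl hG, ← Finset.mul_sum]
  have hB : Bk k / rX X / 2 + Bk k / rX Y / 2 =
      Bk k / 2 * ((X * Y + 1) * (X + Y) / (2 * (X * Y))) := by
    unfold rX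
    field_simp
    ring
  linarith

end Pool.Agent.Helper15.Thomson
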