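import Pool.Agent.Helper15.Thomson.Geom

/-!
The structure of the configurations of fewer than `3k` points with an axis of order `k`.
-/

namespace Pool.Agent.Helper15.Thomson

open Finset

theorem ring_subset {k : ℕ} {X : Finset E3} (hX : Inv0 k X) {w : ℂ} {h : ℝ}
    (hx : pt w h ∈ X) : ring k w h ⊆ X := by
  classical
  intro x hx'
  unfold ring at hx'
  rw [Finset.mem_image] at hx'
  obtain ⟨j, -, rfl⟩ := hx'
  induction j with
  | zero => simpa using hx
  | succ j ih =>
    rw [pow_succ', mul_assoc]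
    exact inv0_iff.1 hX _ _ ih

theorem Inv0.sdiff {k : ℕ} (hk : k ≠ 0) {X : Finset E3} (hX : Inv0 k X) {w : ℂ} (hw : w ≠ 0)
    (h : ℝ) : Inv0 k (open Classical in X \ ring k w h) := by
  classical
  rw [inv0_iff]
  intro w' h' hx
  rw [Finset.mem_sdiff] at hx ⊢
  refine ⟨inv0_iff.1 hX _ _ hx.1, fun hr => hx.2 ?_⟩
  rw [mem_ring hk hw] at hr ⊢
  rw [hz_pt, pt_two] at hr ⊢
  rw [mul_pow, (zt_prim hk).pow_eq_one, one_mul] at hr
  exact hr

/-- The poles: none, the north pole, or both. -/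
noncomputable def poles (p : ℕ) : Finset E3 :=
  open Classical in if p = 0 then ∅ else if p = 1 then {pt 0 1} else {pt 0 1, pt 0 (-1)}

theorem pole_ne : pt 0 1 ≠ pt 0 (-1) := by
  intro h
  have := (pt_inj h).2
  norm_num at this

theorem poles_zero : poles 0 = ∅ := by simp [poles]

theorem poles_one : poles 1 = {pt 0 1} := by simp [poles]

theorem poles_two : poles 2 = (open Classical in {pt 0 1, pt 0 (-1)}) := by
  classical
  simp [poles]

theorem card_poles {p : ℕ} (hp : p ≤ 2) : (poles p).card = p := by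
  classical
  interval_cases p
  · rw [poles_zero, Finset.card_empty]
  · rw [poles_one, Finset.card_singleton]
  · rw [poles_two]
    convert Finset.card_pair pole_ne

theorem mem_poles {p : ℕ} {x : E3} (hx : x ∈ poles p) : hz x = 0 ∧ (x 2) ^ 2 = 1 := by
  classical
  unfold poles at hx
  split_ifs at hx with h1 h2
  · simp at hx
  · rw [Finset.mem_singleton] at hx
    subst hx
    rw [hz_pt, pt_two]
    norm_num
  · rw [Finset.mem_insert, Finset.mem_singleton] at hx
    rcases hx with rfl | rfl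
    · rw [hz_pt, pt_two]
      norm_num
    · rw [hz_pt, pt_two]
      norm_num

theorem poles_inv0 (k p : ℕ) : Inv0 k (poles p) := by
  intro x hx
  have h := mem_poles hx
  have : rotZ (2 * Real.pi / k) x = x := by
    rw [← pt_hz x, rotZ_pt, h.1, mul_zero]
  rw [this]
  exact hx

theorem norm_poles {p : ℕ} {x : E3} (hx : x ∈ poles p) : ‖x‖ = 1 := by
  have h := mem_poles hx
  rw [← pt_hz x, norm_pt_eq_one, h.1, h.2]
  norm_num

theorem norm_ring {k : ℕ} (hk : k ≠ 0) {w : ℂ} (hw : w ≠ 0) {h : ℝ} (h1 : ‖w‖ ^ 2 + h ^ 2 = 1)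
    {x : E3} (hx : x ∈ ring k w h) : ‖x‖ = 1 := by
  rw [mem_ring hk hw] at hx
  rw [← pt_hz x, norm_pt_eq_one, hx.2]
  have : ‖hz x‖ = ‖w‖ := by
    have h2 := congrArg norm hx.1
    rw [norm_pow, norm_pow] at h2
    exact (pow_left_inj₀ (norm_nonneg _) (norm_nonneg _) hk).1 h2
  rw [this]
  exact h1

theorem disjoint_poles_ring {k : ℕ} (hk : k ≠ 0) (p : ℕ) {w : ℂ} (hw : w ≠ 0) (h : ℝ) :
    Disjoint (poles p) (ring k w h) := by
  classical
  rw [Finset.disjoint_left]
  intro x hx hr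
  rw [mem_ring hk hw, (mem_poles hx).1, zero_pow hk] at hr
  exact pow_ne_zero _ hw hr.1.symm

open Classical in
/-- The standard configurations. -/
def Std (k p m : ℕ) (X : Finset E3) : Prop :=
  (m = 0 ∧ X = poles p) ∨
  (m = 1 ∧ ∃ w h, w ≠ 0 ∧ ‖w‖ ^ 2 + h ^ 2 = 1 ∧ X = poles p ∪ ring k w h) ∨
  (m = 2 ∧ ∃ w h w' h', w ≠ 0 ∧ w' ≠ 0 ∧ ‖w‖ ^ 2 + h ^ 2 = 1 ∧ ‖w'‖ ^ 2 + h' ^ 2 = 1 ∧
    Disjoint (ring k w h) (ring k w' h') ∧ X = poles p ∪ (ring k w h ∪ ring k w' h'))

open Classical in
/-- The part of the configuration outside of the axis. -/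
theorem decomp0 {k : ℕ} (hk : k ≠ 0) {X : Finset E3} (hX : ∀ x ∈ X, ‖x‖ = 1)
    (hinv : Inv0 k X) (h0 : ∀ x ∈ X, hz x ≠ 0) (hn : X.card < 3 * k) :
    (X = ∅) ∨
    (∃ w h, w ≠ 0 ∧ ‖w‖ ^ 2 + h ^ 2 = 1 ∧ X = ring k w h) ∨
    (∃ w h w' h', w ≠ 0 ∧ w' ≠ 0 ∧ ‖w‖ ^ 2 + h ^ 2 = 1 ∧ ‖w'‖ ^ 2 + h' ^ 2 = 1 ∧
      Disjoint (ring k w h) (ring k w' h') ∧ X = ring k w h ∪ ring k w' h') := by
  -- peel off one ring
  have peel : ∀ Y : Finset E3, (∀ x ∈ Y, ‖x‖ = 1) → Inv0 k Y → (∀ x ∈ Y, hz x ≠ 0) → Y ≠ ∅ →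
      ∃ w h, w ≠ 0 ∧ ‖w‖ ^ 2 + h ^ 2 = 1 ∧ ring k w h ⊆ Y ∧ Inv0 k (Y \ ring k w h) ∧
        (Y \ ring k w h).card + k = Y.card := by
    intro Y hY hYi hY0 hne
    obtain ⟨x, hx⟩ := Finset.nonempty_iff_ne_empty.2 hne
    have hw := hY0 x hx
    have hxp : pt (hz x) (x 2) ∈ Y := by rw [pt_hz]; exact hx
    have hsub := ring_subset hYi hxp
    refine ⟨hz x, x 2, hw, ?_, hsub, hYi.sdiff hk hw _, ?_⟩
    · rw [← norm_pt_eq_one, pt_hz]
      exact hY x hx
    · have h2 := Finset.card_sdiff_add_card_eq_card hsub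
      rw [card_ring hk hw (x 2)] at h2
      exact h2
  by_cases hX0 : X = ∅
  · exact Or.inl hX0
  right
  obtain ⟨w, h, hw, h1, hs, hi, hc⟩ := peel X hX hinv h0 hX0
  by_cases hX1 : X \ ring k w h = ∅
  · left
    refine ⟨w, h, hw, h1, ?_⟩
    exact Finset.Subset.antisymm (Finset.sdiff_eq_empty_iff_subset.1 hX1) hs
  right
  have hY : ∀ x ∈ X \ ring k w h, x ∈ X := fun x hx => (Finset.mem_sdiff.1 hx).1
  obtain ⟨w', h', hw', h1', hs', hi', hc'⟩ := peel (X \ ring k w h) (fun x hx => hX x (hY x hx)) hi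
    (fun x hx => h0 x (hY x hx)) hX1
  have hY' : ∀ x ∈ (X \ ring k w h) \ ring k w' h', x ∈ X := fun x hx =>
    hY x (Finset.mem_sdiff.1 hx).1
  have hX2 : (X \ ring k w h) \ ring k w' h' = ∅ := by
    by_contra hne
    obtain ⟨w2, h2, -, -, -, -, hc2⟩ := peel _ (fun x hx => hX x (hY' x hx)) hi'
      (fun x hx => h0 x (hY' x hx)) hne
    omega
  have hd : Disjoint (ring k w h) (ring k w' h') := by
    rw [Finset.disjoint_left]
    intro x hx hx'
    exact (Finset.mem_sdiff.1 (hs' hx')).2 hx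
  refine ⟨w, h, w', h', hw, hw', h1, h1', hd, ?_⟩
  apply Finset.Subset.antisymm
  · intro x hx
    rw [Finset.mem_union]
    by_contra hcon
    push Not at hcon
    have : x ∈ (X \ ring k w h) \ ring k w' h' :=
      Finset.mem_sdiff.2 ⟨Finset.mem_sdiff.2 ⟨hx, hcon.1⟩, hcon.2⟩
    rw [hX2] at this
    exact absurd this (Finset.notMem_empty x)
  · exact Finset.union_subset hs (hs'.trans Finset.sdiff_subset)

/-- The reflection in the horizontal plane. -/
noncomputable def refl : E3 ≃ₗᵢ[ℝ] E3 := iso 1 (by simp) (-1) (by norm_num)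

theorem refl_pt (w : ℂ) (h : ℝ) : refl (pt w h) = pt w (-h) := by
  unfold refl
  rw [iso_pt, one_mul, neg_one_mul]

open Classical in
/-- The image of a ring. -/
theorem map_ring (k : ℕ) (u : ℂ) (hu : ‖u‖ = 1) (s : ℝ) (hs : s ^ 2 = 1) (w : ℂ) (h : ℝ) :
    (ring k w h).map (iso u hu s hs).toEquiv.toEmbedding = ring k (u * w) (s * h) := by
  unfold ring
  ext x
  rw [Finset.mem_map, Finset.mem_image]
  constructor
  · rintro ⟨y, hy, rfl⟩
    rw [Finset.mem_image] at hy
    obtain ⟨j, hj, rfl⟩ := hy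
    refine ⟨j, hj, ?_⟩
    show pt (zt k ^ j * (u * w)) (s * h) = iso u hu s hs (pt (zt k ^ j * w) h)
    rw [iso_pt]
    congr 1
    ring
  · rintro ⟨j, hj, rfl⟩
    refine ⟨pt (zt k ^ j * w) h, Finset.mem_image_of_mem _ hj, ?_⟩
    show iso u hu s hs (pt (zt k ^ j * w) h) = _
    rw [iso_pt]
    congr 1
    ring

open Classical in
theorem exists_std {k : ℕ} (hk : k ≠ 0) {n : ℕ} {X : Finset E3} (hX : IsConfig n X)
    (hinv : Inv0 k X) (hn : n < 3 * k) :
    ∃ p m X', p ≤ 2 ∧ m ≤ 2 ∧ n = p + m * k ∧ Eqv X X' ∧ Std k p m X' := by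
  -- split
  obtain ⟨P, hP⟩ : ∃ P, P = X.filter (fun x => hz x = 0) := ⟨_, rfl⟩
  obtain ⟨Y, hY⟩ : ∃ Y, Y = X.filter (fun x => hz x ≠ 0) := ⟨_, rfl⟩
  have hPY : X = P ∪ Y := by
    rw [hP, hY]
    exact (Finset.filter_union_filter_not_eq _ X).symm
  have hdis : Disjoint P Y := by
    rw [hP, hY]
    exact Finset.disjoint_filter_filter_not _ _ _
  have hYX : ∀ x ∈ Y, x ∈ X := fun x hx => by rw [hPY]; exact Finset.mem_union_right _ hx
  have hPX : ∀ x ∈ P, x ∈ X := fun x hx => by rw [hPY]; exact Finset.mem_union_left _ hx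
  have hYi : Inv0 k Y := by
    rw [inv0_iff]
    intro w h hx
    have h1 := inv0_iff.1 hinv w h (hYX _ hx)
    rw [hY, Finset.mem_filter, hz_pt] at hx ⊢
    refine ⟨h1, ?_⟩
    have : zt k ≠ 0 := by
      intro h0
      have := norm_zt k
      rw [h0] at this
      simp at this
    exact mul_ne_zero this hx.2
  have hcard : P.card + Y.card = n := by
    rw [← hX.1, hPY, Finset.card_union_of_disjoint hdis]
  have hPsub : P ⊆ {pt 0 1, pt 0 (-1)} := by
    intro x hx
    have h1 : hz x = 0 := by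
      rw [hP, Finset.mem_filter] at hx
      exact hx.2
    have h2 := hX.2 x (hPX x hx)
    rw [← pt_hz x, norm_pt_eq_one, h1] at h2
    have h3 : (x 2) ^ 2 = 1 := by
      rw [norm_zero] at h2
      linarith
    rw [Finset.mem_insert, Finset.mem_singleton, ← pt_hz x, h1]
    rcases (show x 2 = 1 ∨ x 2 = -1 from by
        have h5 : (x 2 - 1) * (x 2 + 1) = 0 := by linear_combination h3
        rcases mul_eq_zero.1 h5 with h6 | h6
        · left; linarith
        · right; linarith) with h4 | h4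
    · left; rw [h4]
    · right; rw [h4]
  -- the structure of the poles
  obtain ⟨p, s, hp2, hs, hpol⟩ : ∃ (p : ℕ) (s : ℝ), p ≤ 2 ∧ ∃ hs : s ^ 2 = 1,
      P.map (iso 1 (by simp) s hs).toEquiv.toEmbedding = poles p := by
    have hN : ∀ (s : ℝ) (hs : s ^ 2 = 1) (h : ℝ),
        (iso 1 (by simp) s hs).toEquiv.toEmbedding (pt 0 h) = pt 0 (s * h) := by
      intro s hs h
      show iso 1 (by simp) s hs (pt 0 h) = _
      rw [iso_pt, mul_zero]
    by_cases hn1 : pt 0 1 ∈ P
    · by_cases hs1 : pt 0 (-1) ∈ P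
      · refine ⟨2, 1, le_rfl, by norm_num, ?_⟩
        have : P = {pt 0 1, pt 0 (-1)} := by
          apply Finset.Subset.antisymm hPsub
          intro x hx
          rw [Finset.mem_insert, Finset.mem_singleton] at hx
          rcases hx with rfl | rfl
          · exact hn1
          · exact hs1
        rw [this, poles_two, Finset.map_insert, Finset.map_singleton, hN, hN, one_mul, one_mul]
      · refine ⟨1, 1, by norm_num, by norm_num, ?_⟩
        have : P = {pt 0 1} := by
          apply Finset.Subset.antisymm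
          · intro x hx
            have := hPsub hx
            rw [Finset.mem_insert, Finset.mem_singleton] at this
            rcases this with rfl | rfl
            · exact Finset.mem_singleton_self _
            · exact absurd hx hs1
          · intro x hx
            rw [Finset.mem_singleton] at hx
            rw [hx]; exact hn1
        rw [this, poles_one, Finset.map_singleton, hN, one_mul]
    · by_cases hs1 : pt 0 (-1) ∈ P
      · refine ⟨1, -1, by norm_num, by norm_num, ?_⟩
        have : P = {pt 0 (-1)} := by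
          apply Finset.Subset.antisymm
          · intro x hx
            have := hPsub hx
            rw [Finset.mem_insert, Finset.mem_singleton] at this
            rcases this with rfl | rfl
            · exact absurd hx hn1
            · exact Finset.mem_singleton_self _
          · intro x hx
            rw [Finset.mem_singleton] at hx
            rw [hx]; exact hs1
        rw [this, poles_one, Finset.map_singleton, hN]
        norm_num
      · refine ⟨0, 1, by norm_num, by norm_num, ?_⟩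
        have : P = ∅ := by
          rw [Finset.eq_empty_iff_forall_notMem]
          intro x hx
          have := hPsub hx
          rw [Finset.mem_insert, Finset.mem_singleton] at this
          rcases this with rfl | rfl
          · exact hn1 hx
          · exact hs1 hx
        rw [this, poles_zero, Finset.map_empty]
  have hPc : P.card = p := by
    rw [← card_poles hp2, ← hpol, Finset.card_map]
  have hmap : X.map (iso 1 (by simp) s hs).toEquiv.toEmbedding =
      poles p ∪ Y.map (iso 1 (by simp) s hs).toEquiv.toEmbedding := by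
    rw [hPY, Finset.map_union, hpol]
  have hsw : ∀ (w : ℂ) (h : ℝ), ‖w‖ ^ 2 + h ^ 2 = 1 → ‖w‖ ^ 2 + (s * h) ^ 2 = 1 := by
    intro w h h1
    rw [mul_pow, hs, one_mul]
    exact h1
  rcases decomp0 hk (fun x hx => hX.2 x (hYX x hx)) hYi (fun x hx => by
    rw [hY, Finset.mem_filter] at hx; exact hx.2) (by omega) with h | ⟨w, h, hw, h1, h2⟩ |
      ⟨w, h, w', h', hw, hw', h1, h1', hd, h2⟩
  · refine ⟨p, 0, _, hp2, by norm_num, ?_, eqv_map X (iso 1 (by simp) s hs), Or.inl ⟨rfl, ?_⟩⟩
    · rw [h, Finset.card_empty] at hcard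
      omega
    · rw [hmap, h, Finset.map_empty, Finset.union_empty]
  · refine ⟨p, 1, _, hp2, by norm_num, ?_, eqv_map X (iso 1 (by simp) s hs),
      Or.inr (Or.inl ⟨rfl, w, s * h, hw, hsw w h h1, ?_⟩)⟩
    · rw [h2, card_ring hk hw] at hcard
      omega
    · rw [hmap, h2, map_ring, one_mul]
  · refine ⟨p, 2, _, hp2, le_rfl, ?_, eqv_map X (iso 1 (by simp) s hs),
      Or.inr (Or.inr ⟨rfl, w, s * h, w', s * h', hw, hw', hsw w h h1, hsw w' h' h1', ?_, ?_⟩)⟩
    · rw [h2, Finset.card_union_of_disjoint hd, card_ring hk hw, card_ring hk hw'] at hcard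
      omega
    · have := (Finset.disjoint_map (iso 1 (by simp) s hs).toEquiv.toEmbedding).2 hd
      rwa [map_ring, map_ring, one_mul, one_mul] at this
    · rw [hmap, h2, Finset.map_union, map_ring, map_ring, one_mul, one_mul]

end Pool.Agent.Helper15.Thomson
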